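import Pool.Agent.H43X.DStm

/-!
# Project AD2, piece APS (helper74): products over primes of a class modulo 8
-/

set_option autoImplicit false

open Filter Topology Set

namespace Pool.Agent.H43X

open ArithmeticFunction ArithmeticFunction.vonMangoldt

/-- The reciprocals of the primes in a class modulo `8` are not summable. -/
theorem not_summable_primes_mod_eight (a : ZMod 8) (hunit : IsUnit a) :
    ¬ Summable (fun n : ℕ => if n.Prime ∧ ((n : ZMod 8) = a) then (1 : ℝ) / n else 0) := by
  intro H
  obtain ⟨C, hC⟩ := LSeries_residueClass_lower_bound (q := 8) (a := a) hunit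
  have hS2 := summable_residueClass_non_primes_div (q := 8) a
  set bound : ℕ → ℝ := fun n =>
    (if n.Prime ∧ ((n : ZMod 8) = a) then (1 : ℝ) / n else 0) +
      (if n.Prime then 0 else residueClass a n) / n with hbound
  have hsum : Summable bound := H.add hS2
  -- the functions
  set x : ℕ → ℝ := fun j => 1 + 1 / ((j : ℝ) + 1) with hx
  have hx1 : ∀ j, 1 < x j := by intro j; simp only [hx]; have : (0:ℝ) < 1 / ((j:ℝ)+1) := by positivity
                                linarith
  have hx2 : ∀ j, x j ≤ 2 := by
    intro j; simp only [hx]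
    have : 1 / ((j:ℝ)+1) ≤ 1 := by
      rw [div_le_one (by positivity)]; have := Nat.cast_nonneg (α := ℝ) j; linarith
    linarith
  have hxlim : Tendsto (fun j => x j - 1) atTop (𝓝 0) := by
    have := tendsto_one_div_add_atTop_nhds_zero_nat (𝕜 := ℝ)
    simpa [hx] using this
  let f : ℕ → ℕ → ℝ := fun j n => (x j - 1) * (residueClass a n / (n : ℝ) ^ (x j))
  have hf_bound : ∀ j n, ‖f j n‖ ≤ bound n := by
    intro j n
    have hpos : 0 < x j - 1 := by linarith [hx1 j]
    have hnn : 0 ≤ residueClass a n := residueClass_nonneg _ n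
    have hn0 : 0 ≤ (n:ℝ) ^ (x j) := Real.rpow_nonneg (Nat.cast_nonneg n) _
    have hfn : 0 ≤ f j n := mul_nonneg hpos.le (div_nonneg hnn hn0)
    rw [Real.norm_of_nonneg hfn]
    rcases Nat.eq_zero_or_pos n with rfl | hn
    · simp [f, hbound]
    have hnR : (0:ℝ) < n := by exact_mod_cast hn
    have hn1 : (1:ℝ) ≤ n := by exact_mod_cast hn
    by_cases hp : n.Prime
    · by_cases h3 : (n : ZMod 8) = a
      · have hrc : residueClass a n = Real.log n := by
          simp [residueClass, Set.indicator, h3, vonMangoldt_apply_prime hp]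
        have hb : bound n = 1 / n := by simp [hbound, hp, h3]
        rw [hb]
        simp only [f, hrc]
        have e1 : (n:ℝ) ^ (x j) = n * (n:ℝ) ^ (x j - 1) := by
          rw [← Real.rpow_one_add' hnR.le (by linarith)]; congr 1; ring
        rw [e1]
        have hlogn : 0 ≤ Real.log n := Real.log_nonneg hn1
        have e2 : (x j - 1) * Real.log n ≤ (n:ℝ) ^ (x j - 1) := by
          rw [Real.rpow_def_of_pos hnR]
          have := Real.add_one_le_exp (Real.log n * (x j - 1))
          nlinarith
        have hpos2 : 0 < (n:ℝ) ^ (x j - 1) := Real.rpow_pos_of_pos hnR _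
        rw [← mul_div_assoc, div_le_div_iff₀ (by positivity) hnR]
        nlinarith
      · have hrc : residueClass a n = 0 := by
          simp [residueClass, Set.indicator, h3]
        simp only [f, hrc]
        simp [hbound, hp, h3]
    · have hb : bound n = residueClass a n / n := by simp [hbound, hp]
      rw [hb]
      simp only [f]
      have e1 : (n:ℝ) ≤ (n:ℝ) ^ (x j) := by
        conv_lhs => rw [← Real.rpow_one (n:ℝ)]
        exact Real.rpow_le_rpow_of_exponent_le hn1 (hx1 j).le
      have e2 : residueClass a n / (n : ℝ) ^ (x j) ≤ residueClass a n / n :=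
        div_le_div_of_nonneg_left hnn hnR e1
      have e3 : x j - 1 ≤ 1 := by linarith [hx2 j]
      have e4 : 0 ≤ residueClass a n / (n : ℝ) ^ (x j) := div_nonneg hnn hn0
      nlinarith
  have hf_lim : ∀ n, Tendsto (fun j => f j n) atTop (𝓝 0) := by
    intro n
    have hnn : 0 ≤ residueClass a n := residueClass_nonneg _ n
    rcases Nat.eq_zero_or_pos n with rfl | hn
    · simp [f]
    have hnR : (0:ℝ) < n := by exact_mod_cast hn
    have hn1 : (1:ℝ) ≤ n := by exact_mod_cast hn
    have up : ∀ j, f j n ≤ (x j - 1) * (residueClass a n / n) := by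
      intro j
      have hpos : 0 < x j - 1 := by linarith [hx1 j]
      have e1 : (n:ℝ) ≤ (n:ℝ) ^ (x j) := by
        conv_lhs => rw [← Real.rpow_one (n:ℝ)]
        exact Real.rpow_le_rpow_of_exponent_le hn1 (hx1 j).le
      exact mul_le_mul_of_nonneg_left (div_le_div_of_nonneg_left hnn hnR e1) hpos.le
    have lo : ∀ j, 0 ≤ f j n := by
      intro j
      have hpos : 0 < x j - 1 := by linarith [hx1 j]
      exact mul_nonneg hpos.le (div_nonneg hnn (Real.rpow_nonneg (Nat.cast_nonneg n) _))
    have l2 : Tendsto (fun j => (x j - 1) * (residueClass a n / n)) atTop (𝓝 0) := by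
      have := hxlim.mul_const (residueClass a n / n)
      simpa using this
    exact squeeze_zero lo up l2
  have hT := tendsto_tsum_of_dominated_convergence (f := f) (g := fun _ => (0:ℝ)) hsum
    hf_lim (Filter.Eventually.of_forall hf_bound)
  simp only [tsum_zero] at hT
  have hlow : ∀ j, (1/4 : ℝ) - C * (x j - 1) ≤ ∑' n, f j n := by
    intro j
    have hpos : 0 < x j - 1 := by linarith [hx1 j]
    have h1 := hC (x := x j) ⟨hx1 j, hx2 j⟩
    have ht : ((Nat.totient 8 : ℕ) : ℝ)⁻¹ = 1/4 := by
      have : Nat.totient 8 = 4 := by decide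
      rw [this]; norm_num
    rw [ht] at h1
    have h2 : ∑' n, f j n = (x j - 1) * ∑' n, residueClass a n / (n : ℝ) ^ (x j) := by
      rw [← tsum_mul_left]
    rw [h2]
    have h3 := mul_le_mul_of_nonneg_left h1 hpos.le
    have h4 : (x j - 1) * (1 / 4 / (x j - 1) - C) = 1/4 - C * (x j - 1) := by
      field_simp
    linarith [h4 ▸ h3]
  have hl2 : Tendsto (fun j => (1/4 : ℝ) - C * (x j - 1)) atTop (𝓝 (1/4)) := by
    have := (hxlim.const_mul C).const_sub (1/4 : ℝ)
    simpa using this
  have := le_of_tendsto_of_tendsto' hl2 hT hlow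
  norm_num at this

theorem t_APS : S_APS := by
  intro a ha R ε hε
  classical
  have hunit : IsUnit (a : ZMod 8) := by
    rw [ZMod.isUnit_iff_coprime]
    have : Nat.Coprime a 2 := by
      rw [Nat.coprime_comm, Nat.Prime.coprime_iff_not_dvd Nat.prime_two]
      omega
    have h8 : (8 : ℕ) = 2 ^ 3 := by norm_num
    rw [h8]
    exact Nat.Coprime.pow_right 3 this
  have hns := not_summable_primes_mod_eight (a : ZMod 8) hunit
  set F : ℕ → ℝ := fun n => if n.Prime ∧ ((n : ZMod 8) = a) then (1 : ℝ) / n else 0 with hF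
  have hF0 : ∀ n, 0 ≤ F n := by
    intro n
    simp only [hF]
    split_ifs
    · positivity
    · exact le_rfl
  -- a finite set with large sum, above `R`
  obtain ⟨N, hN⟩ : ∃ N : ℕ, (∑ n ∈ Finset.range R, F n) + Real.log (1 / ε) + 1 <
      ∑ n ∈ Finset.range N, F n := by
    by_contra hcon
    push Not at hcon
    exact hns (summable_of_sum_range_le hF0 hcon)
  refine ⟨(Finset.range N).filter fun n : ℕ => R ≤ n ∧ n.Prime ∧ ((n : ZMod 8) = a), ?_, ?_⟩
  · intro l hl
    obtain ⟨-, h1, h2, h3⟩ := Finset.mem_filter.1 hl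
    refine ⟨h2, h1, ?_⟩
    exact (ZMod.natCast_eq_natCast_iff _ _ _).mp h3
  · set Q := (Finset.range N).filter fun n : ℕ => R ≤ n ∧ n.Prime ∧ ((n : ZMod 8) = a) with hQ
    have h1 : Real.log (1 / ε) < ∑ l ∈ Q, 1 / (l : ℝ) := by
      have h2 : ∑ n ∈ Finset.range N, F n ≤ ∑ n ∈ Finset.range R, F n + ∑ l ∈ Q, 1 / (l : ℝ) := by
        have h3 : ∑ n ∈ Finset.range N, F n =
            ∑ n ∈ (Finset.range N).filter (fun n : ℕ => n < R), F n +
            ∑ n ∈ (Finset.range N).filter (fun n : ℕ => ¬ n < R), F n :=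
          (Finset.sum_filter_add_sum_filter_not _ _ _).symm
        have h4 : ∑ n ∈ (Finset.range N).filter (fun n : ℕ => n < R), F n ≤
            ∑ n ∈ Finset.range R, F n := by
          refine Finset.sum_le_sum_of_subset_of_nonneg ?_ fun n _ _ => hF0 n
          intro n hn
          exact Finset.mem_range.2 (Finset.mem_filter.1 hn).2
        have h5 : ∑ n ∈ (Finset.range N).filter (fun n : ℕ => ¬ n < R), F n = ∑ l ∈ Q, 1 / (l : ℝ) := by
          have h6 : Q = ((Finset.range N).filter (fun n : ℕ => ¬ n < R)).filter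
              (fun n : ℕ => n.Prime ∧ ((n : ZMod 8) = a)) := by
            rw [hQ, Finset.filter_filter]
            refine Finset.filter_congr fun n _ => ?_
            rw [not_lt]
          conv_rhs => rw [h6, Finset.sum_filter]
        linarith
      linarith
    have hle : ∏ l ∈ Q, (1 - 1 / (l : ℝ)) ≤ ∏ l ∈ Q, Real.exp (-(1 / (l : ℝ))) := by
      refine Finset.prod_le_prod (fun l hl => ?_) fun l hl => ?_
      · have h2 := (Finset.mem_filter.1 hl).2.2.1.one_lt
        have h3 : (1 : ℝ) ≤ l := by exact_mod_cast h2.le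
        have h4 : 1 / (l : ℝ) ≤ 1 := by
          rw [div_le_one (by linarith)]
          exact h3
        linarith
      · have := Real.add_one_le_exp (-(1 / (l : ℝ)))
        linarith
    refine hle.trans_lt ?_
    rw [← Real.exp_sum, Finset.sum_neg_distrib]
    have h2 : Real.exp (-Real.log (1 / ε)) = ε := by
      rw [one_div, Real.log_inv, neg_neg, Real.exp_log hε]
    calc Real.exp (-∑ l ∈ Q, 1 / (l : ℝ)) < Real.exp (-Real.log (1 / ε)) :=
          Real.exp_lt_exp.2 (by linarith)
      _ = ε := h2

end Pool.Agent.H43X
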