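import Mathlib
import Pool.Agent.N70.EP.Stm

/-!
Project AD2 (helper43 with helper31), problem MP_7f581e_nt: `G ≀ A_n` over `F_p(X)` for ALMOST ALL
multiples `n` of `lcm(2, p)`. Statements (NOT results) of the pieces.
-/

set_option autoImplicit false

namespace Pool.Agent.H43X

open Pool.Agent.H391R2 Pool.Agent.H391R2.T4
open Pool.Agent.N70.EP (SgnIndex)

/-- APS: products over primes of a class modulo 8.

Proof. (1) `∑ 1 / ℓ` over the primes `ℓ ≡ a` modulo 8 diverges: the proof of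
`Pool.Agent.H256R3.OM.not_summable_primes_one_mod_four` (file Pool/Agent/H256R3/NT.lean, lines 15-130
on main; copy it, do not import it) with `4, 1` replaced by `8, a` works word for word
(`(Nat.totient 8)⁻¹ = 1/4` in place of `1/2`). (2) Removing the finitely many primes `< R` does not
change divergence, so there is a finite set `Q` of such primes `≥ R` with `∑ 1 / ℓ > log (1 / ε)`
(`summable_of_sum_le` or `not_summable_iff_tendsto_nat_atTop_of_nonneg`). (3) `1 - x ≤ exp (-x)`, so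
the product is `≤ exp (- ∑ 1 / ℓ) < ε`. -/
def S_APS : Prop :=
  ∀ a : ℕ, a % 2 = 1 → ∀ (R : ℕ) (ε : ℝ), 0 < ε →
    ∃ Q : Finset ℕ, (∀ l ∈ Q, l.Prime ∧ R ≤ l ∧ l % 8 = a % 8) ∧ ∏ l ∈ Q, (1 - 1 / (l : ℝ)) < ε

/-- CNT: counting the numbers prime to all primes of a finite set.

Proof. `M = ∏ ℓ`; the numbers `< X` prime to `M` are at most `φ(M) (X / M + 1)`
(`Nat.filter_coprime_Ico_eq_totient`, `Nat.Ico_filter_coprime_le`), and `φ(M) / M = ∏ (1 - 1 / ℓ)`,
`φ(M) ≤ M` (`Nat.totient_mul` and induction, or `Nat.totient_eq_mul_prod_factors`). -/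
def S_CNT : Prop :=
  ∀ Q : Finset ℕ, (∀ l ∈ Q, l.Prime) → ∀ X : ℕ,
    (({m : ℕ | m < X ∧ ∀ l ∈ Q, ¬ l ∣ m}.ncard : ℕ) : ℝ) ≤
      (∏ l ∈ Q, (1 - 1 / (l : ℝ))) * X + ∏ l ∈ Q, (l : ℝ)

/-- DEN: a set which contains for every `l ≥ 2`, all large primes `r` (bound depending on `l`) and
all large `k ≡ 1` modulo 8 (bound depending on `l, r`) the number `l r k`, has density one.

Proof (from APS and CNT). Choose `V` with `2 ^ (-V) < ε / 16`. By APS there is a finite set `Q₁` of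
primes `≡ 1` modulo 8 with `∏ (1 - 1 / ℓ) < ε / 16`. Let `R*` be larger than all elements of `Q₁` and
all bounds `R (2 ^ v ℓ)`, `v ≤ V`, `ℓ ∈ Q₁`. For `a = 1, 3, 5, 7` let `Q₂ a` be a finite set of primes
`≥ R*`, `≡ a` modulo 8, with `∏ (1 - 1 / r) < ε / 16`. Let `k*` be larger than all bounds
`k₀ (2 ^ v ℓ, r)` and `m*` larger than all `k* 2 ^ v ℓ r` (finitely many). Let `m ∉ S`. Then `m < m*` or
`2 ^ (V + 1) ∣ m` or no `ℓ ∈ Q₁` divides `m` or for some `a` no `r ∈ Q₂ a` divides `m`. Otherwise write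
`m = 2 ^ v m'`, `m'` odd, `v ≤ V`, choose `ℓ ∈ Q₁` with `ℓ ∣ m`, and `r ∈ Q₂ a`, `a = m' ℓ % 8`, with
`r ∣ m`. As `ℓ ≠ r` are odd primes, `m' = ℓ r k`, and modulo 8 all squares of odd numbers are 1, so
`k ≡ m' ℓ r ≡ (m' ℓ) ^ 2 ≡ 1`; `k ≥ k*` because `m ≥ m*`, so `m = (2 ^ v ℓ) r k ∈ S`. The number of
`m < X` with `2 ^ (V + 1) ∣ m` is at most `X / 2 ^ (V + 1) + 1`; for the others use CNT. The sum is
`≤ 6 (ε / 16) X + const ≤ ε X` for large `X`. -/
def S_DEN : Prop :=
  ∀ S : Set ℕ, (∀ l : ℕ, 2 ≤ l → ∃ R : ℕ, ∀ r : ℕ, r.Prime → R ≤ r →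
      ∃ k₀ : ℕ, ∀ k ≥ k₀, k % 8 = 1 → l * r * k ∈ S) →
    ∀ ε : ℝ, 0 < ε → ∃ X₀ : ℕ, ∀ X ≥ X₀,
      (({m : ℕ | m < X ∧ m ∉ S}.ncard : ℕ) : ℝ) ≤ ε * X

/-- The fibre product of `B` and `S_b` over `{1, -1}`. -/
def Fb {H B : Type} [Group H] [Group B] (a : B →* H) (χ : H →* ℤˣ) (b : ℕ) :
    Subgroup (B × Equiv.Perm (Fin b)) where
  carrier := {z | Equiv.Perm.sign z.2 = χ (a z.1)}
  one_mem' := by
    change Equiv.Perm.sign 1 = χ (a 1)
    rw [map_one, map_one, map_one]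
  mul_mem' := by
    intro x y hx hy
    change Equiv.Perm.sign (x.2 * y.2) = χ (a (x.1 * y.1))
    rw [map_mul, map_mul, map_mul]
    exact congrArg₂ (· * ·) hx hy
  inv_mem' := by
    intro x hx
    change Equiv.Perm.sign (x.2⁻¹) = χ (a (x.1⁻¹))
    rw [map_inv, map_inv, map_inv]
    exact congrArg (·⁻¹) hx

/-- The projection to `H`. -/
def fb {H B : Type} [Group H] [Group B] (a : B →* H) (χ : H →* ℤˣ) (b : ℕ) : Fb a χ b →* H :=
  a.comp ((MonoidHom.fst B (Equiv.Perm (Fin b))).comp (Fb a χ b).subtype)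

/-- GRB: the subgroup `P` and the homomorphism `β : P → B` (a copy of
`Pool.Agent.N342.EP.t_grp1`, file Pool/Agent/N342/EP/Grp1.lean on main, with the helpers of
Pool/Agent/N342/EP/Act.lean; here it is easier: no `lam`, `eps`).

Proof. `X = SymEP (fb a χ b) r` acts on `Fin r × Fin b` by `(i, j) ↦ (π i, σ_{π i} j)` where `σ_i` is
the second component of the coordinate `i` (`wact L r` of `Act.lean` with `L : Fb a χ b →* Perm (Fin b)`
the second projection). The sign of an element is `∏ sign σ_i * (sign π) ^ b = χ (h) ^ r = χ (h)`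
(`sign_wact`; `b` even, `r` odd). The action is transitive: use the elements with permutation
`swap i₀ j` and equal coordinates `(1, σ)`, `σ` even, `σ j₀ = j'` (a three-cycle, or the identity if
`j' = j₀`; `b ≥ 3`). `P` is the stabilizer of `(i₀, j₀)`, of index `b r`, `β` is the first component
of the coordinate `i₀`, it is surjective: for `x ∈ B` take all coordinates equal to `(x, σ)`, `σ` of sign
`χ (a x)` with `σ j₀ = j₀` (the identity or a transposition not moving `j₀`), permutation 1.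
`sgnIndex_of` of `Grp1.lean` gives `SgnIndex`. -/
def S_GRB : Prop :=
  ∀ (H B : Type) [Group H] [Finite H] [Group B] [Finite B] (a : B →* H), Function.Surjective a →
    ∀ (χ : H →* ℤˣ) (b r : ℕ), Even b → 4 ≤ b → Odd r →
    ∃ (P : Subgroup (SymEP (fb a χ b) r)) (β : P →* B), Function.Surjective β ∧
      (∀ p : P, a (β p) = symProj (fb a χ b) r p) ∧
      SgnIndex (SymEP (fb a χ b) r) P (b * r) (χ.comp (symProj (fb a χ b) r))

end Pool.Agent.H43X
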