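import Mathlib
import Pool.Agent.H119R2.Kp.NT

/-!
Primes close to `n`.
-/

set_option autoImplicit false

namespace Pool.Agent.H43X

/-- For large `n` there is a prime `q ≤ n - 5` with `c (n - q + k) ≤ n` and `n < 2 q`. -/
theorem prime_gap (c k : ℕ) (hc : 0 < c) : ∃ n₀ : ℕ, ∀ n ≥ n₀, ∃ q : ℕ, q.Prime ∧ q + 5 ≤ n ∧
    c * (n - q + k) ≤ n ∧ n < 2 * q := by
  have hc' : (1 : ℝ) ≤ c := by exact_mod_cast hc
  obtain ⟨N, hN⟩ := Pool.Agent.H119R2.Kp.prime_between (1 / (4 * c)) (by positivity)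
  refine ⟨2 * N + 20 * c + 2 * c * k + 8, fun n hn => ?_⟩
  have hn' : (2 * N + 20 * c + 2 * c * k + 8 : ℝ) ≤ n := by exact_mod_cast hn
  have hN0 : (0 : ℝ) ≤ N := Nat.cast_nonneg N
  have hk0 : (0 : ℝ) ≤ k := Nat.cast_nonneg k
  have hn0 : (0 : ℝ) < n := by nlinarith [mul_nonneg (by linarith : (0 : ℝ) ≤ c) hk0]
  have h2c : (1 : ℝ) / (2 * c) ≤ 1 / 2 := by
    rw [div_le_div_iff₀ (by positivity) (by norm_num)]
    linarith
  have hx : (N : ℝ) ≤ (1 - 1 / (2 * c)) * n := by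
    have h1 : (1 / 2 : ℝ) * n ≤ (1 - 1 / (2 * c)) * n :=
      mul_le_mul_of_nonneg_right (by linarith) hn0.le
    nlinarith [mul_nonneg (by linarith : (0 : ℝ) ≤ c) hk0]
  obtain ⟨q, hq, h1, h2⟩ := hN _ hx
  have hcn : (1 : ℝ) / (2 * c) * n * c = n / 2 := by field_simp
  have hcn4 : (1 : ℝ) / (4 * c) * n * c = n / 4 := by field_simp
  -- `q ≤ (1 - 1 / (4 c)) n`
  have h3 : (q : ℝ) < (1 - 1 / (4 * c)) * n := by
    refine lt_of_lt_of_le h2 ?_
    rw [← mul_assoc]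
    refine mul_le_mul_of_nonneg_right ?_ hn0.le
    have h4 : (1 : ℝ) / (2 * c) = 2 * (1 / (4 * c)) := by field_simp; norm_num
    rw [h4]
    have h5 : (0 : ℝ) < 1 / (4 * c) := by positivity
    nlinarith
  have h5n : (5 : ℝ) ≤ 1 / (4 * c) * n := by
    rw [div_mul_eq_mul_div, one_mul, le_div_iff₀ (by positivity)]
    nlinarith [mul_nonneg (by linarith : (0 : ℝ) ≤ c) hk0]
  have h6 : (q : ℝ) + 5 ≤ n := by nlinarith
  have hq5 : q + 5 ≤ n := by exact_mod_cast h6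
  refine ⟨q, hq, hq5, ?_, ?_⟩
  · have h7 : ((c * (n - q + k) : ℕ) : ℝ) ≤ n := by
      push_cast [Nat.cast_sub (by omega : q ≤ n)]
      have h8 : (n : ℝ) - q ≤ 1 / (2 * c) * n := by nlinarith
      have h9 : (c : ℝ) * ((n : ℝ) - q) ≤ n / 2 := by
        have := mul_le_mul_of_nonneg_left h8 (by linarith : (0 : ℝ) ≤ c)
        nlinarith
      nlinarith [mul_nonneg (by linarith : (0 : ℝ) ≤ c) hk0]
    exact_mod_cast h7
  · have h7 : (n : ℝ) < 2 * q := by nlinarith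
    exact_mod_cast h7

end Pool.Agent.H43X
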