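import Mathlib
import Pool.Agent.H43X.Gap
import Pool.Agent.Y140.AW.Tw3
import Pool.Agent.Y140.AW.Fin5

/-!
Embedding problems over the affine line: all large multiples of a number.
-/

set_option autoImplicit false

namespace Pool.Agent.H43X.AffO

open Polynomial Pool.Agent.H391R2 Pool.Agent.H391R2.T4 Pool.Agent.Y793 Pool.Agent.Y140.IG
open Pool.Agent.Y140.AW

/-- The main theorem on families, for all large multiples of a number. -/
def St_mainO : Prop :=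
  ∀ (p : ℕ) [Fact p.Prime], p ≠ 2 → ∀ (κ : Type) [Field κ] [CharP κ p] [Finite κ]
    (Γ G : Type) [Group Γ] [Finite Γ] [Group G] [Finite G] (f : G →* Γ), Function.Injective f →
    RegSol κ κ Γ 1 → commutator G = ⊤ → ∃ M : ℕ, 0 < M ∧ ∃ n₀ : ℕ, ∀ n ≥ n₀, M ∣ n →
      ∃ (V : Type) (_ : Finite V), St_fam κ G V n

theorem mainO_of (hMT : St_mt) (hPTS : St_pts2)
    (hINT : St_int2) (hSQ : St_sq) (hPAR : St_par) (hTUP : St_tuple2) (hIND : St_indep2)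
    (hLIFT : St_lift) (hDATA : St_data2) : St_mainO := by
  intro p hp hp2 K _ _ _ Γ G _ _ _ _ f hf hR hG
  obtain ⟨E, _, _, _, _, _, _, g, θ, Θ, D₀, D₁, y, hreg, hg, hθ, hΘ, hDD, hD₁, hyi, hyD⟩ :=
    hDATA K Γ G f hf hR
  obtain ⟨d, hd⟩ : ∃ d, d = Θ.natDegree := ⟨_, rfl⟩
  rw [← hd] at hDD
  have hp0 : 0 < p := hp.out.pos
  have hd0 := hDD.pos
  obtain ⟨M, hM⟩ : ∃ M, M = 4 * d * p := ⟨_, rfl⟩
  have hMp : 0 < M := by rw [hM]; positivity
  obtain ⟨L, hL⟩ : ∃ L : ℕ, ∀ k, (Θ.coeff k).natDegree ≤ L := by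
    refine ⟨(Finset.range (d + 1)).sup fun k => (Θ.coeff k).natDegree, fun k => ?_⟩
    by_cases hk : k ≤ d
    · exact Finset.le_sup (f := fun k => (Θ.coeff k).natDegree)
        (Finset.mem_range.2 (Nat.lt_succ_of_le hk))
    · rw [coeff_eq_zero_of_natDegree_lt (by omega), natDegree_zero]
      exact Nat.zero_le _
  obtain ⟨T, hT⟩ : ∃ T, T = (D₀ * D₁).natDegree + L + 3 := ⟨_, rfl⟩
  obtain ⟨N₀, hN₀⟩ := Pool.Agent.H43X.prime_gap M T hMp
  refine ⟨M, hMp, N₀ + 2 * (Nat.card G) ^ 2 + 4, fun n hn hMn => ?_⟩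
  obtain ⟨q, hq, hq5, hqM, hq2⟩ := hN₀ n (by omega)
  obtain ⟨j, hj⟩ := hMn
  obtain ⟨r, hr⟩ : ∃ r, r = n - q := ⟨_, rfl⟩
  have hnq : n = q + r := by omega
  rw [← hr, hj] at hqM
  have hjr : r + T ≤ j := Nat.le_of_mul_le_mul_left hqM hMp
  obtain ⟨B, hB⟩ : ∃ B, B = 4 * (j - (D₀ * D₁).natDegree) := ⟨_, rfl⟩
  have hBδ : B + ((D₀ * D₁) ^ 4).natDegree = 4 * j := by
    rw [natDegree_pow, hB]
    omega
  have hnd : n = d * (p * (B + ((D₀ * D₁) ^ 4).natDegree)) := by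
    rw [hBδ, hj, hM]
    ring
  have hc : 2 * (Nat.card G) ^ 2 < (n - 2).factorial :=
    lt_of_lt_of_le (by omega) (Nat.self_le_factorial _)
  refine ⟨Fin (r + 1), inferInstance, ?_⟩
  intro K₀ N _ _ _ _ _ _ _ _ ν hη hfin
  refine core4 p hp2 hMT hPTS hINT hSQ hPAR hTUP hIND hLIFT K K₀ E N G hG
    hreg g hg θ Θ hθ hΘ D₀ D₁ hD₁ y hyi hyD d hDD B r q ⟨by omega, by omega, fun k => ?_⟩ ?_ n hnd
    ?_ hq hnq (by omega) (by omega) hc ν hη hfin
  · have := hL k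
    omega
  · rw [hB]
    exact ⟨2 * (j - (D₀ * D₁).natDegree), by ring⟩
  · rw [hj, hM]
    exact ⟨d * p * j, by ring⟩

theorem t_mainO : St_mainO :=
  have hpts := Y543.AW2.t_pts2 Y421.AW.t_res
  have hint := Y543.AW2.t_int2 Y421.AW.t_res
  mainO_of Y688.AW.t_mt hpts hint
    (Y3.AW2.t_sq hpts hint (Y145.AW2.t_zero2 Y421.AW.t_res) (Y921.AW2.t_spa hpts hint)
      (Y195.AW2.t_spb hint Y421.AW.t_res) Y317.AW.t_uni)
    Y436.AW.t_par (Y543.AW2.t_tuple2 Y543.AW2.t_step2) Y686.AW2.t_indep2 Y548.AW.t_lift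
    (Y534.AW2.t_data2 Y261.AW.t_data)

/-- Wreath embedding problems over the affine line. -/
theorem outO6 (p : ℕ) [Fact p.Prime] (hp : p ≠ 2) (κ : Type) [Field κ] [Finite κ] [CharP κ p]
    (G : Type) [Group G] [Finite G] (hG : commutator G = ⊤) :
    ∃ M : ℕ, 0 < M ∧ ∃ n₀ : ℕ, ∀ n ≥ n₀, M ∣ n →
      ∀ (L : Type) [Field L] [Algebra (RatFunc κ) L] [Algebra κ[X] L]
      [IsScalarTower κ[X] (RatFunc κ) L] [FiniteDimensional (RatFunc κ) L]
      [IsGalois (RatFunc κ) L],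
      (∀ (q : Ideal (integralClosure κ[X] L)) (_ : q.IsPrime), Algebra.IsUnramifiedAt κ[X] q) →
      ∀ (Ω : Type) [Finite Ω] [MulAction (L ≃ₐ[RatFunc κ] L) Ω],
        UnrEP κ L ((Ω → AWr G n) ⋊[mulAutArrow] (L ≃ₐ[RatFunc κ] L))
          SemidirectProduct.rightHom := by
  obtain ⟨Γ₀, _, _, f, hf, hR⟩ := exists_big' κ G
  obtain ⟨M, hM, n₀, hall⟩ := t_mainO p hp κ Γ₀ G f hf hR hG
  refine ⟨M, hM, n₀, fun n hn hMn => ?_⟩
  obtain ⟨V, _, hfam⟩ := hall n hn hMn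
  intro L _ _ _ _ _ _ hunr Ω _ _
  have hL := (t_unr3 κ L).2 hunr
  let K := RatFunc κ
  let K₀ := AlgebraicClosure K
  let T := Unit ⊕ ((L ≃ₐ[RatFunc κ] L) × (Ω × V))
  let F₁ := FractionRing (MvPolynomial T K₀)
  let N := AlgebraicClosure F₁
  let jL : L →ₐ[K] K₀ := IsAlgClosed.lift
  let _ : Algebra L K₀ := jL.toRingHom.toAlgebra
  have hT0 : IsScalarTower K L K₀ := IsScalarTower.of_algebraMap_eq fun x => (jL.commutes x).symm
  have hT1 : IsScalarTower K K₀ N := inferInstance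
  have hT2 : IsScalarTower κ K N := inferInstance
  have hT3 : IsScalarTower κ K₀ N := inferInstance
  have hT4 : IsScalarTower L K₀ N := inferInstance
  have hfA : Finite (L ≃ₐ[RatFunc κ] L) := inferInstance
  let Z : T → N := fun v : T => algebraMap F₁ N
    (algebraMap (MvPolynomial T K₀) F₁ (MvPolynomial.X v))
  have hZ : IsTranscendenceBasis K₀ Z := Pool.Agent.W200.IG.basis_vars
  have hfin := fin_basis (K := κ) (K₁ := K) (K₀ := K₀) (N := N) Z hZ _ (basis_X κ)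
  exact wr_ep (κ := κ) (K₀ := K₀) (N := N) (G := G) (V := V) (Ω := Ω) (L := L)
    (t_abs4 (Y849.AW2.t_gsp Pool.Agent.Y153.AW2.Hit.t_hit) t_unr3) hfam hL Z hZ hfin

/-- Wreath embedding problems over the affine line, and wreath products with cyclic groups. -/
theorem outO7 (p : ℕ) [Fact p.Prime] (hp : p ≠ 2) (κ : Type) [Field κ] [Finite κ] [CharP κ p]
    (G : Type) [Group G] [Finite G] (hG : commutator G = ⊤) :
    ∃ M : ℕ, 0 < M ∧ ∃ n₀ : ℕ, ∀ n ≥ n₀, M ∣ n →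
      (∀ (L : Type) [Field L] [Algebra (RatFunc κ) L] [Algebra κ[X] L]
      [IsScalarTower κ[X] (RatFunc κ) L] [FiniteDimensional (RatFunc κ) L]
      [IsGalois (RatFunc κ) L],
      (∀ (q : Ideal (integralClosure κ[X] L)) (_ : q.IsPrime), Algebra.IsUnramifiedAt κ[X] q) →
      ∀ (Ω : Type) [Finite Ω] [MulAction (L ≃ₐ[RatFunc κ] L) Ω],
        UnrEP κ L ((Ω → AWr G n) ⋊[mulAutArrow] (L ≃ₐ[RatFunc κ] L))
          SemidirectProduct.rightHom) ∧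
      ∀ (C Ω : Type) [Group C] [Finite C] [Finite Ω] [MulAction C Ω], IsCyclic C →
        UnrAff κ ((Ω → AWr G n) ⋊[mulAutArrow] C) := by
  obtain ⟨M, hM, n₀, h⟩ := outO6 p hp κ G hG
  refine ⟨M, hM, n₀, fun n hn hMn => ⟨h n hn hMn, fun C Ω _ _ _ _ hC => ?_⟩⟩
  obtain ⟨L, _, _, _, _, _, _, ⟨γ⟩, hunr⟩ := unrAff_cyclic p κ C hC
  let _ : MulAction (L ≃ₐ[RatFunc κ] L) Ω := MulAction.compHom Ω γ.toMonoidHom
  exact (h n hn hMn L hunr Ω).unrAff.congr (wrCongr γ fun _ _ => rfl)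

end Pool.Agent.H43X.AffO
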