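import Mathlib
import Pool.Agent.N70.PP.Sgn
import Pool.Agent.N464.PP.LcB

/-!
The signs for all even degrees, odd characteristic.
-/

set_option autoImplicit false
set_option linter.unusedSectionVars false
set_option linter.unusedSimpArgs false

namespace Pool.Agent.H43X

open Polynomial Pool.Agent.H391R2 Pool.Agent.H391R2.T4 Pool.Agent.Y793 Pool.Agent.Y140.AW
open Pool.Agent.N70.EP (SgnIndex)
open Pool.Agent.N70.PP
open Pool.Agent.N464.PP (prod_pairs exists_perm)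

/-- Parity, for even `n`. -/
theorem parE (p : ℕ) {N : Type} [Field N] (n d : ℕ) (hp : Odd p) (hn : Even n)
    (h2 : (2 : N) ≠ 0) (x δ z : Fin n → N) (s c w : N) (u : ℤˣ) (hx : Function.Injective x)
    (hc : c ≠ 0) (hz : w ^ 2 = (-1) ^ (n * (n - 1) / 2) * ∏ l, z l)
    (hrel : ∀ l, c * ∏ j ∈ Finset.univ.erase l, (x l - x j) =
      (δ l ^ 4) ^ p * (s * (δ l ^ 4) ^ p) ^ (d - 1) * (z l) ^ p)
    (σ : N ≃+* N) (π : Equiv.Perm (Fin n)) (hσx : ∀ l, σ (x l) = x (π l))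
    (hσδ : ∀ l, σ (δ l) = δ (π l)) (hσs : σ s = s) (hσc : σ c = c)
    (hσw : σ w = ((u : ℤˣ) : ℤ) • w) : Equiv.Perm.sign π = u := by
  obtain ⟨m, rfl⟩ : ∃ m, n = 2 * m := ⟨n / 2, by obtain ⟨k, hk⟩ := hn; omega⟩
  obtain ⟨E, hE⟩ : ∃ E : N, E = (-1) ^ (2 * m * (2 * m - 1) / 2) := ⟨_, rfl⟩
  rw [← hE] at hz
  have hE2 : E ^ 2 = 1 := by
    rw [hE, ← pow_mul, mul_comm, pow_mul, neg_one_sq, one_pow]
  have hEp : E ^ p = E := by
    obtain ⟨k, rfl⟩ := hp
    rw [pow_succ, pow_mul, hE2, one_pow, one_mul]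
  set V := (Matrix.vandermonde x).det with hV
  have hV0 : V ≠ 0 := Matrix.det_vandermonde_ne_zero_iff.2 hx
  have hσV : σ V = ((Equiv.Perm.sign π : ℤ) : N) * V := by
    have h1 : σ V = (σ : N →+* N) V := rfl
    rw [h1, hV, RingHom.map_det, ← Matrix.det_permute]
    congr 1
    ext i j
    simp [Matrix.vandermonde_apply, hσx]
  -- the sign of the action on the square root
  obtain ⟨U, hU⟩ : ∃ U : N, U = (((u : ℤˣ) : ℤ) : N) := ⟨_, rfl⟩
  have hU1 : U = 1 ∨ U = -1 := by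
    rcases Int.units_eq_one_or u with h | h
    · left; rw [hU, h]; simp
    · right; rw [hU, h]; simp
  have hUp : U ^ p = U := by
    rcases hU1 with h | h
    · rw [h, one_pow]
    · rw [h, hp.neg_one_pow]
  have hσw' : σ w = U * w := by rw [hσw, zsmul_eq_mul, hU]
  -- the square root
  obtain ⟨g, hg⟩ : ∃ g : Fin (2 * m) → N,
    g = fun l => (δ l ^ 2) ^ p * ((δ l ^ 2) ^ p) ^ (d - 1) := ⟨_, rfl⟩
  obtain ⟨W, hW⟩ : ∃ W : N, W = (∏ l, g l) * (s ^ (d - 1)) ^ m * w ^ p := ⟨_, rfl⟩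
  have hσg : σ (∏ l, g l) = ∏ l, g l := by
    rw [map_prod, ← Equiv.prod_comp π g]
    refine Finset.prod_congr rfl fun l _ => ?_
    rw [hg]
    simp only [map_mul, map_pow, hσδ]
  have hσW : σ W = U * W := by
    rw [hW, map_mul, map_mul, map_pow, map_pow, map_pow, hσs, hσw', hσg, mul_pow, hUp]
    ring
  have hsq : (c ^ m * V) ^ 2 = W ^ 2 := by
    have h1 : ∏ l : Fin (2 * m), (c * ∏ j ∈ Finset.univ.erase l, (x l - x j)) =
        ∏ l : Fin (2 * m), (g l ^ 2 * s ^ (d - 1) * z l ^ p) := by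
      refine Finset.prod_congr rfl fun l _ => ?_
      rw [hrel l, hg]
      simp only
      rw [mul_pow s]
      have h3 : (δ l ^ 4) ^ p = ((δ l ^ 2) ^ p) ^ 2 := by
        rw [← pow_mul, ← pow_mul, ← pow_mul]
        congr 1
        ring
      rw [h3]
      ring
    have hz' : ∏ l, z l = E * w ^ 2 := by
      rw [hz, ← mul_assoc, ← sq, hE2, one_mul]
    rw [Finset.prod_mul_distrib, Finset.prod_mul_distrib, Finset.prod_mul_distrib,
      Finset.prod_const, Finset.prod_const, prod_pairs, ← Matrix.det_vandermonde, ← hV,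
      Finset.prod_pow, Finset.prod_pow, hz', Finset.card_univ, Fintype.card_fin, mul_pow E, hEp,
      ← hE] at h1
    rw [hW]
    have h4 : c ^ (2 * m) = (c ^ m) ^ 2 := by
      rw [← pow_mul]
      congr 1
      ring
    have h5 : (s ^ (d - 1)) ^ (2 * m) = ((s ^ (d - 1)) ^ m) ^ 2 := by
      rw [← pow_mul _ m]
      congr 1
      ring
    rw [h4, h5] at h1
    have h6 : (w ^ 2) ^ p = (w ^ p) ^ 2 := by rw [← pow_mul, ← pow_mul, mul_comm]
    rw [h6] at h1
    have h7 : E * (E * (c ^ m * V) ^ 2) = E * (E * ((∏ l, g l) * (s ^ (d - 1)) ^ m * w ^ p) ^ 2) := by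
      linear_combination E * h1
    rw [← mul_assoc, ← mul_assoc, ← sq, hE2, one_mul, one_mul] at h7
    exact h7
  have hfix : σ (c ^ m * V) = U * (c ^ m * V) := by
    rcases sq_eq_sq_iff_eq_or_eq_neg.1 hsq with h | h
    · rw [h, hσW]
    · rw [h, map_neg, hσW]
      ring
  rw [map_mul, map_pow, hσc, hσV] at hfix
  have hcV : c ^ m * V ≠ 0 := mul_ne_zero (pow_ne_zero _ hc) hV0
  have hfix2 : ((Equiv.Perm.sign π : ℤ) : N) = U := by
    apply mul_right_cancel₀ hcV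
    linear_combination hfix
  rw [hU] at hfix2
  rcases Int.units_eq_one_or (Equiv.Perm.sign π) with h | h <;>
    rcases Int.units_eq_one_or u with h' | h' <;> rw [h, h'] at hfix2 ⊢
  · exfalso
    apply h2
    push_cast at hfix2
    linear_combination hfix2
  · exfalso
    apply h2
    push_cast at hfix2
    linear_combination (-1 : N) * hfix2

/-- the resultant of a product of linear factors and its derivative -/
theorem res_prodE {N : Type*} [Field N] (F : N[X]) (hF : F.Monic) (d : ℕ) (hd : F.natDegree = d)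
    (v : Fin d → N) (hv : Function.Injective v) (hr : ∀ t, F.eval (v t) = 0) :
    resultant F (derivative F) d (d - 1) =
      (-1) ^ (d * (d - 1) / 2) * (Matrix.vandermonde v).det ^ 2 := by
  classical
  have hnod : F = Lagrange.nodal Finset.univ v := by
    have hdvd : Lagrange.nodal Finset.univ v ∣ F := by
      rw [Lagrange.nodal]
      refine Finset.prod_dvd_of_coprime (fun i _ j _ hij => pairwise_coprime_X_sub_C hv hij)
        fun i _ => dvd_iff_isRoot.2 (hr i)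
    refine eq_of_monic_of_dvd_of_natDegree_le (Lagrange.nodal_monic) hF hdvd ?_
    rw [hd, Lagrange.natDegree_nodal, Finset.card_univ, Fintype.card_fin]
  have hspl : F.Splits := by
    rw [hnod, Lagrange.nodal]
    exact Splits.prod fun i _ => Splits.X_sub_C _
  have h1 : resultant F (derivative F) F.natDegree (d - 1) =
      F.leadingCoeff ^ (d - 1) * (F.roots.map (derivative F).eval).prod :=
    resultant_eq_prod_eval F (derivative F) (d - 1)
      ((natDegree_derivative_le F).trans (by rw [hd])) hspl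
  rw [hd, hF.leadingCoeff, one_pow, one_mul] at h1
  have hroots : F.roots = Finset.univ.val.map v := by
    have h := roots_multiset_prod_X_sub_C (Finset.univ.val.map v)
    rw [Multiset.map_map] at h
    rw [hnod]
    exact h
  rw [h1, hroots, Multiset.map_map]
  have h2 : (Multiset.map ((fun x => eval x (derivative F)) ∘ v) Finset.univ.val).prod =
      ∏ t, ∏ u ∈ Finset.univ.erase t, (v t - v u) := by
    show ∏ t, eval (v t) (derivative F) = _
    refine Finset.prod_congr rfl fun t _ => ?_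
    rw [hnod, Lagrange.eval_nodal_derivative_eval_node_eq (Finset.mem_univ t), Lagrange.eval_nodal]
  rw [h2, prod_pairs, Matrix.det_vandermonde]

/-- The discriminant of `Θ`, for all `d`. -/
theorem lcE (K L Z : Type) [Field K] [Field L] [Algebra K L] [FiniteDimensional K L] [IsGalois K L]
    [Field Z] [Algebra (RatFunc K) Z] [Algebra L Z] [Algebra K Z]
    [IsScalarTower K (RatFunc K) Z] [IsScalarTower K L Z] [FiniteDimensional (RatFunc K) Z]
    [IsGalois (RatFunc K) Z] (pr : (Z ≃ₐ[RatFunc K] Z) →* (L ≃ₐ[K] L))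
    (hpr : ∀ (σ : Z ≃ₐ[RatFunc K] Z) (x : L), σ (algebraMap L Z x) = algebraMap L Z (pr σ x))
    (P : Subgroup (Z ≃ₐ[RatFunc K] Z)) (d : ℕ) (χ : (L ≃ₐ[K] L) →* ℤˣ)
    (hS : SgnIndex (Z ≃ₐ[RatFunc K] Z) P d (χ.comp pr))
    (ρ : L) (δ : K) (hρ0 : ρ ≠ 0) (hδ : algebraMap K L δ = ρ ^ 2)
    (hρ : ∀ h : L ≃ₐ[K] L, h ρ = ((χ h : ℤˣ) : ℤ) • ρ)
    (θ : Z) (Θ : K[X][X]) (D₀ : K[X]) (hθ : ∀ σ : Z ≃ₐ[RatFunc K] Z, σ θ = θ ↔ σ ∈ P)
    (hΘ : Θ.map (algebraMap K[X] (RatFunc K)) = minpoly (RatFunc K) θ) (hDD : DD Θ D₀ d) :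
    ∃ R : K[X], D₀ = C ((-1) ^ (d * (d - 1) / 2) * δ) * R ^ 2 := by
  obtain ⟨g, hg, hsgn⟩ := hS
  obtain ⟨ιR, hιR⟩ : ∃ ιR : RatFunc K →+* Z, ιR = algebraMap (RatFunc K) Z := ⟨_, rfl⟩
  obtain ⟨κ, hκ⟩ : ∃ κ : K[X] →+* RatFunc K, κ = algebraMap K[X] (RatFunc K) := ⟨_, rfl⟩
  have hκinj : Function.Injective κ := by
    rw [hκ]; exact FaithfulSMul.algebraMap_injective K[X] (RatFunc K)
  have hιinj : Function.Injective ιR := ιR.injective
  -- the conjugates
  obtain ⟨v, hv⟩ : ∃ v : Fin d → Z, v = fun t => g t θ := ⟨_, rfl⟩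
  have hcoset : ∀ σ τ : Z ≃ₐ[RatFunc K] Z, (σ : (Z ≃ₐ[RatFunc K] Z) ⧸ P) = τ ↔ σ θ = τ θ := by
    intro σ τ
    rw [QuotientGroup.eq, ← hθ]
    constructor
    · intro h
      have h1 : σ ((σ⁻¹ * τ) θ) = τ θ := by
        rw [← AlgEquiv.mul_apply, mul_inv_cancel_left]
      rw [h] at h1
      exact h1
    · intro h
      have h1 : (σ⁻¹ * τ) θ = (σ⁻¹ * σ) θ := by
        rw [AlgEquiv.mul_apply, AlgEquiv.mul_apply, h]
      rw [h1, inv_mul_cancel, AlgEquiv.one_apply]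
  have hvinj : Function.Injective v := by
    intro s t hst
    rw [hv] at hst
    exact hg.1 ((hcoset _ _).2 hst)
  -- the polynomial over `Z`
  obtain ⟨F, hF⟩ : ∃ F : Z[X], F = Θ.map (ιR.comp κ) := ⟨_, rfl⟩
  have hFm : F.Monic := by rw [hF]; exact hDD.monic.map _
  have hFd : F.natDegree = d := by rw [hF, hDD.monic.natDegree_map, hDD.deg]
  have hFr : ∀ t, F.eval (v t) = 0 := by
    intro t
    have h1 : F = (minpoly (RatFunc K) θ).map ιR := by
      rw [hF, ← hΘ, hκ, Polynomial.map_map]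
    rw [h1, hιR, eval_map_algebraMap, hv]
    show aeval ((g t : Z →ₐ[RatFunc K] Z) θ) (minpoly (RatFunc K) θ) = 0
    rw [aeval_algHom_apply, minpoly.aeval, map_zero]
  have hres : (ιR.comp κ) D₀ = (-1) ^ (d * (d - 1) / 2) * (Matrix.vandermonde v).det ^ 2 := by
    rw [← res_prodE F hFm d hFd v hvinj hFr, hF, derivative_map, resultant_map_map, hDD.res]
  -- the element of `Z`
  obtain ⟨ρz, hρz⟩ : ∃ ρz : Z, ρz = algebraMap L Z ρ := ⟨_, rfl⟩
  have hρz0 : ρz ≠ 0 := by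
    rw [hρz]
    exact fun h => hρ0 ((algebraMap L Z).injective (by rw [h, map_zero]))
  have hρg : ∀ γ : Z ≃ₐ[RatFunc K] Z, γ ρz = ((((χ (pr γ)) : ℤˣ) : ℤ) : Z) * ρz := by
    intro γ
    rw [hρz, hpr, hρ, zsmul_eq_mul, map_mul, map_intCast]
  have hδz : ιR (κ (C δ)) = ρz ^ 2 := by
    rw [hρz, ← map_pow, ← hδ, ← IsScalarTower.algebraMap_apply K L Z,
      IsScalarTower.algebraMap_apply K (RatFunc K) Z, hιR, hκ, RatFunc.algebraMap_C,
      RatFunc.algebraMap_eq_C]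
  have hδ0 : δ ≠ 0 := by
    rintro rfl
    rw [map_zero] at hδ
    exact pow_ne_zero 2 hρ0 hδ.symm
  have hdet : ∀ γ : Z ≃ₐ[RatFunc K] Z, γ (Matrix.vandermonde v).det =
      ((((χ (pr γ)) : ℤˣ) : ℤ) : Z) * (Matrix.vandermonde v).det := by
    intro γ
    obtain ⟨q, hq⟩ := exists_perm hg γ
    have h1 := RingHom.map_det (γ : Z →+* Z) (Matrix.vandermonde v)
    have h2 : (γ : Z →+* Z).mapMatrix (Matrix.vandermonde v) =
        (Matrix.vandermonde v).submatrix q id := by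
      ext t l
      rw [RingHom.mapMatrix_apply, Matrix.map_apply, Matrix.submatrix_apply,
        Matrix.vandermonde_apply, Matrix.vandermonde_apply, map_pow, id]
      congr 1
      have h3 := (hcoset _ _).1 (hq t)
      rw [AlgEquiv.mul_apply] at h3
      rw [hv]
      exact h3
    rw [h2, Matrix.det_permute, hsgn γ q hq] at h1
    exact h1
  obtain ⟨r, hr⟩ : ∃ r : RatFunc K, ιR r * ρz = (Matrix.vandermonde v).det := by
    have h1 : (Matrix.vandermonde v).det * ρz⁻¹ ∈ Set.range (algebraMap (RatFunc K) Z) := by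
      rw [IsGalois.mem_range_algebraMap_iff_fixed]
      intro γ
      rw [map_mul, map_inv₀, hdet γ, hρg γ]
      rcases Int.units_eq_one_or (χ (pr γ)) with h3 | h3 <;> rw [h3]
      · simp
      · rw [Units.val_neg, Units.val_one, Int.cast_neg, Int.cast_one, neg_one_mul, neg_one_mul,
          inv_neg, neg_mul_neg]
    obtain ⟨r, hr⟩ := h1
    exact ⟨r, by rw [hιR, hr, mul_assoc, inv_mul_cancel₀ hρz0, mul_one]⟩
  obtain ⟨e, he, he2⟩ : ∃ e : K, e = (-1) ^ (d * (d - 1) / 2) ∧ e * e = 1 := by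
    refine ⟨_, rfl, ?_⟩
    rw [← mul_pow, neg_one_mul, neg_neg, one_pow]
  have h0 : κ D₀ = κ (C e) * κ (C δ) * r ^ 2 := by
    apply hιinj
    have h1 : ιR (κ D₀) = (-1) ^ (d * (d - 1) / 2) * (Matrix.vandermonde v).det ^ 2 := hres
    have h2 : ιR (κ (C e)) = (-1) ^ (d * (d - 1) / 2) := by
      rw [he, C_pow, map_pow, map_pow, C_neg, C_1, map_neg, map_neg, map_one, map_one]
    rw [h1, ← hr, map_mul, map_mul, map_pow, hδz, h2]
    ring
  have h8 : (C (e * δ⁻¹) : K[X]) * (C e * C δ) = 1 := by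
    rw [← C_mul, ← C_mul]
    have h9 : e * δ⁻¹ * (e * δ) = 1 := by
      rw [mul_mul_mul_comm, he2, one_mul, inv_mul_cancel₀ hδ0]
    rw [h9, C_1]
  have h9 : r ^ 2 = κ (C (e * δ⁻¹) * D₀) := by
    rw [map_mul, h0, ← mul_assoc, ← map_mul κ (C e), ← map_mul κ, h8, map_one, one_mul]
  have h4 : IsIntegral K[X] r :=
    IsIntegral.of_pow (n := 2) two_pos (by rw [h9, hκ]; exact isIntegral_algebraMap)
  obtain ⟨R, hR⟩ := IsIntegrallyClosed.algebraMap_eq_of_integral h4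
  refine ⟨R, hκinj ?_⟩
  have hR' : κ R = r := by rw [hκ]; exact hR
  rw [h0, ← he, map_mul, C_mul, map_mul, map_pow, hR']

section sgn

variable {p : ℕ} [Fact p.Prime] {K K₀ N : Type} [Field K] [CharP K p] [Field K₀] [Algebra K K₀]
  [Algebra.IsAlgebraic K K₀] [Field N] [IsAlgClosed N] [Algebra K₀ N] [Algebra K N]
  [IsScalarTower K K₀ N] {Θ : K[X][X]} {D₀ : K[X]} {d Bd m : ℕ} {ν : Fin m → N} {s : N}

/-- The signs, for even `d`. -/
theorem sgnE (hp2 : p ≠ 2) (hINT : St_int) (hPL : St_placeB) (hUNI : St_uni)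
    (hDD : DD Θ D₀ d) (hBB : BB Θ Bd m) (hBo : Odd Bd)
    (hne : Even (d * (p * (Bd + (D₀ ^ 4).natDegree))))
    (hpar : (-1 : N) ^ (d * (p * (Bd + (D₀ ^ 4).natDegree)) *
      (d * (p * (Bd + (D₀ ^ 4).natDegree)) - 1) / 2) = (-1) ^ (d * (d - 1) / 2))
    (hη : IsTranscendenceBasis K₀ (fun o : Option (Fin m) => o.elim s ν))
    (x θx : Fin (d * (p * (Bd + (D₀ ^ 4).natDegree))) → N) (hx : Function.Injective x)
    (hpt : ∀ l, IsPt Θ (D₀ ^ 4) p Bd ν s (x l) (θx l))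
    (hder : ∀ l, (algebraMap K N (D₀ ^ 4).leadingCoeff) ^ (p * d) *
      ∏ j ∈ Finset.univ.erase l, (x l - x j) =
        (aeval (x l) (D₀ ^ 4)) ^ p * (s * (aeval (x l) (D₀ ^ 4)) ^ p) ^ (d - 1) *
          (tZ Θ (x l) (θx l)) ^ p)
    (hperm : ∀ (σ' : N ≃ₐ[K] N), σ' s = s → (∀ i, σ' (ν i) = ν i) →
      ∃ τ' : Equiv.Perm (Fin (d * (p * (Bd + (D₀ ^ 4).natDegree)))),
        ∀ l, σ' (x l) = x (τ' l) ∧ σ' (θx l) = θx (τ' l))
    (ρ : N) (δ : K) (hρ0 : ρ ≠ 0) (hδ : algebraMap K N δ = ρ ^ 2) (R : K[X])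
    (hR : D₀ = C ((-1) ^ (d * (d - 1) / 2) * δ) * R ^ 2) (u : ℤˣ)
    (σ : N ≃ₐ[K] N) (τ : Equiv.Perm (Fin (d * (p * (Bd + (D₀ ^ 4).natDegree)))))
    (hσs : σ s = s) (hσρ : σ ρ = ((u : ℤˣ) : ℤ) • ρ) (hτ : ∀ l, σ (x l) = x (τ l)) :
    Equiv.Perm.sign τ = u := by
  have hcN : CharP N p := charP_of_injective_algebraMap (algebraMap K N).injective p
  have hηK := Pool.Agent.W200.IJ.basis_down (M := K) _ hη
  have hs0 : s ≠ 0 := hη.1.ne_zero none
  have hZne := tZ_ne hDD x θx hx hder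
  have halg := norm_alg hINT hUNI hDD hBB hη x θx hx hpt hZne hperm
  have hpo : Odd p := (Fact.out : p.Prime).odd_of_ne_two hp2
  have hR0 : R ≠ 0 := by
    rintro rfl
    refine hDD.ne ?_
    rw [hR]
    simp
  have hδ0 : δ ≠ 0 := by
    rintro rfl
    rw [map_zero] at hδ
    exact hρ0 (pow_eq_zero_iff (two_ne_zero)|>.1 hδ.symm)
  have he0 : ((-1 : K) ^ (d * (d - 1) / 2) * δ) ≠ 0 :=
    mul_ne_zero (pow_ne_zero _ (neg_ne_zero.2 one_ne_zero)) hδ0
  have hdeg : D₀.natDegree = 2 * R.natDegree := by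
    rw [hR, natDegree_C_mul he0, natDegree_pow]
  have hlc : D₀.leadingCoeff = (-1) ^ (d * (d - 1) / 2) * δ * R.leadingCoeff ^ 2 := by
    rw [hR, leadingCoeff_mul, leadingCoeff_C, leadingCoeff_pow]
  have hev : Even D₀.natDegree := by
    rw [hdeg]
    exact even_two_mul _
  have he := hPL p K N Θ D₀ (D₀ ^ 4) d Bd m hDD hBB rfl hev ν s hηK.1 x θx hx hpt halg
  obtain ⟨c, hc⟩ : ∃ c : N, c = algebraMap K N R.leadingCoeff := ⟨_, rfl⟩
  have hc0 : c ≠ 0 := by
    rw [hc]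
    exact (map_ne_zero_iff _ (algebraMap K N).injective).2 (leadingCoeff_ne_zero.2 hR0)
  have hodd : Odd (p * Bd) := hpo.mul hBo
  obtain ⟨E, hE⟩ : ∃ E : N, E = (-1) ^ (d * (d - 1) / 2) := ⟨_, rfl⟩
  have hE2 : E ^ 2 = 1 := by
    rw [hE, ← pow_mul, mul_comm, pow_mul, neg_one_sq, one_pow]
  have hEo : E ^ (p * Bd) = E := by
    obtain ⟨k, hk⟩ := hodd
    rw [hk, pow_succ, pow_mul, hE2, one_pow, one_mul]
  have hw : ((ρ * c) ^ (p * Bd)) ^ 2 =
      (-1) ^ (d * (p * (Bd + (D₀ ^ 4).natDegree)) *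
        (d * (p * (Bd + (D₀ ^ 4).natDegree)) - 1) / 2) * ∏ l, tZ Θ (x l) (θx l) := by
    rw [he, hpar, ← hE, hlc, map_pow, map_mul, map_mul, map_pow, map_pow, map_neg, map_one, ← hE,
      hδ, ← hc, mul_assoc, mul_pow E, hEo, ← mul_assoc, ← sq, hE2, one_mul, ← mul_pow,
      ← pow_mul, ← pow_mul, mul_comm 2]
  refine parE p _ d hpo hne (two_ne (p := p) N hp2) x (fun l => aeval (x l) D₀)
    (fun l => tZ Θ (x l) (θx l)) s ((algebraMap K N (D₀ ^ 4).leadingCoeff) ^ (p * d))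
    ((ρ * c) ^ (p * Bd)) u hx (lead_ne hDD) hw (fun l => ?_)
    σ.toRingEquiv τ hτ (fun l => ?_) hσs ?_ ?_
  · have h1 := hder l
    rw [map_pow (aeval (x l))] at h1
    exact h1
  · change σ (aeval (x l) D₀) = aeval (x (τ l)) D₀
    rw [← hτ l]
    exact (aeval_algHom_apply (σ : N →ₐ[K] N) (x l) D₀).symm
  · change σ (_ ^ _) = _
    rw [map_pow, σ.commutes]
  · change σ ((ρ * c) ^ (p * Bd)) = _
    have h1 : σ c = c := by
      rw [hc]
      exact σ.commutes _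
    rw [map_pow, map_mul, hσρ, h1]
    rcases Int.units_eq_one_or u with rfl | rfl
    · simp
    · simp only [Units.val_neg, Units.val_one, neg_smul, one_smul, neg_mul]
      exact hodd.neg_pow _

end sgn

end Pool.Agent.H43X
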