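import Mathlib
import Pool.Agent.H43X.Sg4
import Pool.Agent.H43X.Gap
import Pool.Agent.H43X.DStm
import Pool.Agent.XE31.AD.Fin

/-!
The main theorem for blocks of arbitrary even size, all characteristics.
-/

set_option autoImplicit false
set_option linter.unusedSectionVars false
set_option linter.unusedSimpArgs false

namespace Pool.Agent.H43X

open Polynomial Pool.Agent.H391R2 Pool.Agent.H391R2.T4 Pool.Agent.Y793 Pool.Agent.Y140.AW
open Pool.Agent.N70.EP (SgnIndex)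
open Pool.Agent.N70.PP

theorem par_eq {d t : ℕ} (hd : Even d) (ht : Odd t) :
    Even (d * t * (d * t - 1) / 2) ↔ Even (d * (d - 1) / 2) := by
  obtain ⟨a, ha⟩ := hd
  have h1 : ∀ c : ℕ, 2 * c * (2 * c - 1) / 2 = c * (2 * c - 1) := by
    intro c
    rw [mul_assoc, Nat.mul_div_cancel_left _ two_pos]
  have h2 : ∀ c : ℕ, Even (c * (2 * c - 1)) ↔ Even c := by
    intro c
    rcases Nat.eq_zero_or_pos c with rfl | hc
    · simp
    · rw [Nat.even_mul]
      constructor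
      · rintro (h | h)
        · exact h
        · obtain ⟨k, hk⟩ := h
          omega
      · exact Or.inl
  have e1 : d = 2 * a := by omega
  have e2 : d * t = 2 * (a * t) := by rw [e1]; ring
  rw [e2, e1, h1, h1, h2, h2, Nat.even_mul]
  constructor
  · rintro (h | h)
    · exact h
    · exact absurd h (Nat.not_even_iff_odd.2 ht)
  · exact Or.inl

section main

variable (p : ℕ) [Fact p.Prime] (hp2 : p ≠ 2) (hh : Pieces)
    {K L Z : Type} [Field K] [CharP K p] [Infinite K] [Field L] [Algebra K L]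
    [FiniteDimensional K L] [IsGalois K L] [Field Z] [Algebra (RatFunc K) Z] [Algebra L Z]
    [Algebra K Z] [IsScalarTower K (RatFunc K) Z] [IsScalarTower K L Z]
    [FiniteDimensional (RatFunc K) Z] [IsGalois (RatFunc K) Z]
    (π : (Z ≃ₐ[RatFunc K] Z) →* (L ≃ₐ[K] L))
    (hπ : ∀ (σ : Z ≃ₐ[RatFunc K] Z) (x : L), σ (algebraMap L Z x) = algebraMap L Z (π σ x))
    (hreg : ∀ y : Z, IsAlgebraic L y → y ∈ Set.range (algebraMap L Z))
    (P : Subgroup (Z ≃ₐ[RatFunc K] Z)) {B : Type} [Group B] [Finite B] (β : P →* B)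
    (hβ : Function.Surjective β) (a : B →* (L ≃ₐ[K] L)) (hsurj : Function.Surjective a)
    (ha : ∀ p : P, a (β p) = π p) (hperf : commutator a.ker = ⊤)

include hp2 hh hπ hreg hβ hsurj ha hperf

theorem oneE (d : ℕ) (hd2 : Even d) (χ : (L ≃ₐ[K] L) →* ℤˣ)
    (hidx : SgnIndex (Z ≃ₐ[RatFunc K] Z) P d (χ.comp π)) :
    ∃ n₀ : ℕ, ∀ n ≥ n₀, n % (2 * (d * p)) = d * p →
      RegSol K L (AltTw a χ n) (twProj a χ n) := by
  classical
  obtain ⟨θ, Θ, D₀, hθ, hΘ, hDD⟩ := hh.data K Z P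
  rw [index_of_sgnIndex hidx] at hDD
  obtain ⟨ρ, δ, hρ0, hδ, hρ⟩ := exists_rho K L χ
  obtain ⟨R, hR⟩ := lcE K L Z π hπ P d χ hidx ρ δ hρ0 hδ hρ θ Θ D₀ hθ hΘ hDD
  have hp0 : 0 < p := (Fact.out : p.Prime).pos
  have hpo : Odd p := (Fact.out : p.Prime).odd_of_ne_two hp2
  have hd0 := hDD.pos
  obtain ⟨c, hc⟩ : ∃ c, c = d * p := ⟨_, rfl⟩
  have hc0 : 0 < c := by rw [hc]; positivity
  obtain ⟨L', hL⟩ := exists_L Θ
  obtain ⟨n₁, hn₁⟩ := prime_gap c (4 * D₀.natDegree + L' + 3) hc0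
  refine ⟨n₁ + 2 * (Nat.card a.ker) ^ 2 + 3, fun n hn0 hnc => ?_⟩
  rw [← hc] at hnc
  obtain ⟨q, hq, hq5, hcr, hn2q⟩ := hn₁ n (by omega)
  obtain ⟨r, hr⟩ : ∃ r, n = q + r := ⟨n - q, by omega⟩
  have hr' : n - q = r := by omega
  rw [hr'] at hcr
  obtain ⟨j, hj⟩ : ∃ j, n = c * (2 * j + 1) := by
    refine ⟨n / (2 * c), ?_⟩
    have h1 := Nat.div_add_mod n (2 * c)
    rw [hnc] at h1
    calc n = 2 * c * (n / (2 * c)) + c := h1.symm
      _ = c * (2 * (n / (2 * c)) + 1) := by ring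
  have hjr : r + (4 * D₀.natDegree + L' + 3) ≤ 2 * j + 1 := by
    have h1 : c * (r + (4 * D₀.natDegree + L' + 3)) ≤ c * (2 * j + 1) := by
      rw [← hj]
      exact hcr
    exact Nat.le_of_mul_le_mul_left h1 hc0
  obtain ⟨Bd, hB⟩ : ∃ Bd, Bd = 2 * j + 1 - 4 * D₀.natDegree := ⟨_, rfl⟩
  have hBδ : Bd + (D₀ ^ 4).natDegree = 2 * j + 1 := by
    rw [natDegree_pow, hB]
    omega
  have hnd : d * (p * (Bd + (D₀ ^ 4).natDegree)) = n := by
    rw [hBδ, hj, hc]
    ring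
  have hto : Odd (p * (Bd + (D₀ ^ 4).natDegree)) := by
    rw [hBδ]
    exact hpo.mul ⟨j, rfl⟩
  have hne : Even (d * (p * (Bd + (D₀ ^ 4).natDegree))) := hd2.mul_right _
  have hBB : BB Θ Bd (r + 1) := ⟨by omega, by omega, fun k => by have := hL k; omega⟩
  have hBo : Odd Bd := by
    rw [hB]
    exact ⟨j - 2 * D₀.natDegree, by omega⟩
  let K₀ := AlgebraicClosure K
  let jL : L →ₐ[K] K₀ := IsAlgClosed.lift
  let iL : Algebra L K₀ := jL.toRingHom.toAlgebra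
  have tKL : IsScalarTower K L K₀ := .of_algebraMap_eq fun x => (jL.commutes x).symm
  obtain ⟨N, i1, i2, i3, η, hη⟩ := exists_trb K₀ (Option (Fin (r + 1)))
  let i4 : Algebra K N := ((algebraMap K₀ N).comp (algebraMap K K₀)).toAlgebra
  let i4L : Algebra L N := ((algebraMap K₀ N).comp (algebraMap L K₀)).toAlgebra
  have i5 : IsScalarTower K K₀ N := .of_algebraMap_eq fun _ => rfl
  have i5L : IsScalarTower L K₀ N := .of_algebraMap_eq fun _ => rfl
  have i6 : IsScalarTower K L N := .of_algebraMap_eq fun x => by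
    rw [IsScalarTower.algebraMap_apply K K₀ N, IsScalarTower.algebraMap_apply K L K₀,
      ← IsScalarTower.algebraMap_apply L K₀ N]
  obtain ⟨s, hs⟩ : ∃ s : N, s = η none := ⟨_, rfl⟩
  obtain ⟨ν, hν⟩ : ∃ ν : Fin (r + 1) → N, ν = fun i => η (some i) := ⟨_, rfl⟩
  have hη' : (fun o : Option (Fin (r + 1)) => o.elim s ν) = η := by
    funext o
    cases o with
    | none => exact hs
    | some i => rw [hν]; rfl
  rw [← hη'] at hη
  have hs0 : s ≠ 0 := hη.1.ne_zero none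
  obtain ⟨x, θx, hx, hpt, hall, hder⟩ := hh.pts p K N Θ D₀ (D₀ ^ 4) d Bd (r + 1) hDD hBB rfl ν s hs0
  rw [← hnd]
  refine coreP (K₀ := K₀) (N := N) p hh.mt hh.tup hh.ind hh.lift hh.ari π hπ hreg P θ Θ hθ hΘ D₀ d hDD β hβ a
      hsurj ha hperf Bd r q _ hq (hnd.trans hr) (by omega) (by omega)
      (lt_of_lt_of_le (by omega) (Nat.self_le_factorial _)) s ν hη x θx hx hpt hall χ ?_
  intro σ h τ hσs hσν hσL hperm hτ _
  have hpar : (-1 : N) ^ (d * (p * (Bd + (D₀ ^ 4).natDegree)) *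
      (d * (p * (Bd + (D₀ ^ 4).natDegree)) - 1) / 2) = (-1) ^ (d * (d - 1) / 2) := by
    have h1 := par_eq hd2 hto
    rcases Nat.even_or_odd (d * (d - 1) / 2) with h2 | h2
    · rw [h2.neg_one_pow, (h1.2 h2).neg_one_pow]
    · have h3 : Odd (d * (p * (Bd + (D₀ ^ 4).natDegree)) *
          (d * (p * (Bd + (D₀ ^ 4).natDegree)) - 1) / 2) := by
        rw [← Nat.not_even_iff_odd]
        exact fun h4 => (Nat.not_even_iff_odd.2 h2) (h1.1 h4)
      rw [h2.neg_one_pow, h3.neg_one_pow]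
  refine sgnE hp2 hh.int hh.plB hh.uni hDD hBB hBo hne hpar hη x θx hx hpt hder hperm
    (algebraMap L N ρ) δ ?_ ?_ R hR (χ h) σ τ hσs ?_ hτ
  · exact (map_ne_zero_iff _ (algebraMap L N).injective).2 hρ0
  · rw [← map_pow, ← hδ, ← IsScalarTower.algebraMap_apply]
  · rw [hσL, hρ, zsmul_eq_mul, zsmul_eq_mul, map_mul, map_intCast]

end main

/-- A transposition for `-1`. -/
def sw (b : ℕ) (hb : 2 ≤ b) : ℤˣ →* Equiv.Perm (Fin b) where
  toFun u := if u = 1 then 1 else Equiv.swap ⟨0, by omega⟩ ⟨1, by omega⟩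
  map_one' := if_pos rfl
  map_mul' u v := by
    rcases Int.units_eq_one_or u with rfl | rfl <;>
      rcases Int.units_eq_one_or v with rfl | rfl <;> simp

theorem sign_sw (b : ℕ) (hb : 2 ≤ b) (u : ℤˣ) : Equiv.Perm.sign (sw b hb u) = u := by
  have h01 : (⟨0, by omega⟩ : Fin b) ≠ ⟨1, by omega⟩ := by simp
  rcases Int.units_eq_one_or u with rfl | rfl
  · exact map_one _
  · change Equiv.Perm.sign (if (-1 : ℤˣ) = 1 then 1 else
      Equiv.swap (⟨0, by omega⟩ : Fin b) ⟨1, by omega⟩) = -1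
    rw [if_neg (by decide), Equiv.Perm.sign_swap h01]

theorem weak_fb (K L B : Type) [Field K] [Field L] [Algebra K L] [FiniteDimensional K L]
    [IsGalois K L] [Group B] (a : B →* (L ≃ₐ[K] L)) (hw : WeakSol K L B a)
    (χ : (L ≃ₐ[K] L) →* ℤˣ) (b : ℕ) (hb : 2 ≤ b) : WeakSol K L (Fb a χ b) (fb a χ b) := by
  obtain ⟨L', i1, i2, i3, i4, i5, i6, s, hs⟩ := hw
  exact ⟨L', i1, i2, i3, i4, i5, i6,
    (s.prod ((sw b hb).comp (χ.comp (a.comp s)))).codRestrict (Fb a χ b)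
      (fun ρ => sign_sw b hb _), hs⟩

theorem card_fb {H B : Type} [Group H] [Group B] [Finite B] (a : B →* H) (χ : H →* ℤˣ) (b : ℕ) :
    Nat.card (fb a χ b).ker ≤ Nat.card a.ker * b.factorial := by
  have h1 : Nat.card (fb a χ b).ker ≤ Nat.card (a.ker × Equiv.Perm (Fin b)) := by
    refine Nat.card_le_card_of_injective
      (fun z : (fb a χ b).ker => ((⟨z.1.1.1, z.2⟩ : a.ker), z.1.1.2)) ?_
    intro z w hzw
    have h2 : z.1.1.1 = w.1.1.1 := congrArg (fun y : a.ker × Equiv.Perm (Fin b) => (y.1 : B)) hzw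
    have h3 : z.1.1.2 = w.1.1.2 := (Prod.ext_iff.1 hzw).2
    exact Subtype.ext (Subtype.ext (Prod.ext h2 h3))
  rw [Nat.card_prod, Nat.card_eq_fintype_card (α := Equiv.Perm (Fin b)), Fintype.card_perm,
    Fintype.card_fin] at h1
  exact h1

/-- The degrees: `d` times an odd multiple of `p` for odd `p`, `d` times a number `≡ 1` modulo 8 for
`p = 2`. -/
def DegE (p d n : ℕ) : Prop :=
  (p = 2 → n % (8 * d) = d) ∧ (p ≠ 2 → n % (2 * (d * p)) = d * p)

/-- The bound. -/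
def bdE (g b : ℕ) : ℕ := ((3 * (g * b.factorial) + 2).factorial) ^ 3

theorem mainE (hG : S_GRB) (p : ℕ) [Fact p.Prime] (K L : Type) [Field K] [CharP K p] [Infinite K]
    [Field L] [Algebra K L] [FiniteDimensional K L] [IsGalois K L] (B : Type) [Group B] [Finite B]
    (a : B →* (L ≃ₐ[K] L)) (ha : Function.Surjective a) (hperf : commutator a.ker = ⊤)
    (hw : WeakSol K L B a) (b r : ℕ) (hb : Even b) (hb4 : 4 ≤ b) (hr : Odd r)
    (hr2 : bdE (Nat.card a.ker) b ≤ r) :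
    ∃ n₀ : ℕ, ∀ n ≥ n₀, DegE p (b * r) n → ∀ χ : (L ≃ₐ[K] L) →* ℤˣ,
      RegSol K L (AltTw a χ n) (twProj a χ n) := by
  have hh : Pieces := hyp.toPieces
  have h1 : ∀ χ : (L ≃ₐ[K] L) →* ℤˣ, ∃ n₀ : ℕ, ∀ n ≥ n₀, DegE p (b * r) n →
      RegSol K L (AltTw a χ n) (twProj a χ n) := by
    intro χ
    obtain ⟨Z, i1, i2, i3, i4, i5, i6, i7, i8, γ, hγ, hreg⟩ :=
      Pool.Agent.TH59.WX.reg_sym_unif K L (Fb a χ b) (fb a χ b)
        (weak_fb K L B a hw χ b (by omega)) r (by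
          refine le_trans (Nat.pow_le_pow_left (Nat.factorial_le ?_) 3) hr2
          have := card_fb a χ b
          omega)
    obtain ⟨P, β, hβ, hβ2, hidx⟩ := hG (L ≃ₐ[K] L) B a ha χ b r hb hb4 hr
    let P' := P.comap (γ : (Z ≃ₐ[RatFunc K] Z) →* _)
    have hmap : P'.map (γ : (Z ≃ₐ[RatFunc K] Z) →* _) = P :=
      Subgroup.map_comap_eq_self_of_surjective γ.surjective P
    let e : P' ≃* P := (γ.subgroupMap P').trans (MulEquiv.subgroupCongr hmap)
    have hidx' := sgnIndex_comap γ P (b * r) _ hidx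
    by_cases hp2 : p = 2
    · subst hp2
      obtain ⟨n₁, h₁⟩ := Pool.Agent.XE31.AD.oneBtwo hh Pool.Agent.XE31.AD.t_mt3
        Pool.Agent.XE31.AD.t_EXT ((symProj (fb a χ b) r).comp
        (γ : (Z ≃ₐ[RatFunc K] Z) →* _)) hγ hreg P' (β.comp (e : P' →* P)) (hβ.comp e.surjective)
        a ha (fun u => hβ2 (e u)) hperf (b * r) (by
          obtain ⟨r', hr'⟩ := hr
          calc 4 ≤ b := hb4
            _ = b * 1 := (mul_one b).symm
            _ ≤ b * r := Nat.mul_le_mul_left b (by omega)) χ hidx'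
      exact ⟨n₁, fun n hn hd => h₁ n hn (hd.1 rfl)⟩
    · obtain ⟨n₁, h₁⟩ := oneE p hp2 hh ((symProj (fb a χ b) r).comp
        (γ : (Z ≃ₐ[RatFunc K] Z) →* _)) hγ hreg P' (β.comp (e : P' →* P)) (hβ.comp e.surjective)
        a ha (fun u => hβ2 (e u)) hperf (b * r) (hb.mul_right _) χ hidx'
      exact ⟨n₁, fun n hn hd => h₁ n hn (hd.2 hp2)⟩
  choose f hf using h1
  have hfin : Finite ((L ≃ₐ[K] L) →* ℤˣ) :=
    Finite.of_injective (fun f : (L ≃ₐ[K] L) →* ℤˣ => (f : (L ≃ₐ[K] L) → ℤˣ))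
      DFunLike.coe_injective
  have hft := Fintype.ofFinite ((L ≃ₐ[K] L) →* ℤˣ)
  refine ⟨Finset.univ.sup f, fun n hn hd χ => hf χ n ?_ hd⟩
  exact (Finset.le_sup (f := f) (Finset.mem_univ χ)).trans hn

end Pool.Agent.H43X
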