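import Mathlib

/-!
# Vocabulary: almost all multiples
-/

set_option autoImplicit false

namespace Pool.Agent.H43X.VocD

/-- `P` holds for almost all multiples of `c`: the set of the numbers `m` for which `P (c m)` is
false has natural density zero. -/
def AlmostAllMultiples (c : ℕ) (P : ℕ → Prop) : Prop :=
  Filter.Tendsto (fun X : ℕ => ({m : ℕ | m < X ∧ ¬ P (c * m)}.ncard : ℝ) / X) Filter.atTop
    (nhds 0)

/-- The residue class of degrees belonging to `p` and `d`: `n = d p (2 k + 1)` for odd `p` and
`n = d (8 k + 1)` for `p = 2`. -/
def Degrees (p d : ℕ) : Set ℕ := {n | if p = 2 then n % (8 * d) = d else n % (2 * d * p) = d * p}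

/-- The bound for the number `r` of blocks of size `b`, for a kernel of order `g`. -/
def Bound (g b : ℕ) : ℕ := ((3 * (g * b.factorial) + 2).factorial) ^ 3

end Pool.Agent.H43X.VocD
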