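import Mathlib
import Pool.Agent.H43X.VocD
import Pool.Agent.H43X.Even

/-!
From residue classes to almost all multiples.
-/

set_option autoImplicit false

namespace Pool.Agent.H43X

open VocD

theorem tendsto_of {A : ℕ → Set ℕ} (h : ∀ ε : ℝ, 0 < ε → ∃ X₀ : ℕ, ∀ X ≥ X₀,
    (((A X).ncard : ℕ) : ℝ) ≤ ε * X) :
    Filter.Tendsto (fun X : ℕ => ((A X).ncard : ℝ) / X) Filter.atTop (nhds 0) := by
  rw [Metric.tendsto_atTop]
  intro ε hε
  obtain ⟨X₀, hX₀⟩ := h (ε / 2) (by positivity)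
  refine ⟨X₀ + 1, fun X hX => ?_⟩
  have hX0 : (0 : ℝ) < X := by
    have : 0 < X := by omega
    exact_mod_cast this
  have h1 := hX₀ X (by omega)
  rw [Real.dist_eq, sub_zero, abs_of_nonneg (by positivity), div_lt_iff₀ hX0]
  nlinarith

/-- Almost all multiples of `lcm (2, p)`. -/
theorem almost (hD : S_DEN) (p : ℕ) [Fact p.Prime] (P : ℕ → Prop) (bd : ℕ → ℕ)
    (h : ∀ b r : ℕ, Even b → 4 ≤ b → Odd r → bd b ≤ r →
      ∃ n₀ : ℕ, ∀ n ≥ n₀, DegE p (b * r) n → P n) :
    AlmostAllMultiples (Nat.lcm 2 p) P := by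
  have hp : p.Prime := Fact.out
  have h1 := hD {m | P (Nat.lcm 2 p * m)} (fun l hl => by
    refine ⟨bd (2 * l) + 3, fun r hr hr2 => ?_⟩
    have hro : Odd r := hr.odd_of_ne_two (by omega)
    obtain ⟨n₀, hn₀⟩ := h (2 * l) r (even_two_mul l) (by omega) hro (by omega)
    refine ⟨n₀ + 1, fun k hk hk8 => hn₀ _ ?_ ⟨fun h2 => ?_, fun h2 => ?_⟩⟩
    · have hc : 0 < Nat.lcm 2 p := Nat.lcm_pos two_pos hp.pos
      have h3 : 1 * k ≤ (Nat.lcm 2 p * (l * r)) * k :=
        Nat.mul_le_mul_right k (by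
          have : 0 < Nat.lcm 2 p * (l * r) := by
            have := hr.pos
            positivity
          omega)
      calc n₀ ≤ 1 * k := by omega
        _ ≤ (Nat.lcm 2 p * (l * r)) * k := h3
        _ = Nat.lcm 2 p * (l * r * k) := by ring
    · subst h2
      obtain ⟨j, rfl⟩ : ∃ j, k = 8 * j + 1 := ⟨k / 8, by omega⟩
      have e1 : Nat.lcm 2 2 = 2 := by decide
      rw [e1]
      have e2 : 2 * (l * r * (8 * j + 1)) = 2 * l * r + 8 * (2 * l * r) * j := by ring
      rw [e2, Nat.add_mul_mod_self_left, Nat.mod_eq_of_lt]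
      have : 0 < 2 * l * r := by
        have := hr.pos
        positivity
      omega
    · obtain ⟨j, rfl⟩ : ∃ j, k = 2 * j + 1 := ⟨k / 2, by omega⟩
      have hpo : Odd p := hp.odd_of_ne_two h2
      have e1 : Nat.lcm 2 p = 2 * p := by
        apply Nat.Coprime.lcm_eq_mul
        exact (Nat.coprime_primes Nat.prime_two hp).2 (Ne.symm h2)
      rw [e1]
      have e2 : 2 * p * (l * r * (2 * j + 1)) =
          2 * l * r * p + 2 * (2 * l * r * p) * j := by ring
      rw [e2, Nat.add_mul_mod_self_left, Nat.mod_eq_of_lt]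
      have : 0 < 2 * l * r * p := by
        have := hr.pos
        have := hp.pos
        positivity
      omega)
  exact tendsto_of h1

/-- Almost all multiples of `c`. -/
theorem almostA (hD : S_DEN) (c : ℕ) (hc : 0 < c) (P : ℕ → Prop) (K : ℕ)
    (h : ∀ k ≥ K, ∃ n₀ : ℕ, ∀ n ≥ n₀, c * k ∣ n → P n) : AlmostAllMultiples c P := by
  have h1 := hD {m | P (c * m)} (fun l hl => by
    refine ⟨K, fun r hr hr2 => ?_⟩
    obtain ⟨n₀, hn₀⟩ := h r hr2
    refine ⟨n₀, fun k hk hk8 => hn₀ _ ?_ ⟨l * k, by ring⟩⟩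
    have h3 : 1 * k ≤ (c * (l * r)) * k :=
      Nat.mul_le_mul_right k (by
        have : 0 < c * (l * r) := by
          have := hr.pos
          positivity
        omega)
    calc n₀ ≤ 1 * k := by omega
      _ ≤ (c * (l * r)) * k := h3
      _ = c * (l * r * k) := by ring)
  exact tendsto_of h1

theorem degE_of {p d n : ℕ} (h : n ∈ Degrees p d) : DegE p d n := by
  have h' : if p = 2 then n % (8 * d) = d else n % (2 * d * p) = d * p := h
  refine ⟨fun hp => ?_, fun hp => ?_⟩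
  · rw [if_pos hp] at h'
    exact h'
  · rw [if_neg hp] at h'
    rw [← mul_assoc]
    exact h'

end Pool.Agent.H43X
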