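import Pool.Agent.H43X.DStm

/-! Piece CNT of project AD2 (helper78). -/

set_option autoImplicit false

namespace Pool.Agent.H43X

open Finset

theorem CNT_tot (Q : Finset ℕ) (hQ : ∀ l ∈ Q, l.Prime) :
    ((Nat.totient (∏ l ∈ Q, l) : ℕ) : ℝ) =
      (∏ l ∈ Q, (1 - 1 / (l : ℝ))) * ∏ l ∈ Q, (l : ℝ) := by
  induction Q using Finset.induction_on with
  | empty => simp
  | insert l Q hl ih =>
    have hlp := hQ l (mem_insert_self _ _)
    have hco : Nat.Coprime l (∏ i ∈ Q, i) := by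
      refine Nat.Coprime.prod_right fun i hi => ?_
      refine (Nat.coprime_primes hlp (hQ i (mem_insert_of_mem hi))).2 ?_
      rintro rfl
      exact hl hi
    have h0 : (l : ℝ) ≠ 0 := by exact_mod_cast hlp.ne_zero
    rw [Finset.prod_insert hl, Nat.totient_mul hco, Nat.totient_prime hlp, Finset.prod_insert hl,
      Finset.prod_insert hl, Nat.cast_mul, ih fun i hi => hQ i (mem_insert_of_mem hi),
      Nat.cast_sub hlp.one_le]
    push_cast
    field_simp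

theorem t_CNT : S_CNT := by
  intro Q hQ X
  obtain ⟨M, hM⟩ : ∃ M, M = ∏ l ∈ Q, l := ⟨_, rfl⟩
  have hM0 : 0 < M := by
    rw [hM]
    exact Finset.prod_pos fun l hl => (hQ l hl).pos
  have hset : {m : ℕ | m < X ∧ ∀ l ∈ Q, ¬ l ∣ m} =
      (((Finset.Ico 0 (0 + X)).filter fun m => M.Coprime m : Finset ℕ) : Set ℕ) := by
    ext m
    simp only [Set.mem_ofPred_eq, Finset.coe_filter, Finset.mem_Ico, Nat.zero_le, true_and, zero_add]
    refine and_congr_right fun _ => ?_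
    rw [hM, Nat.coprime_prod_left_iff]
    refine forall_congr' fun l => forall_congr' fun hl => ?_
    rw [(hQ l hl).coprime_iff_not_dvd]
  have h1 : {m : ℕ | m < X ∧ ∀ l ∈ Q, ¬ l ∣ m}.ncard ≤ M.totient * (X / M + 1) := by
    rw [hset, Set.ncard_coe_finset]
    exact Nat.Ico_filter_coprime_le 0 X hM0.ne'
  have hMR : (M : ℝ) = ∏ l ∈ Q, (l : ℝ) := by rw [hM]; push_cast; rfl
  have ht := CNT_tot Q hQ
  rw [← hM, ← hMR] at ht
  have hMp : (0 : ℝ) < M := by exact_mod_cast hM0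
  have h2 : ((X / M : ℕ) : ℝ) ≤ (X : ℝ) / M := Nat.cast_div_le
  have h3 : ((M.totient : ℕ) : ℝ) ≤ M := by exact_mod_cast Nat.totient_le M
  have h4 : (0 : ℝ) ≤ ((M.totient : ℕ) : ℝ) := Nat.cast_nonneg _
  calc (({m : ℕ | m < X ∧ ∀ l ∈ Q, ¬ l ∣ m}.ncard : ℕ) : ℝ)
      ≤ ((M.totient * (X / M + 1) : ℕ) : ℝ) := by exact_mod_cast h1
    _ = ((M.totient : ℕ) : ℝ) * ((X / M : ℕ) : ℝ) + ((M.totient : ℕ) : ℝ) := by push_cast; ring
    _ ≤ ((M.totient : ℕ) : ℝ) * ((X : ℝ) / M) + M :=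
        add_le_add (mul_le_mul_of_nonneg_left h2 h4) h3
    _ = (∏ l ∈ Q, (1 - 1 / (l : ℝ))) * X + ∏ l ∈ Q, (l : ℝ) := by
        rw [ht, ← hMR]
        field_simp

end Pool.Agent.H43X
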