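import Pool.Agent.H43X.DStm

set_option autoImplicit false

namespace Pool.Agent.H43X

open Finset

theorem den_mod (x z l r : ℕ) (hl : l % 8 = 1) (hr : r % 8 = x % 8) (hx : x % 2 = 1)
    (h : x = l * r * z) : z % 8 = 1 := by
  have h1 : x % 8 = (x % 8) * (z % 8) % 8 := by
    conv_lhs => rw [h]
    rw [Nat.mul_mod, Nat.mul_mod l r, hl, one_mul, Nat.mod_mod, hr]
  have h2 : x % 8 < 8 := Nat.mod_lt _ (by norm_num)
  have h3 : z % 8 < 8 := Nat.mod_lt _ (by norm_num)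
  have h4 : (x % 8) % 2 = 1 := by omega
  generalize x % 8 = u at *
  generalize z % 8 = w at *
  interval_cases u <;> interval_cases w <;> omega

theorem t_DEN (h1 : S_APS) (h2 : S_CNT) : S_DEN := by
  classical
  intro S hS ε hε
  have hε' : 0 < ε / 16 := by positivity
  choose! Rf hRf using hS
  choose! kf hkf using hRf
  obtain ⟨V, hV⟩ : ∃ V : ℕ, (1 / 2 : ℝ) ^ V < ε / 16 :=
    exists_pow_lt_of_lt_one hε' (by norm_num)
  obtain ⟨Q₁, hQ₁, hQ₁'⟩ := h1 1 (by norm_num) 3 (ε / 16) hε'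
  set Rs : ℕ := (∑ v ∈ range (V + 1), ∑ l ∈ Q₁, Rf (2 ^ v * l)) + ∑ l ∈ Q₁, l + 1 with hRs
  have hRs1 : ∀ v ∈ range (V + 1), ∀ l ∈ Q₁, Rf (2 ^ v * l) ≤ Rs := by
    intro v hv l hl
    have e1 : Rf (2 ^ v * l) ≤ ∑ l ∈ Q₁, Rf (2 ^ v * l) :=
      Finset.single_le_sum (f := fun l => Rf (2 ^ v * l)) (fun _ _ => Nat.zero_le _) hl
    have e2 : ∑ l ∈ Q₁, Rf (2 ^ v * l) ≤ ∑ v ∈ range (V + 1), ∑ l ∈ Q₁, Rf (2 ^ v * l) :=
      Finset.single_le_sum (f := fun v => ∑ l ∈ Q₁, Rf (2 ^ v * l)) (fun _ _ => Nat.zero_le _) hv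
    omega
  have hRs2 : ∀ l ∈ Q₁, l < Rs := by
    intro l hl
    have e1 : l ≤ ∑ l ∈ Q₁, l :=
      Finset.single_le_sum (f := fun l => l) (fun _ _ => Nat.zero_le _) hl
    omega
  have hQ2 : ∀ a : ℕ, ∃ Q : Finset ℕ, a % 2 = 1 → ((∀ l ∈ Q, l.Prime ∧ Rs ≤ l ∧ l % 8 = a % 8) ∧
      ∏ l ∈ Q, (1 - 1 / (l : ℝ)) < ε / 16) := by
    intro a
    by_cases ha : a % 2 = 1
    · obtain ⟨Q, hQ, hQ'⟩ := h1 a ha Rs (ε / 16) hε'
      exact ⟨Q, fun _ => ⟨hQ, hQ'⟩⟩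
    · exact ⟨∅, fun h => absurd h ha⟩
  choose Q₂ hQ₂ using hQ2
  set A : Finset ℕ := {1, 3, 5, 7} with hA
  have hAodd : ∀ a ∈ A, a % 2 = 1 := by
    intro a ha
    rw [hA] at ha
    simp only [Finset.mem_insert, Finset.mem_singleton] at ha
    omega
  set ms : ℕ := ∑ v ∈ range (V + 1), ∑ l ∈ Q₁, ∑ a ∈ A, ∑ r ∈ Q₂ a,
    2 ^ v * l * r * kf (2 ^ v * l) r with hms
  have hms1 : ∀ v ∈ range (V + 1), ∀ l ∈ Q₁, ∀ a ∈ A, ∀ r ∈ Q₂ a,
      2 ^ v * l * r * kf (2 ^ v * l) r ≤ ms := by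
    intro v hv l hl a ha r hr
    have e1 : 2 ^ v * l * r * kf (2 ^ v * l) r ≤ ∑ r ∈ Q₂ a, 2 ^ v * l * r * kf (2 ^ v * l) r :=
      Finset.single_le_sum (f := fun r => 2 ^ v * l * r * kf (2 ^ v * l) r)
        (fun _ _ => Nat.zero_le _) hr
    have e2 : ∑ r ∈ Q₂ a, 2 ^ v * l * r * kf (2 ^ v * l) r ≤
        ∑ a ∈ A, ∑ r ∈ Q₂ a, 2 ^ v * l * r * kf (2 ^ v * l) r :=
      Finset.single_le_sum (f := fun a => ∑ r ∈ Q₂ a, 2 ^ v * l * r * kf (2 ^ v * l) r)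
        (fun _ _ => Nat.zero_le _) ha
    have e3 : ∑ a ∈ A, ∑ r ∈ Q₂ a, 2 ^ v * l * r * kf (2 ^ v * l) r ≤
        ∑ l ∈ Q₁, ∑ a ∈ A, ∑ r ∈ Q₂ a, 2 ^ v * l * r * kf (2 ^ v * l) r :=
      Finset.single_le_sum
        (f := fun l => ∑ a ∈ A, ∑ r ∈ Q₂ a, 2 ^ v * l * r * kf (2 ^ v * l) r)
        (fun _ _ => Nat.zero_le _) hl
    have e4 : ∑ l ∈ Q₁, ∑ a ∈ A, ∑ r ∈ Q₂ a, 2 ^ v * l * r * kf (2 ^ v * l) r ≤ ms :=
      Finset.single_le_sum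
        (f := fun v => ∑ l ∈ Q₁, ∑ a ∈ A, ∑ r ∈ Q₂ a, 2 ^ v * l * r * kf (2 ^ v * l) r)
        (fun _ _ => Nat.zero_le _) hv
    exact e1.trans (e2.trans (e3.trans e4))
  -- the main inclusion
  have key : ∀ m : ℕ, ms ≤ m → ¬ 2 ^ (V + 1) ∣ m → (∃ l ∈ Q₁, l ∣ m) →
      (∀ a ∈ A, ∃ r ∈ Q₂ a, r ∣ m) → m ∈ S := by
    intro m hm hm2 ⟨l, hl, hlm⟩ hr
    have hm0 : m ≠ 0 := by
      rintro rfl
      exact hm2 (dvd_zero _)
    obtain ⟨v, m', hodd, hmm'⟩ := Nat.exists_eq_two_pow_mul_odd hm0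
    have hv : v ∈ range (V + 1) := by
      rw [Finset.mem_range]
      by_contra hcon
      apply hm2
      rw [hmm']
      exact Dvd.dvd.mul_right (pow_dvd_pow 2 (by omega)) _
    obtain ⟨hlp, _, hl8⟩ := hQ₁ l hl
    have hl8' : l % 8 = 1 := by simpa using hl8
    have hodd' : m' % 2 = 1 := Nat.odd_iff.1 hodd
    have hcop : ∀ q : ℕ, q.Prime → q % 8 % 2 = 1 → q ∣ m → q ∣ m' := by
      intro q hq hq2 hqm
      rw [hmm'] at hqm
      have hc : Nat.Coprime q (2 ^ v) := by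
        apply Nat.Coprime.pow_right
        rw [Nat.coprime_two_right, Nat.odd_iff]
        omega
      exact hc.dvd_of_dvd_mul_left hqm
    have hlm' : l ∣ m' := hcop l hlp (by omega) hlm
    have ha : m' % 8 ∈ A := by
      rw [hA]
      simp only [Finset.mem_insert, Finset.mem_singleton]
      omega
    obtain ⟨r, hr2, hrm⟩ := hr _ ha
    obtain ⟨hrp, hrR, hr8⟩ := (hQ₂ _ (hAodd _ ha)).1 r hr2
    rw [Nat.mod_mod] at hr8
    have hrm' : r ∣ m' := hcop r hrp (by omega) hrm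
    have hne : l ≠ r := by
      intro h
      have := hRs2 l hl
      omega
    have hlr : l * r ∣ m' :=
      Nat.Coprime.mul_dvd_of_dvd_of_dvd ((Nat.coprime_primes hlp hrp).2 hne) hlm' hrm'
    obtain ⟨k, hk⟩ := hlr
    have hk8 : k % 8 = 1 := den_mod m' k l r hl8' hr8 hodd' hk
    have hmk : m = 2 ^ v * l * r * k := by
      rw [hmm', hk]
      ring
    have h2l : 2 ≤ 2 ^ v * l := by
      have e1 : 1 ≤ 2 ^ v := Nat.one_le_two_pow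
      have e2 := hlp.two_le
      nlinarith
    rw [hmk]
    apply hkf _ h2l r hrp ((hRs1 v hv l hl).trans hrR) k _ hk8
    by_contra hcon
    push Not at hcon
    have hpos : 0 < 2 ^ v * l * r := by
      have := hlp.pos
      have := hrp.pos
      positivity
    have e1 : 2 ^ v * l * r * k < 2 ^ v * l * r * kf (2 ^ v * l) r :=
      Nat.mul_lt_mul_of_pos_left hcon hpos
    have e2 := hms1 v hv l hl _ ha r hr2
    omega
  -- counting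
  set c : ℝ := ms + 1 + ∏ l ∈ Q₁, (l : ℝ) + ∑ a ∈ A, ∏ r ∈ Q₂ a, (r : ℝ) with hc
  refine ⟨⌈c / (ε / 2)⌉₊, ?_⟩
  intro X hX
  have hXc : c ≤ ε / 2 * X := by
    have e1 : c / (ε / 2) ≤ X := (Nat.le_ceil _).trans (by exact_mod_cast hX)
    rwa [div_le_iff₀ (by positivity), mul_comm] at e1
  have hX0 : (0 : ℝ) ≤ X := Nat.cast_nonneg _
  set B0 : Set ℕ := {m | m < ms}
  set B1 : Set ℕ := {m | m < X ∧ 2 ^ (V + 1) ∣ m}
  set B2 : Set ℕ := {m | m < X ∧ ∀ l ∈ Q₁, ¬ l ∣ m}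
  set B3 : ℕ → Set ℕ := fun a => {m | m < X ∧ ∀ l ∈ Q₂ a, ¬ l ∣ m}
  have hfinX : ∀ P : ℕ → Prop, {m : ℕ | m < X ∧ P m}.Finite := fun P =>
    (Set.finite_lt_nat X).subset fun m hm => hm.1
  have hB0 : B0.ncard ≤ ms := by
    have : B0 = ((range ms : Finset ℕ) : Set ℕ) := by
      ext m
      simp [B0]
    rw [this, Set.ncard_coe_finset, card_range]
  have hB1 : (B1.ncard : ℝ) ≤ ε / 16 * X + 1 := by
    have e1 : B1 ⊆ (((range (X / 2 ^ (V + 1) + 1)).image (fun j => 2 ^ (V + 1) * j) : Finset ℕ) : Set ℕ) := by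
      rintro m ⟨hm, j, hj⟩
      rw [Finset.coe_image, Set.mem_image]
      refine ⟨j, ?_, hj.symm⟩
      rw [Finset.mem_coe, Finset.mem_range, Nat.lt_succ_iff, Nat.le_div_iff_mul_le (by positivity)]
      rw [mul_comm, ← hj]
      exact hm.le
    have e2 : B1.ncard ≤ X / 2 ^ (V + 1) + 1 := by
      refine (Set.ncard_le_ncard e1 (Finset.finite_toSet _)).trans ?_
      rw [Set.ncard_coe_finset]
      exact card_image_le.trans (by rw [card_range])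
    have e3 : ((X / 2 ^ (V + 1) : ℕ) : ℝ) ≤ (X : ℝ) * (1 / 2) ^ (V + 1) := by
      refine (Nat.cast_div_le).trans ?_
      push_cast
      rw [one_div, inv_pow, div_eq_mul_inv]
    have e4 : (X : ℝ) * (1 / 2) ^ (V + 1) ≤ ε / 16 * X := by
      rw [mul_comm]
      apply mul_le_mul_of_nonneg_right _ hX0
      refine le_trans ?_ hV.le
      exact pow_le_pow_of_le_one (by norm_num) (by norm_num) (Nat.le_succ V)
    have e5 : (B1.ncard : ℝ) ≤ ((X / 2 ^ (V + 1) : ℕ) : ℝ) + 1 := by exact_mod_cast e2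
    linarith
  have hB2 : (B2.ncard : ℝ) ≤ ε / 16 * X + ∏ l ∈ Q₁, (l : ℝ) := by
    have e1 := h2 Q₁ (fun l hl => (hQ₁ l hl).1) X
    have e2 : (∏ l ∈ Q₁, (1 - 1 / (l : ℝ))) * X ≤ ε / 16 * X :=
      mul_le_mul_of_nonneg_right hQ₁'.le hX0
    exact e1.trans (by linarith)
  have hB3 : ∀ a ∈ A, ((B3 a).ncard : ℝ) ≤ ε / 16 * X + ∏ r ∈ Q₂ a, (r : ℝ) := by
    intro a ha
    have e0 := hQ₂ a (hAodd a ha)
    have e1 := h2 (Q₂ a) (fun l hl => (e0.1 l hl).1) X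
    have e2 : (∏ l ∈ Q₂ a, (1 - 1 / (l : ℝ))) * X ≤ ε / 16 * X :=
      mul_le_mul_of_nonneg_right e0.2.le hX0
    exact e1.trans (by linarith)
  have hsub : {m : ℕ | m < X ∧ m ∉ S} ⊆ B0 ∪ (B1 ∪ (B2 ∪ ⋃ a ∈ A, B3 a)) := by
    rintro m ⟨hm, hmS⟩
    by_contra hcon
    simp only [Set.mem_union, not_or, Set.mem_iUnion, not_exists] at hcon
    obtain ⟨c0, c1, c2, c3⟩ := hcon
    apply hmS
    refine key m (not_lt.1 c0) (fun h => c1 ⟨hm, h⟩) ?_ ?_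
    · by_contra h
      push Not at h
      exact c2 ⟨hm, h⟩
    · intro a ha
      by_contra h
      push Not at h
      exact c3 a ha ⟨hm, h⟩
  have hfin : (B0 ∪ (B1 ∪ (B2 ∪ ⋃ a ∈ A, B3 a))).Finite := by
    refine Set.Finite.union ?_ (Set.Finite.union (hfinX _) (Set.Finite.union (hfinX _) ?_))
    · exact Set.finite_lt_nat ms
    · exact Set.Finite.biUnion (Finset.finite_toSet A) fun a _ => hfinX _
  have hcard : {m : ℕ | m < X ∧ m ∉ S}.ncard ≤ B0.ncard + (B1.ncard + (B2.ncard + ∑ a ∈ A, (B3 a).ncard)) := by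
    refine (Set.ncard_le_ncard hsub hfin).trans ?_
    refine (Set.ncard_union_le _ _).trans (Nat.add_le_add_left ?_ _)
    refine (Set.ncard_union_le _ _).trans (Nat.add_le_add_left ?_ _)
    refine (Set.ncard_union_le _ _).trans (Nat.add_le_add_left ?_ _)
    exact Finset.set_ncard_biUnion_le A B3
  have hcardR : ((({m : ℕ | m < X ∧ m ∉ S}.ncard : ℕ)) : ℝ) ≤
      B0.ncard + (B1.ncard + (B2.ncard + ∑ a ∈ A, ((B3 a).ncard : ℝ))) := by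
    exact_mod_cast hcard
  have hB0R : (B0.ncard : ℝ) ≤ ms := by exact_mod_cast hB0
  have hB3R : ∑ a ∈ A, ((B3 a).ncard : ℝ) ≤ ∑ a ∈ A, (ε / 16 * X + ∏ r ∈ Q₂ a, (r : ℝ)) :=
    Finset.sum_le_sum hB3
  have hsumA : ∑ a ∈ A, (ε / 16 * X + ∏ r ∈ Q₂ a, (r : ℝ)) =
      4 * (ε / 16 * X) + ∑ a ∈ A, ∏ r ∈ Q₂ a, (r : ℝ) := by
    rw [Finset.sum_add_distrib, Finset.sum_const]
    have : A.card = 4 := by
      rw [hA]
      rfl
    rw [this]
    ring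
  rw [hsumA] at hB3R
  have hpos : 0 ≤ ε * X := by positivity
  rw [hc] at hXc
  linarith

end Pool.Agent.H43X
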