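import Mathlib
import Pool.Agent.N70.PP.Main
import Pool.Agent.N342.EP.Grp1

/-!
The index of the subgroup of the twofold fibre power.
-/

set_option autoImplicit false

namespace Pool.Agent.H43X

open Pool.Agent.H391R2 Pool.Agent.H391R2.T4 Equiv
open Pool.Agent.N342.EP (stabP mem_stabP sgnIndex_of wact)
open Pool.Agent.N70.PP (index_of_sgnIndex)

theorem grpAI (H B : Type) [Group H] [Group B] (a : B →* H) (m n : ℕ) (hm : 0 < m) (hn : 0 < n) :
    ∃ (P : Subgroup (SymEP (symProj a m) n)) (β : P →* B), Function.Surjective β ∧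
      (∀ p : P, a (β p) = symProj (symProj a m) n p) ∧ P.index = n * m := by
  classical
  let L : SymEP a m →* Perm (Fin m) :=
    { toFun := fun w => (w : Wr B m × H).1.right
      map_one' := rfl
      map_mul' := fun _ _ => rfl }
  let i0 : Fin n := ⟨0, hn⟩
  let j0 : Fin m := ⟨0, hm⟩
  let Φ : SymEP (symProj a m) n →* Perm (Fin n × Fin m) :=
    (wact L n).comp ((MonoidHom.fst (Wr (SymEP a m) n) H).comp (SymEP (symProj a m) n).subtype)
  have hΦ : ∀ (x : SymEP (symProj a m) n) i j, Φ x (i, j) =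
      ((x : Wr (SymEP a m) n × H).1.right i,
        L ((x : Wr (SymEP a m) n × H).1.left ((x : Wr (SymEP a m) n × H).1.right i)) j) :=
    fun x i j => rfl
  have htrans : ∀ ω' : Fin n × Fin m, ∃ x, Φ x (i0, j0) = ω' := by
    rintro ⟨i, j⟩
    let w : SymEP a m := ⟨(⟨fun _ => 1, swap j0 j⟩, 1), fun _ => map_one a⟩
    refine ⟨⟨(⟨fun _ => w, swap i0 i⟩, 1), fun _ => rfl⟩, ?_⟩
    rw [hΦ]
    change (swap i0 i i0, swap j0 j j0) = (i, j)
    rw [swap_apply_left, swap_apply_left]
  have hP : ∀ p : stabP Φ (i0, j0),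
      ((p : SymEP (symProj a m) n) : Wr (SymEP a m) n × H).1.right i0 = i0 ∧
      (((p : SymEP (symProj a m) n) : Wr (SymEP a m) n × H).1.left i0 : Wr B m × H).1.right j0
        = j0 := by
    intro p
    have h1 : Φ p (i0, j0) = (i0, j0) := p.2
    rw [hΦ] at h1
    have h2 := congrArg Prod.fst h1
    have h3 := congrArg Prod.snd h1
    simp only at h2 h3
    refine ⟨h2, ?_⟩
    rw [h2] at h3
    exact h3
  let β : stabP Φ (i0, j0) →* B :=
    { toFun := fun p =>
        (((p : SymEP (symProj a m) n) : Wr (SymEP a m) n × H).1.left i0 : Wr B m × H).1.left j0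
      map_one' := rfl
      map_mul' := fun x y => by
        have h1 : (((x : SymEP (symProj a m) n) : Wr (SymEP a m) n × H).1.right)⁻¹ i0 = i0 :=
          (Equiv.symm_apply_eq _).2 (hP x).1.symm
        have h2 : ((((x : SymEP (symProj a m) n) : Wr (SymEP a m) n × H).1.left i0 :
            Wr B m × H).1.right)⁻¹ j0 = j0 :=
          (Equiv.symm_apply_eq _).2 (hP x).2.symm
        show (((((x : SymEP (symProj a m) n) : Wr (SymEP a m) n × H).1 *
          ((y : SymEP (symProj a m) n) : Wr (SymEP a m) n × H).1).left i0 : SymEP a m) :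
            Wr B m × H).1.left j0 = _
        rw [wr_mul_left, h1]
        change ((((x : SymEP (symProj a m) n) : Wr (SymEP a m) n × H).1.left i0 : Wr B m × H).1 *
          (((y : SymEP (symProj a m) n) : Wr (SymEP a m) n × H).1.left i0 : Wr B m × H).1).left j0
            = _
        rw [wr_mul_left, h2] }
  refine ⟨stabP Φ (i0, j0), β, ?_, ?_, ?_⟩
  · intro b
    let w : SymEP a m := ⟨(⟨fun _ => b, 1⟩, a b), fun _ => rfl⟩
    exact ⟨⟨⟨(⟨fun _ => w, 1⟩, a b), fun _ => rfl⟩, rfl⟩, rfl⟩
  · intro p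
    have h1 : symProj a m (((p : SymEP (symProj a m) n) : Wr (SymEP a m) n × H).1.left i0) =
      ((p : SymEP (symProj a m) n) : Wr (SymEP a m) n × H).2 := p.1.2 i0
    have h2 : a ((((p : SymEP (symProj a m) n) : Wr (SymEP a m) n × H).1.left i0 :
      Wr B m × H).1.left j0) = (((p : SymEP (symProj a m) n) : Wr (SymEP a m) n × H).1.left i0 :
      Wr B m × H).2 := (((p : SymEP (symProj a m) n) : Wr (SymEP a m) n × H).1.left i0).2 j0
    exact h2.trans h1
  · exact index_of_sgnIndex (sgnIndex_of Φ (i0, j0) htrans (n * m)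
      (by rw [Fintype.card_prod, Fintype.card_fin, Fintype.card_fin])
      (Perm.sign.comp Φ) (fun _ => rfl))

end Pool.Agent.H43X
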