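import Mathlib
import Pool.Agent.H43X.Alm
import Pool.Agent.H43X.GrpI
import Pool.Agent.N70.PP.VocB
import Pool.Agent.H43W.Alt

/-!
Fibre powers for almost all degrees, all characteristics.
-/

set_option autoImplicit false
set_option linter.unusedSectionVars false
set_option linter.unusedSimpArgs false

namespace Pool.Agent.H43X

open Nfff32c05
open Pool.Agent.N70.PP
open Pool.Agent.H391R2 (Wr isRealizable_of isRealizable_quotient)
open Pool.Agent.H391R2.T4 (RegSol WeakSol HilbField finite_wr SymEP symProj)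
open Pool.Agent.Y793 (AWr AltTw twProj regSol_iso)
open Pool.Agent.TH444.TW (RS RSK RegularOver regSol_of_regularOver)
open Pool.Agent.TH377.IG (SpecProp FP prFP)
open Pool.Agent.N600.ZQ (ReducesP SameP reducesP_of)
open Pool.Agent.N70.EP (twTrans ker_symm_comp)
open Pool.Agent.N70.EP.Voc
open Pool.Agent.N70.PP.Voc
open VocD (Bound Degrees)

/-- The number of exceptions among the multiples of `c`. -/
theorem toEP {c : ℕ} {P : ℕ → Prop} (hc : 0 < c) (h : VocD.AlmostAllMultiples c P) :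
    AlmostAllMultiples c P := by
  classical
  intro ε hε
  have h1 := (Metric.tendsto_atTop.1 h) ε hε
  obtain ⟨N, hN⟩ := h1
  refine ⟨N + 1, fun x hx => ?_⟩
  have hx0 : (0 : ℝ) < x := by
    have : 0 < x := by omega
    exact_mod_cast this
  have h2 := hN x (by omega)
  rw [Real.dist_eq, sub_zero, abs_of_nonneg (by positivity), div_lt_iff₀ hx0] at h2
  refine le_trans ?_ h2.le
  have h3 : ((Finset.range x).filter fun n => c ∣ n ∧ ¬ P n).card ≤
      {m : ℕ | m < x ∧ ¬ P (c * m)}.ncard := by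
    have hfin : {m : ℕ | m < x ∧ ¬ P (c * m)}.Finite :=
      (Set.finite_Iio x).subset fun m hm => hm.1
    rw [← Set.ncard_coe_finset]
    refine Set.ncard_le_ncard_of_injOn (fun n => n / c) ?_ ?_ hfin
    · intro n hn
      rw [Finset.mem_coe, Finset.mem_filter, Finset.mem_range] at hn
      obtain ⟨hn1, ⟨m, rfl⟩, hn3⟩ := hn
      refine ⟨?_, ?_⟩
      · change c * m / c < x
        rw [Nat.mul_div_cancel_left m hc]
        exact lt_of_le_of_lt (Nat.le_mul_of_pos_left m hc) hn1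
      · change ¬ P (c * (c * m / c))
        rw [Nat.mul_div_cancel_left m hc]
        exact hn3
    · intro n hn n' hn' hnn
      rw [Finset.mem_coe, Finset.mem_filter] at hn hn'
      obtain ⟨-, ⟨m, rfl⟩, -⟩ := hn
      obtain ⟨-, ⟨m', rfl⟩, -⟩ := hn'
      change c * m / c = c * m' / c at hnn
      rw [Nat.mul_div_cancel_left m hc, Nat.mul_div_cancel_left m' hc] at hnn
      rw [hnn]
  exact_mod_cast h3

/-- The split case, uniformly in the fields. -/
theorem mBuE (hG : S_GRB) (p : ℕ) [Fact p.Prime] (H B : Type) [Group H]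
    [Finite H] [Group B] [Finite B] (a : B →* H) (s : H →* B) (hs : ∀ h, a (s h) = h)
    (hperf : commutator a.ker = ⊤) (b r : ℕ) (hb : Even b) (hb4 : 4 ≤ b) (hr : Odd r)
    (hr2 : bdE (Nat.card a.ker) b ≤ r) :
    ∃ n₀ : ℕ, ∀ n ≥ n₀, DegE p (b * r) n → ∀ χ : H →* ℤˣ, RSK (ZMod p) (twProj a χ n) := by
  obtain ⟨K₀, L₀, i1, i2, i3, i4, i5, i6, i7, e₀, h⟩ := transferP hyp p H
  have hk := ker_symm_comp e₀ a
  have ha : Function.Surjective a := fun h => ⟨s h, hs h⟩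
  obtain ⟨n₀, hn₀⟩ := mainE hG p K₀ L₀ B ((e₀.symm : H →* (L₀ ≃ₐ[K₀] L₀)).comp a)
    (e₀.symm.surjective.comp ha) (by rw [hk]; exact hperf)
    (weak_of_split K₀ L₀ B _ (s.comp (e₀ : (L₀ ≃ₐ[K₀] L₀) →* H)) (fun ρ => by
      change e₀.symm (a (s (e₀ ρ))) = ρ
      rw [hs, e₀.symm_apply_apply])) b r hb hb4 hr (by rw [hk]; exact hr2)
  exact ⟨n₀, fun n hn hd χ => rsk_twP p a χ _ e₀ h (hn₀ n hn hd _)⟩

theorem fibP_mainE (hG : S_GRB) (p : ℕ) [Fact p.Prime] (B W : Type) [Group B] [Finite B]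
    [Group W] [Finite W] (α : B →* W) (hperf : commutator α.ker = ⊤) (b r : ℕ) (hb : Even b)
    (hb4 : 4 ≤ b) (hr : Odd r) (hr2 : bdE (Nat.card α.ker) b ≤ r) :
    ∃ n₀ : ℕ, ∀ n ≥ n₀, DegE p (b * r) n → FibP p α n := by
  have h1 : ∀ D : Subgroup B, ∃ n₀ : ℕ, ∀ n ≥ n₀, DegE p (b * r) n → ∀ χ : D →* ℤˣ,
      RSK (ZMod p) (twProj (prFP α (aD α D)) χ n) := by
    intro D
    obtain ⟨e⟩ := kerD α D
    have hfD : Finite D := inferInstance
    have hfF : Finite (FP α (aD α D)) := inferInstance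
    refine mBuE hG p D (FP α (aD α D)) (prFP α (aD α D))
      { toFun := fun d => ⟨((d : B), d), rfl⟩
        map_one' := rfl
        map_mul' := fun _ _ => rfl } (fun d => rfl) (Y793.perf_congr e hperf) b r hb hb4 hr ?_
    rw [← Nat.card_congr e.toEquiv]
    exact hr2
  choose κ hκ using h1
  have hfS : Finite (Subgroup B) := inferInstance
  obtain ⟨k₀, hk₀⟩ : ∃ k₀, ∀ D, κ D ≤ k₀ := by
    obtain ⟨k₀, hk₀⟩ := (Set.finite_range κ).bddAbove
    exact ⟨k₀, fun D => hk₀ ⟨D, rfl⟩⟩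
  exact ⟨k₀, fun n hn hd χ D _ => hκ D n ((hk₀ D).trans hn) hd _⟩

/-- From `FibP` to the statements in the vocabulary of the results. -/
theorem second_of {p : ℕ} [Fact p.Prime] {B W : Type} [Group B] [Finite B] [Group W] [Finite W]
    {α : B →* W} (hα : Function.Surjective α) {n : ℕ} (hF : FibP p α n) (hn2 : 2 ≤ n)
    (χ : W →* ℤˣ) :
      (∀ D : Subgroup B, (∀ w : W, ∃ d ∈ D, α d = w) → OccursIf p (TwPow α χ n) D) ∧
      (∀ (K L : Type) [Field K] [CharP K p] [Field L] [Algebra K L] [FiniteDimensional K L]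
        [IsGalois K L] (ε : (L ≃ₐ[K] L) ≃* W),
        WeakSolutionOver (ε.symm.toMonoidHom.comp α) K →
        Solvable (ε.symm.toMonoidHom.comp (twPr α χ n))) ∧
      ((∃ s : W →* B, ∀ w, α (s w) = w) →
        OccursIff p (TwPow α χ n) W ∧ SolvableAll p (twPr α χ n)) := by
  have hf : Finite (Wr B n) := finite_wr B n
  have hf2 : Finite (TwPow α χ n) := Finite.of_injective Subtype.val Subtype.val_injective
  have hf3 : Finite (AltTw α χ n) := inferInstance
  have hredE : ReducesP p (AltTw α χ n) (TwPow α χ n) :=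
    reducesP_quot (twE α χ n).symm.toMonoidHom (twE α χ n).symm.surjective
  have h1 : ∀ D : Subgroup B, (∀ w : W, ∃ d ∈ D, α d = w) → ReducesP p D (TwPow α χ n) := by
    intro D hD
    have h2 := hF.red χ D (fun w => by
      obtain ⟨d, hd, hw⟩ := hD w
      exact ⟨⟨d, hd⟩, hw⟩)
    exact ⟨fun κ _ _ _ h => hredE.1 κ (h2.1 κ h), fun K _ _ hK h => hredE.2.1 K hK (h2.2.1 K hK h),
      fun K _ _ h => hredE.2.2 K (h2.2.2 K h)⟩
  have h2 : ∀ (K L : Type) [Field K] [CharP K p] [Field L] [Algebra K L] [FiniteDimensional K L]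
        [IsGalois K L] (ε : (L ≃ₐ[K] L) ≃* W),
        WeakSol K L B (ε.symm.toMonoidHom.comp α) →
        Solvable (ε.symm.toMonoidHom.comp (twPr α χ n)) := by
    intro K L _ _ _ _ _ _ ε hw
    have h3 := hF.weak χ K L ε hw
    exact solvable_of_regSol (regSol_iso K L _ _ _ _ (twE α χ n).symm (fun z => rfl) h3)
  refine ⟨fun D hD => occursIf_of (h1 D hD), fun K L _ _ _ _ _ _ ε hw =>
    h2 K L ε (weak_of_over _ hw), ?_⟩
  rintro ⟨s, hs⟩
  constructor
  · apply occursIff_of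
    refine sameP_of (reducesP_quot (twPr α χ n) (twPr_surj' α χ n hα hn2)) ?_
    have h3 : ReducesP p W s.range := reducesP_quot s.rangeRestrict
      (MonoidHom.rangeRestrict_surjective s)
    have h4 := h1 s.range (fun w => ⟨s w, ⟨w, rfl⟩, hs w⟩)
    exact ⟨fun κ _ _ _ h => h4.1 κ (h3.1 κ h), fun K _ _ hK h => h4.2.1 K hK (h3.2.1 K hK h),
      fun K _ _ h => h4.2.2 K (h3.2.2 K h)⟩
  · intro K L _ _ _ _ _ _ ε
    refine h2 K L ε ?_
    refine weak_of_split K L B _ (s.comp (ε : (L ≃ₐ[K] L) →* W)) (fun ρ => ?_)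
    change ε.symm (α (s (ε ρ))) = ρ
    rw [hs, ε.symm_apply_apply]

/-- No weak solution, trivial character. -/
theorem mainAE (p : ℕ) [Fact p.Prime] (K L : Type) [Field K] [CharP K p] [Infinite K] [Field L]
    [Algebra K L] [FiniteDimensional K L] [IsGalois K L] (B : Type) [Group B] [Finite B]
    (a : B →* (L ≃ₐ[K] L)) (ha : Function.Surjective a) (hperf : commutator a.ker = ⊤) :
    ∃ k₀ : ℕ, ∀ k ≥ k₀, ∃ n₀ : ℕ, ∀ n ≥ n₀, 4 * p * Nat.card (L ≃ₐ[K] L) * k ∣ n →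
      RegSol K L (AltTw a 1 n) (twProj a 1 n) := by
  have hh : Pieces := hyp.toPieces
  have hp0 : 0 < p := (Fact.out : p.Prime).pos
  obtain ⟨m, hm⟩ : ∃ m, m = Nat.card (L ≃ₐ[K] L) := ⟨_, rfl⟩
  refine ⟨((3 * Nat.card (symProj a m).ker + 2).factorial) ^ 3, fun k hk => ?_⟩
  have hm0 : 0 < m := by
    rw [hm]
    exact Nat.card_pos
  have hk0 : 0 < k := lt_of_lt_of_le (by positivity) hk
  obtain ⟨Z, i1, i2, i3, i4, i5, i6, i7, i8, γ, hγ, hreg⟩ :=
    Pool.Agent.N600.NS.reg_twofold K L B a ha m (by rw [hm]) k hk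
  obtain ⟨P, β, hβ, hβ2, hidx⟩ := grpAI (L ≃ₐ[K] L) B a m k hm0 hk0
  let P' := P.comap (γ : (Z ≃ₐ[RatFunc K] Z) →* SymEP (symProj a m) k)
  have hmap : P'.map (γ : (Z ≃ₐ[RatFunc K] Z) →* SymEP (symProj a m) k) = P :=
    Subgroup.map_comap_eq_self_of_surjective γ.surjective P
  let e : P' ≃* P := (γ.subgroupMap P').trans (MulEquiv.subgroupCongr hmap)
  have hidx' : P'.index = k * m := by
    rw [← hidx]
    exact Subgroup.index_comap_of_surjective P γ.surjective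
  rw [← hm]
  by_cases hp2 : p = 2
  · subst hp2
    obtain ⟨n₁, h₁⟩ := Pool.Agent.XE31.AD.oneAtwo hh Pool.Agent.XE31.AD.t_mt3
      Pool.Agent.XE31.AD.t_EXT ((symProj (symProj a m) k).comp
      (γ : (Z ≃ₐ[RatFunc K] Z) →* SymEP (symProj a m) k)) hγ hreg P' (β.comp (e : P' →* P))
      (hβ.comp e.surjective) a ha (fun u => hβ2 (e u)) hperf
    refine ⟨n₁, fun n hn hd => h₁ n hn ?_⟩
    rw [hidx']
    have e1 : 8 * (k * m) = 4 * 2 * m * k := by ring
    rw [e1]
    exact hd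
  · obtain ⟨n₁, h₁⟩ := Pool.Agent.XE31.AD.oneAodd p hp2 hh Pool.Agent.XE31.AD.t_mt3
      ((symProj (symProj a m) k).comp
      (γ : (Z ≃ₐ[RatFunc K] Z) →* SymEP (symProj a m) k)) hγ hreg P' (β.comp (e : P' →* P))
      (hβ.comp e.surjective) a ha (fun u => hβ2 (e u)) hperf
    refine ⟨n₁, fun n hn hd => h₁ n hn ?_⟩
    rw [hidx']
    have e1 : 4 * (k * m) * p = 4 * p * m * k := by ring
    rw [e1]
    exact hd

/-- The general case, uniformly in the fields. -/
theorem mAuE (p : ℕ) [Fact p.Prime] (H B : Type) [Group H] [Finite H] [Group B] [Finite B]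
    (a : B →* H) (ha : Function.Surjective a) (hperf : commutator a.ker = ⊤) :
    ∃ k₀ : ℕ, ∀ k ≥ k₀, ∃ n₀ : ℕ, ∀ n ≥ n₀, 4 * p * Nat.card H * k ∣ n →
      RSK (ZMod p) (twProj a 1 n) := by
  obtain ⟨K₀, L₀, i1, i2, i3, i4, i5, i6, i7, e₀, h⟩ := transferP hyp p H
  have hk := ker_symm_comp e₀ a
  obtain ⟨k₀, hk₀⟩ := mainAE p K₀ L₀ B ((e₀.symm : H →* (L₀ ≃ₐ[K₀] L₀)).comp a)
    (e₀.symm.surjective.comp ha) (by rw [hk]; exact hperf)
  refine ⟨k₀, fun k hk' => ?_⟩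
  obtain ⟨n₀, hn₀⟩ := hk₀ k hk'
  refine ⟨n₀, fun n hn hd => rsk_twP p a 1 _ e₀ h ?_⟩
  rw [MonoidHom.one_comp]
  refine hn₀ n hn ?_
  rw [Nat.card_congr e₀.toEquiv]
  exact hd

section final

variable (hG : S_GRB) (hDE : S_DEN) (p : ℕ) [Fact p.Prime] {B W : Type} [Group B] [Finite B]
  [Group W] [Finite W] (α : B →* W) (hα : Function.Surjective α) (hperf : commutator α.ker = ⊤)

/-- The first theorem. -/
theorem first_of (hα : Function.Surjective α) {n : ℕ} (hn : 2 ≤ n)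
    (h : RSK (ZMod p) (twProj α 1 n)) :
    OccursIff p (TwPow α 1 n) W ∧ SolvableAll p (twPr α 1 n) := by
  have hf : Finite (Wr B n) := finite_wr B n
  have hf2 : Finite (TwPow α 1 n) := Finite.of_injective Subtype.val Subtype.val_injective
  have h1 : RSK (ZMod p) (twPr α 1 n) := RSK.congr h (twE α 1 n).symm (fun _ => rfl)
  exact ⟨occursIff_of (sameP_of_rsk (twPr α 1 n) (twPr_surj' α 1 n hα hn) h1), solvableAll_of h1⟩

include hα hperf

theorem genA : ∃ k₀ : ℕ, ∀ k ≥ k₀, ∃ n₀ : ℕ, ∀ n ≥ n₀, 4 * p * Nat.card W * k ∣ n →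
    OccursIff p (TwPow α 1 n) W ∧ SolvableAll p (twPr α 1 n) := by
  obtain ⟨k₀, h⟩ := mAuE p W B α hα hperf
  refine ⟨k₀, fun k hk => ?_⟩
  obtain ⟨n₀, hn₀⟩ := h k hk
  exact ⟨n₀ + 2, fun n hn hd => first_of p α hα (by omega) (hn₀ n (by omega) hd)⟩

include hDE

theorem genA_almost : AlmostAllMultiples (4 * p * Nat.card W)
    (fun n => OccursIff p (TwPow α 1 n) W ∧ SolvableAll p (twPr α 1 n)) := by
  obtain ⟨k₀, h⟩ := genA p α hα hperf
  have hp0 : 0 < p := (Fact.out : p.Prime).pos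
  have hc : 0 < 4 * p * Nat.card W := Nat.mul_pos (by omega) Nat.card_pos
  exact toEP hc (almostA hDE _ hc _ k₀ h)

end final

theorem genB (hG : S_GRB) (p : ℕ) [Fact p.Prime] {B W : Type} [Group B] [Finite B]
    [Group W] [Finite W] (α : B →* W) (hα : Function.Surjective α)
    (hperf : commutator α.ker = ⊤) (b r : ℕ) (hb : Even b) (hb4 : 4 ≤ b) (hr : Odd r)
    (hr2 : Bound (Nat.card α.ker) b ≤ r) :
    ∃ n₀ : ℕ, ∀ n ≥ n₀, DegE p (b * r) n → ∀ χ : W →* ℤˣ,
      (∀ D : Subgroup B, (∀ w : W, ∃ d ∈ D, α d = w) → OccursIf p (TwPow α χ n) D) ∧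
      (∀ (K L : Type) [Field K] [CharP K p] [Field L] [Algebra K L] [FiniteDimensional K L]
        [IsGalois K L] (ε : (L ≃ₐ[K] L) ≃* W),
        WeakSolutionOver (ε.symm.toMonoidHom.comp α) K →
        Solvable (ε.symm.toMonoidHom.comp (twPr α χ n))) ∧
      ((∃ s : W →* B, ∀ w, α (s w) = w) →
        OccursIff p (TwPow α χ n) W ∧ SolvableAll p (twPr α χ n)) := by
  obtain ⟨n₀, hn₀⟩ := fibP_mainE hG p B W α hperf b r hb hb4 hr hr2
  exact ⟨n₀ + 2, fun n hn hd χ => second_of hα (hn₀ n (by omega) hd) (by omega) χ⟩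

theorem genB_almost (hG : S_GRB) (hDE : S_DEN) (p : ℕ) [Fact p.Prime] {B W : Type} [Group B]
    [Finite B] [Group W] [Finite W] (α : B →* W) (hα : Function.Surjective α)
    (hperf : commutator α.ker = ⊤) :
    AlmostAllMultiples (Nat.lcm 2 p) (fun n => ∀ χ : W →* ℤˣ,
      (∀ D : Subgroup B, (∀ w : W, ∃ d ∈ D, α d = w) → OccursIf p (TwPow α χ n) D) ∧
      (∀ (K L : Type) [Field K] [CharP K p] [Field L] [Algebra K L] [FiniteDimensional K L]
        [IsGalois K L] (ε : (L ≃ₐ[K] L) ≃* W),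
        WeakSolutionOver (ε.symm.toMonoidHom.comp α) K →
        Solvable (ε.symm.toMonoidHom.comp (twPr α χ n))) ∧
      ((∃ s : W →* B, ∀ w, α (s w) = w) →
        OccursIff p (TwPow α χ n) W ∧ SolvableAll p (twPr α χ n))) :=
  toEP (Nat.lcm_pos two_pos (Fact.out : p.Prime).pos)
    (almost hDE p _ (Bound (Nat.card α.ker)) fun b r hb hb4 hr hr2 =>
      genB hG p α hα hperf b r hb hb4 hr hr2)

/-- `G ≀ A_n` from the fibre powers over the trivial group. -/
theorem occursAll_altP {p : ℕ} {G : Type} [Group G] {n : ℕ}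
    (h : OccursIff p (TwPow (1 : G →* Unit) 1 n) Unit) : OccursAll p (AltWreath G n) := by
  have h1 : OccursAll p Unit := Pool.Agent.H43W.occursAll_one p Unit
  exact Pool.Agent.H43W.occursAll_congr ⟨fun k _ _ => (h.1 k).2 (h1.1 k),
    fun K _ _ hK => (h.2.1 K hK).2 (h1.2.1 K hK), fun K _ _ => (h.2.2 K).2 (h1.2.2 K)⟩
    (Pool.Agent.H43W.twUnit G n)

theorem card_ker_one (G : Type) [Group G] : Nat.card (1 : G →* Unit).ker = Nat.card G :=
  Nat.card_congr
    { toFun := fun g => g.1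
      invFun := fun g => ⟨g, rfl⟩
      left_inv := fun _ => rfl
      right_inv := fun _ => rfl }

theorem genG (hG : S_GRB) (p : ℕ) [Fact p.Prime] (G : Type) [Group G] [Finite G]
    (hperf : commutator G = ⊤) (b r : ℕ) (hb : Even b) (hb4 : 4 ≤ b) (hr : Odd r)
    (hr2 : Bound (Nat.card G) b ≤ r) :
    ∃ n₀ : ℕ, ∀ n ≥ n₀, DegE p (b * r) n → OccursAll p (AltWreath G n) := by
  obtain ⟨n₀, hn₀⟩ := genB hG p (1 : G →* Unit) (fun _ => ⟨1, rfl⟩)
    (Pool.Agent.H43W.commutator_ker_one hperf) b r hb hb4 hr (by rw [card_ker_one]; exact hr2)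
  exact ⟨n₀, fun n hn hd => occursAll_altP ((hn₀ n hn hd 1).2.2 ⟨1, fun _ => rfl⟩).1⟩

theorem genG_almost (hG : S_GRB) (hDE : S_DEN) (p : ℕ) [Fact p.Prime] (G : Type) [Group G]
    [Finite G] (hperf : commutator G = ⊤) :
    AlmostAllMultiples (Nat.lcm 2 p) (fun n => OccursAll p (AltWreath G n)) :=
  toEP (Nat.lcm_pos two_pos (Fact.out : p.Prime).pos)
    (almost hDE p _ (Bound (Nat.card G)) fun b r hb hb4 hr hr2 =>
      genG hG p G hperf b r hb hb4 hr hr2)

end Pool.Agent.H43X
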