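import Pool.Agent.H43X.DStm
import Pool.Agent.N342.EP.Grp1

/-!
# Project AD2, piece GRB
-/

set_option autoImplicit false

namespace Pool.Agent.H43X

open Pool.Agent.H391R2 Pool.Agent.H391R2.T4 Equiv
open Pool.Agent.N70.EP (SgnIndex)
open Pool.Agent.N342.EP (wact sign_wact stabP mem_stabP sgnIndex_of)

/-- a permutation of sign `u` with a prescribed value -/
theorem GRBx.exists_perm {b : ℕ} (hb : 4 ≤ b) (u : ℤˣ) (i j : Fin b) :
    ∃ τ : Perm (Fin b), Perm.sign τ = u ∧ τ i = j := by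
  -- two further points
  obtain ⟨c, hci, hcj⟩ : ∃ c : Fin b, c ≠ i ∧ c ≠ j := by
    by_contra hcon
    push Not at hcon
    have h1 : (Finset.univ : Finset (Fin b)) ⊆ {i, j} := by
      intro c _
      by_cases h : c = i
      · rw [h]; exact Finset.mem_insert_self _ _
      · exact Finset.mem_insert_of_mem (Finset.mem_singleton.2 (hcon c h))
    have h2 := Finset.card_le_card h1
    have h3 : ({i, j} : Finset (Fin b)).card ≤ 2 := Finset.card_le_two
    rw [Finset.card_univ, Fintype.card_fin] at h2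
    omega
  obtain ⟨d, hdi, hdj, hdc⟩ : ∃ d : Fin b, d ≠ i ∧ d ≠ j ∧ d ≠ c := by
    by_contra hcon
    push Not at hcon
    have h1 : (Finset.univ : Finset (Fin b)) ⊆ {i, j, c} := by
      intro d _
      by_cases h : d = i
      · rw [h]; exact Finset.mem_insert_self _ _
      · by_cases h' : d = j
        · rw [h']
          exact Finset.mem_insert_of_mem (Finset.mem_insert_self _ _)
        · exact Finset.mem_insert_of_mem (Finset.mem_insert_of_mem
            (Finset.mem_singleton.2 (hcon d h h')))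
    have h2 := Finset.card_le_card h1
    have h3 : ({i, j, c} : Finset (Fin b)).card ≤ 3 := Finset.card_le_three
    rw [Finset.card_univ, Fintype.card_fin] at h2
    omega
  have key : ∀ τ : Perm (Fin b), τ i = j → ∃ τ' : Perm (Fin b), Perm.sign τ' = u ∧ τ' i = j := by
    intro τ hτ
    by_cases h : Perm.sign τ = u
    · exact ⟨τ, h, hτ⟩
    · refine ⟨τ * swap c d, ?_, ?_⟩
      · rw [Perm.sign_mul, Perm.sign_swap (Ne.symm hdc)]
        rcases Int.units_eq_one_or (Perm.sign τ) with h1 | h1 <;>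
          rcases Int.units_eq_one_or u with h2 | h2
        · exact absurd (h1.trans h2.symm) h
        · rw [h1, h2]; decide
        · rw [h1, h2]; decide
        · exact absurd (h1.trans h2.symm) h
      · rw [Perm.mul_apply, swap_apply_of_ne_of_ne (Ne.symm hci) (Ne.symm hdi)]
        exact hτ
  exact key (swap i j) (swap_apply_left i j)

theorem t_GRB : S_GRB := by
  classical
  intro H B _ _ _ _ a ha χ b r hb hb4 hr
  let L : Fb a χ b →* Perm (Fin b) := (MonoidHom.snd B (Perm (Fin b))).comp (Fb a χ b).subtype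
  have hL : ∀ z : Fb a χ b, L z = (z : B × Perm (Fin b)).2 := fun _ => rfl
  have hLs : ∀ z : Fb a χ b, Perm.sign (L z) = χ (fb a χ b z) := fun z => z.2
  have hr0 : 0 < r := hr.pos
  let i0 : Fin r := ⟨0, hr0⟩
  let s0 : Fin b := ⟨0, by omega⟩
  let Φ : SymEP (fb a χ b) r →* Perm (Fin r × Fin b) :=
    (wact L r).comp ((MonoidHom.fst (Wr (Fb a χ b) r) H).comp (SymEP (fb a χ b) r).subtype)
  have hΦ : ∀ (x : SymEP (fb a χ b) r) i s, Φ x (i, s) =
      ((x : Wr (Fb a χ b) r × H).1.right i,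
        L ((x : Wr (Fb a χ b) r × H).1.left
          ((x : Wr (Fb a χ b) r × H).1.right i)) s) := fun x i s => rfl
  have hmem : ∀ (x : SymEP (fb a χ b) r) i, fb a χ b ((x : Wr (Fb a χ b) r × H).1.left i) =
      (x : Wr (Fb a χ b) r × H).2 := fun x i => x.2 i
  have hsign : ∀ x : SymEP (fb a χ b) r,
      Perm.sign (Φ x) = (χ.comp (symProj (fb a χ b) r)) x := by
    intro x
    show Perm.sign (wact L r (x : Wr (Fb a χ b) r × H).1) = χ (x : Wr (Fb a χ b) r × H).2
    rw [sign_wact L r _ (by rw [Fintype.card_fin]; exact hb)]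
    have h1 : ∀ i, Perm.sign (L ((x : Wr (Fb a χ b) r × H).1.left i)) =
        χ (x : Wr (Fb a χ b) r × H).2 := by
      intro i
      rw [hLs, hmem]
    rw [Finset.prod_congr rfl fun i _ => h1 i, Finset.prod_const, Finset.card_univ,
      Fintype.card_fin]
    obtain ⟨k, rfl⟩ := hr
    rw [pow_succ, pow_mul, Int.units_sq, one_pow, one_mul]
  have htrans : ∀ ω' : Fin r × Fin b, ∃ x, Φ x (i0, s0) = ω' := by
    rintro ⟨j, s⟩
    obtain ⟨τ, hτs, hτ⟩ := GRBx.exists_perm hb4 1 s0 s
    have hz : ((1 : B), τ) ∈ Fb a χ b := by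
      show Perm.sign τ = χ (a 1)
      rw [hτs, map_one, map_one]
    refine ⟨⟨(⟨fun _ => ⟨(1, τ), hz⟩, swap i0 j⟩, 1), fun i => ?_⟩, ?_⟩
    · show a 1 = 1
      exact map_one a
    · rw [hΦ]
      show (swap i0 j i0, L ⟨(1, τ), hz⟩ s0) = (j, s)
      rw [swap_apply_left, hL]
      exact Prod.ext rfl hτ
  have hP : ∀ p : stabP Φ (i0, s0),
      ((p : SymEP (fb a χ b) r) : Wr (Fb a χ b) r × H).1.right i0 = i0 := by
    intro p
    have h1 : Φ p (i0, s0) = (i0, s0) := p.2
    rw [hΦ] at h1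
    exact congrArg Prod.fst h1
  let β : stabP Φ (i0, s0) →* B :=
    { toFun := fun p => (((((p : SymEP (fb a χ b) r) : Wr (Fb a χ b) r × H).1.left i0 :
        Fb a χ b) : B × Perm (Fin b))).1
      map_one' := rfl
      map_mul' := fun x y => by
        have h1 : (((x : SymEP (fb a χ b) r) : Wr (Fb a χ b) r × H).1.right)⁻¹ i0 = i0 :=
          (Equiv.symm_apply_eq _).2 (hP x).symm
        show (((((x : SymEP (fb a χ b) r) : Wr (Fb a χ b) r × H).1 *
          ((y : SymEP (fb a χ b) r) : Wr (Fb a χ b) r × H).1).left i0 : Fb a χ b) :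
            B × Perm (Fin b)).1 = _
        rw [wr_mul_left, h1]
        rfl }
  refine ⟨stabP Φ (i0, s0), β, ?_, ?_, ?_⟩
  · intro x
    obtain ⟨τ, hτs, hτ⟩ := GRBx.exists_perm hb4 (χ (a x)) s0 s0
    have hz : (x, τ) ∈ Fb a χ b := hτs
    refine ⟨⟨⟨(⟨fun _ => ⟨(x, τ), hz⟩, 1⟩, a x), fun i => rfl⟩, ?_⟩, rfl⟩
    rw [mem_stabP, hΦ]
    show ((1 : Perm (Fin r)) i0, L ⟨(x, τ), hz⟩ s0) = (i0, s0)
    rw [hL]
    exact Prod.ext rfl hτ
  · intro p
    exact hmem p i0
  · refine sgnIndex_of Φ (i0, s0) htrans (b * r) ?_ _ hsign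
    rw [Fintype.card_prod, Fintype.card_fin, Fintype.card_fin, mul_comm]

end Pool.Agent.H43X
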