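import Mathlib
import Pool.Agent.H43X.FibD
import Pool.Agent.H43X.GRB
import Pool.Agent.H43X.DEN
import Pool.Agent.H43X.CNT
import Pool.Agent.H43X.APSx

/-!
All pieces.
-/

set_option autoImplicit false

namespace Pool.Agent.H43X

theorem den : S_DEN := t_DEN t_APSx t_CNT

end Pool.Agent.H43X
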