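import Mathlib
import Pool.Agent.Y793.Stm
import Pool.Agent.H17Z.Fin

/-!
# Vocabulary: steps over the affine line

`Pool.Agent.H17Z.pE p E` is the subgroup of `E` generated by the elements of `p`-power order, and
`Pool.Agent.H17Z.Hyp p E N` says that `N` has a series of normal subgroups of `E` whose factors are
`p`-groups, or of order prime to `p` and centralised by `pE p E`.
-/

set_option autoImplicit false

namespace Pool.Agent.H43X.VocL

open Pool.Agent.H17Z (pE Hyp)

/-- The alternating wreath product `G ≀ A_n`: the subgroup of `G ≀ S_n = G ^ n ⋊ S_n` of the elements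
over even permutations. -/
def AltWreath (G : Type) [Group G] (n : ℕ) : Type := Pool.Agent.Y793.AWr G n

instance instGroupAltWreath (G : Type) [Group G] (n : ℕ) : Group (AltWreath G n) :=
  (inferInstance : Group (Pool.Agent.Y793.AWr G n))

/-- The class of steps, depending on a set `A G` of natural numbers for every group `G`: the smallest
class of homomorphisms of groups which
* contains the projection `(G ≀ A_n) ^ I ⋊ W → W` for every finite perfect group `G`, every `n` in
  `A G`, every group `W` and every finite set `I` with an action of `W`,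
* contains every surjection `E → W`, `E` a finite group with `E / p(E)` cyclic, whose kernel has a
  series of normal subgroups of `E` whose factors are `p`-groups, or of order prime to `p` and
  centralised by `p(E)`,
* contains all isomorphisms, is closed under composition, and under quotients (if `f ∘ g` is in the
  class and `g` is surjective, then `f` is in the class). -/
inductive StepL (p : ℕ) (A : ∀ (G : Type) [Group G], Set ℕ) :
    ∀ {W E : Type} [Group W] [Group E], (E →* W) → Prop
  | wreath {W : Type} [Group W] (I : Type) [Finite I] [MulAction W I] (G : Type) [Group G]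
      [Finite G] (hG : commutator G = ⊤) (n : ℕ) (hn : n ∈ A G) :
      StepL p A (SemidirectProduct.rightHom : ((I → AltWreath G n) ⋊[mulAutArrow] W) →* W)
  | series {W E : Type} [Group W] [Group E] [Finite E] (f : E →* W) (hf : Function.Surjective f)
      (hc : IsCyclic (E ⧸ pE p E)) (hH : Hyp p E f.ker) : StepL p A f
  | iso {W E : Type} [Group W] [Group E] (e : E ≃* W) : StepL p A e.toMonoidHom
  | comp {W W' W'' : Type} [Group W] [Group W'] [Group W''] (f : W' →* W) (g : W'' →* W')
      (hf : StepL p A f) (hg : StepL p A g) : StepL p A (f.comp g)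
  | quot {W W' W'' : Type} [Group W] [Group W'] [Group W''] (f : W' →* W) (g : W'' →* W')
      (hg : Function.Surjective g) (hfg : StepL p A (f.comp g)) : StepL p A f

/-! ### Extensions of `κ(X)` unramified over the affine line -/

open Polynomial

/-- The Galois group of `L` over `κ(X)`. -/
def GalX (κ L : Type) [Field κ] [Field L] [Algebra (RatFunc κ) L] : Type := L ≃ₐ[RatFunc κ] L

noncomputable instance instGroupGalX (κ L : Type) [Field κ] [Field L] [Algebra (RatFunc κ) L] :
    Group (GalX κ L) := (inferInstance : Group (L ≃ₐ[RatFunc κ] L))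

/-- The action of an element of the Galois group on an element of the field. -/
noncomputable def GalX.act {κ L : Type} [Field κ] [Field L] [Algebra (RatFunc κ) L]
    (σ : GalX κ L) (a : L) : L :=
  (show L ≃ₐ[RatFunc κ] L from σ) a

/-- An extension of `κ(X)` as a `κ[X]`-algebra. -/
@[reducible] noncomputable def polyAlgebra (κ L : Type) [Field κ] [Field L]
    [Algebra (RatFunc κ) L] : Algebra κ[X] L :=
  ((algebraMap (RatFunc κ) L).comp (algebraMap κ[X] (RatFunc κ))).toAlgebra

/-- The field `L`, a `κ[X]`-algebra, is unramified over `κ[X]`: every prime ideal of the integral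
closure of `κ[X]` in `L` is unramified over `κ[X]`. -/
def UnramifiedOver (κ L : Type) [Field κ] [Field L] [Algebra κ[X] L] : Prop :=
  ∀ (q : Ideal (integralClosure κ[X] L)) (_ : q.IsPrime), Algebra.IsUnramifiedAt κ[X] q

/-- `L` is a finite Galois extension of `κ(X)`, unramified over the affine line `Spec κ[X]`. -/
def LineGalois (κ L : Type) [Field κ] [Field L] [Algebra (RatFunc κ) L] : Prop :=
  FiniteDimensional (RatFunc κ) L ∧ IsGalois (RatFunc κ) L ∧
    @UnramifiedOver κ L _ _ (polyAlgebra κ L)

/-- `H` is the Galois group of a finite Galois extension of `κ(X)` unramified over the affine line,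
that is, the group of a connected étale Galois cover of the affine line over `κ`. -/
def OccursOverLine (κ H : Type) [Field κ] [Group H] : Prop :=
  ∃ (L : Type) (_ : Field L) (_ : Algebra (RatFunc κ) L), LineGalois κ L ∧
    Nonempty (GalX κ L ≃* H)

/-- `γ : Gal(M/κ(X)) ≃ E` is compatible with `f : E → Gal(L/κ(X))`: every `σ` acts on `L` as
`f (γ σ)`. -/
def Restricts {κ L M E : Type} [Field κ] [Field L] [Field M] [Algebra (RatFunc κ) L]
    [Algebra (RatFunc κ) M] [Algebra L M] [Group E] (f : E →* GalX κ L) (γ : GalX κ M ≃* E) :
    Prop :=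
  ∀ (σ : GalX κ M) (a : L), σ.act (algebraMap L M a) = algebraMap L M ((f (γ σ)).act a)

/-- The embedding problem `f : E → Gal(L/κ(X))` has a proper solution unramified over the affine line:
`L` is contained in a finite Galois extension `M` of `κ(X)`, unramified over the affine line, with an
isomorphism `γ` of `Gal(M/κ(X))` with `E` such that `σ` acts on `L` as `f (γ σ)`. -/
def SolvableOverLine (κ L E : Type) [Field κ] [Field L] [Algebra (RatFunc κ) L] [Group E]
    (f : E →* GalX κ L) : Prop :=
  ∃ (M : Type) (_ : Field M) (_ : Algebra (RatFunc κ) M) (_ : Algebra L M),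
    IsScalarTower (RatFunc κ) L M ∧ LineGalois κ M ∧ ∃ γ : GalX κ M ≃* E, Restricts f γ

/-- The intermediate field `M` of `Ω` over `κ(X)` is a finite Galois extension of `κ(X)` unramified
over the affine line. -/
def LineField (κ Ω : Type) [Field κ] [Field Ω] [Algebra (RatFunc κ) Ω]
    (M : IntermediateField (RatFunc κ) Ω) : Prop := LineGalois κ M

/-- `φ : Gal(Ω/κ(X)) → W` is surjective, and its kernel is the group of a finite Galois extension `M`
of `κ(X)` unramified over the affine line: for a separable closure `Ω` of `κ(X)` this is a continuous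
surjection of the étale fundamental group of the affine line over `κ` onto the finite group `W`. -/
def LineHom (κ Ω W : Type) [Field κ] [Field Ω] [Algebra (RatFunc κ) Ω] [Group W]
    (φ : GalX κ Ω →* W) : Prop :=
  Function.Surjective φ ∧ ∃ M : IntermediateField (RatFunc κ) Ω, LineField κ Ω M ∧
    ∀ σ : GalX κ Ω, φ σ = 1 ↔ ∀ x ∈ M, σ.act x = x

/-- For the sequence `W 0 ← W 1 ← W 2 ← ...` there are compatible surjections of the étale fundamental
group of the affine line over `κ` onto the groups `W i`, beginning with the given `φ₀`. -/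
def LineTower (κ Ω : Type) [Field κ] [Field Ω] [Algebra (RatFunc κ) Ω] {W : ℕ → Type}
    [∀ i, Group (W i)] (f : ∀ i, W (i + 1) →* W i) (φ₀ : GalX κ Ω →* W 0) : Prop :=
  ∃ Ψ : ∀ i, GalX κ Ω →* W i, Ψ 0 = φ₀ ∧
    ∀ i, LineHom κ Ω (W i) (Ψ i) ∧ (f i).comp (Ψ (i + 1)) = Ψ i

/-! ### The properties of the class of steps -/

/-- For every finite perfect group `G` the set `A G` contains all large multiples of a number. -/
def LargeSets (A : ∀ (G : Type) [Group G], Set ℕ) : Prop :=
  ∀ (G : Type) [Group G] [Finite G], commutator G = ⊤ →
    ∃ M : ℕ, 0 < M ∧ ∃ n₀ : ℕ, ∀ n ≥ n₀, M ∣ n → n ∈ A G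

/-- All embedding problems over the affine line over `κ` given by steps are solvable. -/
def StepsSolvable (p : ℕ) (κ : Type) [Field κ] (A : ∀ (G : Type) [Group G], Set ℕ) : Prop :=
  ∀ (L : Type) [Field L] [Algebra (RatFunc κ) L], LineGalois κ L →
    ∀ (E : Type) [Group E] (f : E →* GalX κ L), StepL p A f → SolvableOverLine κ L E f

/-- All groups with a step to a finite cyclic group occur over the affine line over `κ`. -/
def StepsOccur (p : ℕ) (κ : Type) [Field κ] (A : ∀ (G : Type) [Group G], Set ℕ) : Prop :=
  ∀ (C E : Type) [Group C] [Group E] [Finite C], IsCyclic C → ∀ f : E →* C, StepL p A f →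
    OccursOverLine κ E

/-- All infinite sequences of steps have solutions, `Ω` a separable closure of `κ(X)`. -/
def StepsTower (p : ℕ) (κ : Type) [Field κ] (A : ∀ (G : Type) [Group G], Set ℕ) : Prop :=
  ∀ (Ω : Type) [Field Ω] [Algebra (RatFunc κ) Ω] [IsSepClosure (RatFunc κ) Ω]
    (W : ℕ → Type) [∀ i, Group (W i)] (f : ∀ i, W (i + 1) →* W i) (φ₀ : GalX κ Ω →* W 0),
    (∀ i, StepL p A (f i)) → LineHom κ Ω (W 0) φ₀ → LineTower κ Ω f φ₀

end Pool.Agent.H43X.VocL
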