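import Mathlib
import Pool.Agent.H43X.VocL
import Pool.Agent.H43X.AffO
import Pool.Agent.H17Z.Fin

/-!
Lifting along steps over the affine line.
-/

set_option autoImplicit false

namespace Pool.Agent.H43X.LiftL

open Polynomial Pool.Agent.H17Z Pool.Agent.Y140.AW Pool.Agent.Y793 Pool.Agent.H43X.VocL

/-- `n` is good for `G`: the embedding problems with kernels `(G ≀ A_n) ^ I`. -/
def Good (κ G : Type) [Field κ] [Group G] (n : ℕ) : Prop :=
  ∀ (L : Type) [Field L] [Algebra (RatFunc κ) L] [Algebra κ[X] L]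
    [IsScalarTower κ[X] (RatFunc κ) L] [FiniteDimensional (RatFunc κ) L]
    [IsGalois (RatFunc κ) L],
    (∀ (q : Ideal (integralClosure κ[X] L)) (_ : q.IsPrime), Algebra.IsUnramifiedAt κ[X] q) →
    ∀ (I : Type) [Finite I] [MulAction (L ≃ₐ[RatFunc κ] L) I],
      UnrEP κ L ((I → AWr G n) ⋊[mulAutArrow] (L ≃ₐ[RatFunc κ] L)) SemidirectProduct.rightHom

section Om

variable {κ Ω : Type} [Field κ] [Finite κ] [Field Ω] [Algebra (RatFunc κ) Ω] [Algebra κ[X] Ω]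
    [IsScalarTower κ[X] (RatFunc κ) Ω] [IsSepClosure (RatFunc κ) Ω]

theorem contT_comp {H H' : Type} [Group H] [Group H'] {f : (Ω ≃ₐ[RatFunc κ] Ω) →* H}
    (hf : ContT f) (q : H →* H') : ContT (q.comp f) := by
  obtain ⟨S, hS⟩ := hf
  exact ⟨S, fun σ hσ => by rw [MonoidHom.comp_apply, hS σ hσ, map_one]⟩

theorem unrT_comp {H H' : Type} [Group H] [Group H'] {f : (Ω ≃ₐ[RatFunc κ] Ω) →* H}
    (hf : UnrT f) (q : H →* H') : UnrT (q.comp f) := fun Q hQ σ hσ => by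
  rw [MonoidHom.comp_apply, hf Q hQ σ hσ, map_one]

theorem Lifts_comp {W W' W'' : Type} [Group W] [Group W'] [Group W''] {f : W' →* W}
    {g : W'' →* W'} (hf : Lifts κ Ω f) (hg : Lifts κ Ω g) : Lifts κ Ω (f.comp g) := by
  intro φ hs hc hu
  obtain ⟨Ψ, hs1, h1, hc1, hu1⟩ := hf φ hs hc hu
  obtain ⟨Ψ', hs2, h2, hc2, hu2⟩ := hg Ψ hs1 hc1 hu1
  exact ⟨Ψ', hs2, by rw [MonoidHom.comp_assoc, h2, h1], hc2, hu2⟩

theorem Lifts_quot {W W' W'' : Type} [Group W] [Group W'] [Group W''] {f : W' →* W}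
    {g : W'' →* W'} (hg : Function.Surjective g) (h : Lifts κ Ω (f.comp g)) : Lifts κ Ω f := by
  intro φ hs hc hu
  obtain ⟨Ψ, hs1, h1, hc1, hu1⟩ := h φ hs hc hu
  exact ⟨g.comp Ψ, hg.comp hs1, by rw [← MonoidHom.comp_assoc, h1], contT_comp hc1 g,
    unrT_comp hu1 g⟩

theorem Lifts_iso {W E : Type} [Group W] [Group E] (e : E ≃* W) :
    Lifts κ Ω e.toMonoidHom := by
  intro φ hs hc hu
  refine ⟨e.symm.toMonoidHom.comp φ, e.symm.surjective.comp hs, ?_, contT_comp hc _,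
    unrT_comp hu _⟩
  ext σ
  exact e.apply_symm_apply _

theorem Lifts_wreath (G : Type) [Group G] (n : ℕ) (h : Good κ G n) (W : Type) [Group W]
    (I : Type) [Finite I] [MulAction W I] :
    Lifts κ Ω (SemidirectProduct.rightHom : ((I → AWr G n) ⋊[mulAutArrow] W) →* W) := by
  intro φ hs hc hu
  classical
  haveI : IsGalois (RatFunc κ) Ω := IsSepClosure.isGalois
  haveI : IsSepClosed Ω := IsSepClosure.sep_closed (RatFunc κ)
  obtain ⟨M, hfd, hgal, hM⟩ := lft_gal φ hc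
  let ρ : (Ω ≃ₐ[RatFunc κ] Ω) →* (M ≃ₐ[RatFunc κ] M) := AlgEquiv.restrictNormalHom M
  have hρs : Function.Surjective ρ := AlgEquiv.restrictNormalHom_surjective Ω
  have hρ : ∀ (σ : Ω ≃ₐ[RatFunc κ] Ω) (z : M), ((ρ σ z : M) : Ω) = σ z := fun σ z =>
    AlgEquiv.restrictNormal_commutes σ M z
  have hρ1 : ∀ σ, ρ σ = 1 ↔ φ σ = 1 := by
    intro σ
    rw [hM]
    constructor
    · intro h z
      rw [← hρ, h]
      rfl
    · intro h
      ext z
      rw [hρ, h z]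
      rfl
  let γ₀ : (M ≃ₐ[RatFunc κ] M) →* W := ρ.liftOfSurjective hρs
    ⟨φ, fun σ hσ => (hρ1 σ).1 hσ⟩
  have hγ₀ : ∀ σ, γ₀ (ρ σ) = φ σ := fun σ => MonoidHom.liftOfRightInverse_comp_apply _ _ _ _ σ
  have hγb : Function.Bijective γ₀ := by
    constructor
    · rw [injective_iff_map_eq_one]
      intro τ hτ
      obtain ⟨σ, rfl⟩ := hρs τ
      rw [hγ₀] at hτ
      exact (hρ1 σ).2 hτ
    · intro w
      obtain ⟨σ, rfl⟩ := hs w
      exact ⟨ρ σ, hγ₀ σ⟩
  let γ : (M ≃ₐ[RatFunc κ] M) ≃* W := MulEquiv.ofBijective γ₀ hγb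
  letI : MulAction (M ≃ₐ[RatFunc κ] M) I := MulAction.compHom I γ.toMonoidHom
  have hU := (t_unr3 κ M).1 (lft_unr t_SURJ φ hu M fun σ h => (hM σ).1 h)
  obtain ⟨L, i1, i2, i3, i4, i5, i6, i7, i8, γ', h1, h2⟩ := h M hU I
  letI := i1
  letI := i2
  letI := i3
  haveI := i4
  letI := i5
  haveI := i6
  haveI := i7
  haveI := i8
  haveI : Algebra.IsSeparable M L := Algebra.isSeparable_tower_top_of_isSeparable (RatFunc κ) M L
  let j' : L →ₐ[M] Ω := IsSepClosed.lift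
  let j : L →ₐ[RatFunc κ] Ω := j'.restrictScalars (RatFunc κ)
  obtain ⟨φ', hs', hc', hu', hj'⟩ := hom_of_field (Ω := Ω) L j ((t_unr3 κ L).2 h2)
  let e := wrCongr (H := AWr G n) (Ω := I) γ (fun _ _ => rfl)
  refine ⟨e.toMonoidHom.comp (γ'.toMonoidHom.comp φ'), ?_, ?_, contT_comp (contT_comp hc' _) _,
    unrT_comp (unrT_comp hu' _) _⟩
  · exact e.surjective.comp (γ'.surjective.comp hs')
  · ext σ
    have h3 : ρ σ = (γ' (φ' σ)).right := by
      ext a
      rw [hρ]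
      have h4 : j (algebraMap M L a) = (a : Ω) := j'.commutes a
      have h5 := hj' σ (algebraMap M L a)
      rw [h4, h1] at h5
      rw [h5]
      exact j'.commutes _
    change γ ((γ' (φ' σ)).right) = φ σ
    rw [← h3]
    exact hγ₀ σ

end Om

end Pool.Agent.H43X.LiftL
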