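import Mathlib
import Pool.Agent.N70.EP.VocC
import Pool.Agent.N70.PP.Voc
import Pool.Agent.TH444.TW.ClsDef

/-!
# Vocabulary: steps in positive characteristic

`Pool.Agent.N70.EP.Voc` and `VocC` have the definitions `Wreath` (`B ≀ S_n`), `AltWreath` (`G ≀ A_n`),
`TwPow`, `twPr` (the twisted alternating fibre powers), `InnerAut`, `Centreless`, `RegularSolution`,
`ProperSolution`, `WeakSolutionOver`, `RegularTower`, `ProperTower`; `Pool.Agent.N70.PP.Voc` has
`OccursRegularly`, and `Pool.Agent.TH444.TW` the class `Cls k₀`.
-/

set_option autoImplicit false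

namespace Pool.Agent.H43X.Voc

open Pool.Agent.N70.EP.Voc Pool.Agent.N70.PP.Voc

/-- The modulus: `12 r p` for odd `p`, `48 r` for `p = 2`. -/
def Modulus (p r : ℕ) : ℕ := if p = 2 then 48 * r else 12 * r * p

/-- The degree: `q + 6 r p + 1` for odd `p`, `q + 6 r + 1` for `p = 2`. -/
def Degree (p r q : ℕ) : ℕ := if p = 2 then q + 6 * r + 1 else q + 6 * r * p + 1

/-- For every odd `r ≥ ((72 g + 2)!) ^ 3` the set `S` contains the numbers `Degree p r q` for all
large primes `q ≡ -1` modulo `Modulus p r`. -/
def LargeSet (p g : ℕ) (S : Set ℕ) : Prop :=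
  ∀ r : ℕ, Odd r → ((72 * g + 2).factorial) ^ 3 ≤ r →
    ∃ q₀ : ℕ, ∀ q ≥ q₀, q.Prime → Modulus p r ∣ q + 1 → Degree p r q ∈ S

/-- The class of kernels, depending on sets `A G` of natural numbers: the smallest class of groups
which
* contains `G ≀ A_n` for every nontrivial finite perfect group `G` with trivial centre such that
  `Inn G` has a complement in `Aut G` and every `n` in `A G`,
* contains `G ≀ S_n` for every nontrivial finite group `G` with trivial centre such that `Inn G` has a
  complement in `Aut G` and every `n ≥ ((3 |G| + 2)!) ^ 3`,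
* contains the finite groups with trivial centre all of whose automorphisms are inner which occur
  regularly over `F_p`,
* contains `T ≀ S_n` if it contains the nontrivial group `T` and `n ≥ 2 (|T| + 2)`,
* is closed under finite direct products, direct factors, isomorphisms and characteristic extensions
  (it contains `T` if it contains `C` and `T / C` for a characteristic subgroup `C` of `T`). -/
inductive KerP (p : ℕ) [Fact p.Prime] (A : ∀ (G : Type) [Group G], Set ℕ) :
    ∀ (T : Type) [Group T], Prop
  | alternating (G : Type) [Group G] (hG : Centreless G) (hP : commutator G = ⊤)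
      (hC : ∃ C : Subgroup (MulAut G), IsCompl C (InnerAut G)) (n : ℕ) (hn : n ∈ A G) :
      KerP p A (AltWreath G n)
  | symmetric (G : Type) [Group G] (hG : Centreless G)
      (hC : ∃ C : Subgroup (MulAut G), IsCompl C (InnerAut G)) (n : ℕ)
      (hn : ((3 * Nat.card G + 2).factorial) ^ 3 ≤ n) : KerP p A (Wreath G n)
  | complete (T : Type) [Group T] [Finite T] (hZ : Subgroup.center T = ⊥)
      (hI : ∀ a : MulAut T, ∃ g : T, a = MulAut.conj g) (hR : OccursRegularly (ZMod p) T) :
      KerP p A T
  | power (T : Type) [Group T] [Nontrivial T] (h : KerP p A T) (n : ℕ)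
      (hn : 2 * (Nat.card T + 2) ≤ n) : KerP p A (Wreath T n)
  | prod (I : Type) [Finite I] (T : I → Type) [∀ i, Group (T i)] (h : ∀ i, KerP p A (T i)) :
      KerP p A (∀ i, T i)
  | factor (S T : Type) [Group S] [Group T] (h : KerP p A (S × T)) : KerP p A S
  | extension (T : Type) [Group T] (C : Subgroup T) [C.Characteristic] (h : KerP p A C)
      (h' : KerP p A (T ⧸ C)) : KerP p A T
  | iso (T T' : Type) [Group T] [Group T'] (e : T ≃* T') (h : KerP p A T) : KerP p A T'

/-- The class of steps, depending on sets `A₁ α`, `A₂ α` of natural numbers for every homomorphism `α`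
and `A₃ G` for every group `G`: the smallest class of homomorphisms of groups which
* contains the class `Cls F_p` of the starting results (for example all split epimorphisms with a
  finite abelian kernel),
* contains the projection `twPr α 1 n : TwPow α 1 n → W` for every surjection `α : B → W`, `B` finite,
  whose kernel is perfect, and every `n` in `A₁ α`,
* contains the projection `twPr α χ n : TwPow α χ n → W` for every homomorphism `α : B → W`, `B`
  finite, whose kernel is perfect, every character `χ` and every `n` in `A₂ α`, if there is a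
  subgroup `D` of `B` such that the restriction `D → W` of `α` is surjective and in the class (for
  example if `α` splits, or if `α` itself is in the class),
* contains all epimorphisms whose kernel is in the class `KerP p A₃`,
* is closed under composition, and under quotients (if `f ∘ g` is in the class and `g` is
  surjective, then `f` is in the class). -/
inductive StepP (p : ℕ) [Fact p.Prime]
    (A₁ A₂ : ∀ (W B : Type) [Group W] [Group B], (B →* W) → Set ℕ)
    (A₃ : ∀ (G : Type) [Group G], Set ℕ) :
    ∀ {W W' : Type} [Group W] [Group W'], (W' →* W) → Prop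
  | old {W W' : Type} [Group W] [Group W'] (f : W' →* W)
      (h : Pool.Agent.TH444.TW.Cls (ZMod p) f) : StepP p A₁ A₂ A₃ f
  | plain {W B : Type} [Group W] [Group B] [Finite B] (α : B →* W)
      (hα : Function.Surjective α) (hperf : commutator α.ker = ⊤) (n : ℕ) (hn : n ∈ A₁ W B α) :
      StepP p A₁ A₂ A₃ (twPr α 1 n)
  | twisted {W B : Type} [Group W] [Group B] [Finite B] (α : B →* W)
      (hperf : commutator α.ker = ⊤) (D : Subgroup B)
      (hD : Function.Surjective (α.comp D.subtype)) (hs : StepP p A₁ A₂ A₃ (α.comp D.subtype))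
      (χ : W →* ℤˣ) (n : ℕ) (hn : n ∈ A₂ W B α) : StepP p A₁ A₂ A₃ (twPr α χ n)
  | kernel {W W' : Type} [Group W] [Group W'] (f : W' →* W) (hf : Function.Surjective f)
      (h : KerP p A₃ f.ker) : StepP p A₁ A₂ A₃ f
  | comp {W W' W'' : Type} [Group W] [Group W'] [Group W''] (f : W' →* W) (g : W'' →* W')
      (hf : StepP p A₁ A₂ A₃ f) (hg : StepP p A₁ A₂ A₃ g) : StepP p A₁ A₂ A₃ (f.comp g)
  | quot {W W' W'' : Type} [Group W] [Group W'] [Group W''] (f : W' →* W) (g : W'' →* W')
      (hg : Function.Surjective g) (hfg : StepP p A₁ A₂ A₃ (f.comp g)) : StepP p A₁ A₂ A₃ f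

/-- The sets are large: `A₁ α` is infinite and `A₂ α` is a large set (`LargeSet`) for every surjection
`α` of finite groups with perfect kernel, and `A₃ G` is a large set for every nontrivial finite
perfect group `G` with trivial centre. -/
def AllLarge (p : ℕ) (A₁ A₂ : ∀ (W B : Type) [Group W] [Group B], (B →* W) → Set ℕ)
    (A₃ : ∀ (G : Type) [Group G], Set ℕ) : Prop :=
  (∀ (W B : Type) [Group W] [Group B] (α : B →* W), Finite W → Finite B → Function.Surjective α →
    commutator α.ker = ⊤ → (A₁ W B α).Infinite ∧ LargeSet p (Nat.card α.ker) (A₂ W B α)) ∧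
  ∀ (G : Type) [Group G], Centreless G → commutator G = ⊤ → LargeSet p (Nat.card G) (A₃ G)

end Pool.Agent.H43X.Voc
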