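import Mathlib
import Pool.Agent.H43X.Voc
import Pool.Agent.H43W.Fin2
import Pool.Agent.N70.PP.VocB
import Pool.Agent.N70.PP.VocKB
import Pool.Agent.TH377.IG.TowReg
import Pool.Agent.TH377.IG.TowSpec
import Pool.Agent.TH377.IG.RegAll
import Pool.Agent.TH444.TW.Cls

/-!
Steps and towers in positive characteristic.
-/

set_option autoImplicit false
set_option linter.unusedSectionVars false
set_option linter.unusedSimpArgs false

namespace Pool.Agent.H43X

open Nfff32c05
open Pool.Agent.H391R2 (Wr)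
open Pool.Agent.H391R2.T4 (RegSol WeakSol HilbField finite_wr)
open Pool.Agent.Y793 (AWr AltTw twProj regSol_iso)
open Pool.Agent.TH59.WX (finite_of_kernel)
open Pool.Agent.TH444.TW (RSK RegularOver infinite_ratFunc finite_of_ker infinite_of_hilb)
open Pool.Agent.N600.UK (CL cl_of_center cl_iso cls)
open Pool.Agent.N600.ZQ (ReducesP RealizedP SameP FratCover)
open Pool.Agent.N70.EP.Voc
open Pool.Agent.N70.PP.Voc
open Pool.Agent.N70.PP
open Pool.Agent.TH377.IG (FP prFP spec_hilb)
open Pool.Agent.H43W (mB2 pc mainAu2 fibP_main2 deg2_of bound_le2 rsk_kerA2)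
open Voc

section sets

variable (p : ℕ) [Fact p.Prime]

/-- `A₁` -/
def setA (W B : Type) [Group W] [Group B] (α : B →* W) : Set ℕ := {n | RSK (ZMod p) (twPr α 1 n)}

/-- `A₂` -/
def setB (W B : Type) [Group W] [Group B] (α : B →* W) : Set ℕ := {n | FibP p α n}

/-- `A₃` -/
def setC (G : Type) [Group G] : Set ℕ := {n | GoodP p G n}

theorem rsk_twPr {W B : Type} [Group W] [Group B] (α : B →* W) (χ : W →* ℤˣ) (n : ℕ)
    (h : RSK (ZMod p) (twProj α χ n)) : RSK (ZMod p) (twPr α χ n) :=
  RSK.congr h (twE α χ n).symm (fun _ => rfl)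

theorem setA_inf {W B : Type} [Group W] [Group B] [Finite W] [Finite B] (α : B →* W)
    (hα : Function.Surjective α) (hperf : commutator α.ker = ⊤) : (setA p W B α).Infinite := by
  apply Set.infinite_of_not_bddAbove
  rintro ⟨b, hb⟩
  obtain ⟨n, hn, h⟩ : ∃ n ≥ b + 1, RSK (ZMod p) (twProj α 1 n) := by
    by_cases hp : p = 2
    · subst hp
      exact mainAu2 pc W B α hα hperf (b + 1)
    · exact mainAu hyp p hp W B α hα hperf (b + 1)
  have h1 := hb (rsk_twPr p α 1 n h)
  omega

theorem setB_large {W B : Type} [Group W] [Group B] [Finite W] [Finite B] (α : B →* W)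
    (hperf : commutator α.ker = ⊤) : LargeSet p (Nat.card α.ker) (setB p W B α) := by
  intro r hr hr2
  by_cases hp : p = 2
  · subst hp
    obtain ⟨n₀, hn₀⟩ := fibP_main2 mB2 B W α hperf r hr hr2
    refine ⟨n₀, fun q hq hqp hd => ?_⟩
    have hd' : 48 * r ∣ q + 1 := by simpa [Modulus] using hd
    have h1 := hn₀ (q + 6 * r + 1) (by omega) (deg2_of hr hqp hd')
    have e : Degree 2 r q = q + 6 * r + 1 := by simp [Degree]
    rw [e]
    exact h1
  · obtain ⟨n₀, hn₀⟩ := fibP_main hyp hp B W α hperf r hr hr2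
    refine ⟨n₀, fun q hq hqp hd => ?_⟩
    have hd' : 12 * r * p ∣ q + 1 := by simpa [Modulus, hp] using hd
    have h1 := hn₀ (q + 6 * r * p + 1) (by omega)
      (deg_of (Fact.out : p.Prime).pos hr hqp hd')
    have e : Degree p r q = q + 6 * r * p + 1 := by simp [Degree, hp]
    rw [e]
    exact h1

theorem setC_large {G : Type} [Group G] (hG : Centreless G) (hP : commutator G = ⊤) :
    LargeSet p (Nat.card G) (setC p G) := by
  intro r hr hr2
  have h2 := hG.finite
  have hp0 : 0 < p := (Fact.out : p.Prime).pos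
  by_cases hp : p = 2
  · subst hp
    obtain ⟨n₀, hn₀⟩ := rsk_kerA2 G mB2 (cl_of_center hG.center) hP r hr hr2
    refine ⟨n₀, fun q hq hqp hd => ?_⟩
    have hd' : 48 * r ∣ q + 1 := by simpa [Modulus] using hd
    have e : Degree 2 r q = q + 6 * r + 1 := by simp [Degree]
    rw [e]
    exact ⟨bound_le2 hr2 Nat.card_pos, hn₀ _ (by omega) (deg2_of hr hqp hd')⟩
  · obtain ⟨n₀, hn₀⟩ := rsk_kerA G hyp p hp (cl_of_center hG.center) hP r hr hr2
    refine ⟨n₀, fun q hq hqp hd => ?_⟩
    have hd' : 12 * r * p ∣ q + 1 := by simpa [Modulus, hp] using hd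
    have e : Degree p r q = q + 6 * r * p + 1 := by simp [Degree, hp]
    rw [e]
    exact ⟨bound_le hp0 hr2 Nat.card_pos, hn₀ _ (by omega) (deg_of hp0 hr hqp hd')⟩

theorem allLarge : AllLarge p (setA p) (setB p) (setC p) :=
  ⟨fun W B _ _ α _ _ hα hperf => ⟨setA_inf p α hα hperf, setB_large p α hperf⟩,
    fun _ _ hG hP => setC_large p hG hP⟩

/-- The kernels. -/
theorem ker_main (T : Type) [Group T] (hT : KerP p (fun G _ => setC p G) T) :
    Finite T ∧ CL T ∧ GoodKerP p T := by
  have gd : St_gdp p := N555.PP.t_gdp p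
  induction hT with
  | alternating G hG hP hC n hn =>
    have h2 := hG.finite
    have h3 := hG.nontrivial
    have h4 : Finite (Wr G n) := finite_wr G n
    have hn' : GoodP p G n := hn
    refine ⟨Finite.of_injective Subtype.val Subtype.val_injective, ?_, ?_⟩
    · have hn1 := hn'.1
      intro z hz
      exact N478.EP.triv_of_comm (cl_of_center hG.center) z (fun k g => hz (N891.EP.sg k g))
    · intro K L X _ _ _ _ _ _ _ _ α hα hι
      have hf4 : Finite (AltWreath G n) := Finite.of_injective Subtype.val Subtype.val_injective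
      have hfX : Finite X := finite_of_kernel α hι.some.symm
      have h5 := GoodP.compl (cl_of_center hG.center) hC hn' α hα hι
      exact reg_all h5 K L (MulEquiv.refl _)
  | symmetric G hG hC n hn =>
    have h2 := hG.finite
    have h3 := hG.nontrivial
    obtain ⟨h4, h5, h6⟩ := (N600.UK.Univ.wreath G hG.center hC n hn).main
    refine ⟨h4, h5, ?_⟩
    intro K L X _ _ _ _ _ _ _ _ α hα hι
    exact h6 K L X α hα hι
  | complete T hZ hI hR =>
    exact ⟨inferInstance, cl_of_center hZ, good_completeP (cl_of_center hZ) hI hR⟩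
  | power T h n hn ih =>
    obtain ⟨h1, h2, h3⟩ := ih
    exact ⟨finite_wr T n, fun x hx => N600.UK.center_wr h2 x hx, gd.wr T h2 h3 n hn⟩
  | prod I T h ih =>
    have h1 : ∀ i, Finite (T i) := fun i => (ih i).1
    refine ⟨inferInstance, ?_, gd.pi I T (fun i => (ih i).2.1) (fun i => (ih i).2.2)⟩
    intro z hz
    classical
    funext i
    refine (ih i).2.1 _ fun g => ?_
    have h2 := congrFun (hz (Pi.mulSingle i g)) i
    rw [Pi.mul_apply, Pi.mul_apply, Pi.mulSingle_eq_same] at h2
    exact h2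
  | factor A B h ih =>
    obtain ⟨h1, h2, h3⟩ := ih
    refine ⟨Finite.of_injective (fun a : A => (a, (1 : B))) (fun a b hab => congrArg Prod.fst hab),
      ?_, gd.factor A B h3⟩
    intro z hz
    have h4 : ((z, 1) : A × B) = 1 := by
      apply h2
      rintro ⟨a, b⟩
      refine Prod.ext (hz a) ?_
      change 1 * b = b * 1
      rw [one_mul, mul_one]
    exact congrArg Prod.fst h4
  | extension T C h h' ih ih' =>
    obtain ⟨h1, h2, h3⟩ := ih
    obtain ⟨h4, h5, h6⟩ := ih'
    have hfin : Finite T := Finite.of_subgroup_quotient C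
    refine ⟨hfin, ?_, gd.char T C h3 h6⟩
    intro z hz
    have h7 : (QuotientGroup.mk' C z) = 1 := by
      apply h5
      intro g
      obtain ⟨g, rfl⟩ := QuotientGroup.mk'_surjective C g
      rw [← map_mul, hz g, map_mul]
    rw [QuotientGroup.mk'_apply, QuotientGroup.eq_one_iff] at h7
    have h8 : (⟨z, h7⟩ : C) = 1 := by
      apply h2
      intro g
      exact Subtype.ext (hz g)
    exact congrArg Subtype.val h8
  | iso T T' e h ih =>
    obtain ⟨h1, h2, h3⟩ := ih
    exact ⟨Finite.of_equiv _ e.toEquiv, cl_iso e h2, gd.iso T T' e h3⟩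

/-- The steps. -/
theorem step_main {W W' : Type} [Group W] [Group W'] {f : W' →* W}
    (h : StepP p (setA p) (setB p) (fun G _ => setC p G) f) :
    Finite W → Finite W' ∧ RSK (ZMod p) f := by
  induction h with
  | old f h => exact fun hW => ⟨h.finite, h.rsk⟩
  | @plain W B _ _ _ α hα hperf n hn =>
    intro hW
    have hf : Finite (Wr B n) := finite_wr B n
    exact ⟨Finite.of_injective Subtype.val Subtype.val_injective, hn⟩
  | @twisted W B _ _ _ α hperf D hD hs χ n hn ih =>
    intro hW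
    have hf : Finite (Wr B n) := finite_wr B n
    refine ⟨Finite.of_injective Subtype.val Subtype.val_injective, ?_⟩
    obtain ⟨-, h1⟩ := ih hW
    have hn' : FibP p α n := hn
    have h2 := hn' χ D hD
    have hfF : Finite (FP α (aD α D)) := inferInstance
    have hW2 : Finite (Wr (FP α (aD α D)) n) := finite_wr _ _
    have hf1 : Finite (AltTw (prFP α (aD α D)) (χ.comp (aD α D)) n) := inferInstance
    have h3 : RSK (ZMod p) ((aD α D).comp
        (twProj (prFP α (aD α D)) (χ.comp (aD α D)) n)) := RSK.comp h1 h2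
    exact rsk_twPr p α χ n (RSK.quot (twQ α χ n D) (twQ_surj α χ n D hD)
      (fun z => twQ_pr α χ n D z) h3)
  | kernel f hf h =>
    intro hW
    obtain ⟨h3, -, h5⟩ := ker_main p _ h
    have h6 := finite_of_ker f
    exact ⟨h6, rsk_of_goodP h5 f hf ⟨MulEquiv.refl _⟩⟩
  | comp f g hf hg ihf ihg =>
    intro hW
    obtain ⟨h1, h2⟩ := ihf hW
    obtain ⟨h3, h4⟩ := ihg h1
    exact ⟨h3, RSK.comp h2 h4⟩
  | quot f g hg hfg ih =>
    intro hW
    obtain ⟨h1, h2⟩ := ih hW
    exact ⟨Finite.of_surjective g hg, RSK.quot g hg (fun x => rfl) h2⟩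

theorem tower_finiteP (W : ℕ → Type) [∀ i, Group (W i)] (f : ∀ i, W (i + 1) →* W i)
    (hf : ∀ i, Finite (W i) → Finite (W (i + 1)) ∧ RSK (ZMod p) (f i)) (h0 : Finite (W 0)) :
    ∀ i, Finite (W i) := by
  intro i
  induction i with
  | zero => exact h0
  | succ i ih => exact (hf i ih).1

/-- Regular towers. -/
theorem step_regularP {K L : Type} [Field K] [CharP K p] [Field L] [Algebra K L]
    [FiniteDimensional K L] [IsGalois K L] {W : ℕ → Type} [∀ i, Group (W i)]
    (f : ∀ i, W (i + 1) →* W i)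
    (hf : ∀ i, Finite (W i) → Finite (W (i + 1)) ∧ RSK (ZMod p) (f i))
    (e₀ : W 0 ≃* (L ≃ₐ[K] L)) : RegularTower f e₀ := by
  have hfin := tower_finiteP p W f hf (Finite.of_equiv _ e₀.symm.toEquiv)
  have h := Pool.Agent.TH377.IG.tower_regular K L
    (fun Ω _ _ _ _ _ _ j => Pool.Agent.TH377.IG.regStep K L Ω j) W f (fun i => ?_) e₀
  · obtain ⟨F, i1, i2, i3, i4, i5, i6, i7, γ, h1, h2, h3⟩ := h
    exact ⟨F, i1, i2, i3, i4, i5, i6, i7, γ, h1, h2, h3⟩
  intro M _ _ _ _ ε
  have hinf := infinite_ratFunc K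
  have hc : CharP (RatFunc K) p := Pool.Agent.Y60.DC.charP_ratFunc K p
  let _ : Algebra (ZMod p) (RatFunc K) := ZMod.algebra (RatFunc K) p
  exact (hf i (hfin i)).2 (RatFunc K) M ε

/-- Towers over Hilbertian fields. -/
theorem step_properP {K L : Type} [Field K] [CharP K p] (hK : HilbField K) [Field L]
    [Algebra K L] [FiniteDimensional K L] [IsGalois K L] {W : ℕ → Type} [∀ i, Group (W i)]
    (f : ∀ i, W (i + 1) →* W i)
    (hf : ∀ i, Finite (W i) → Finite (W (i + 1)) ∧ RSK (ZMod p) (f i))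
    (e₀ : W 0 ≃* (L ≃ₐ[K] L)) : ProperTower f e₀ := by
  have hfin := tower_finiteP p W f hf (Finite.of_equiv _ e₀.symm.toEquiv)
  have hinf : Infinite K := infinite_of_hilb hK
  have h := Pool.Agent.TH377.IG.tower_spec (Pool.Agent.TH377.IG.spec_hilb hK) W f
    (fun i M _ _ _ _ ε => ?_) L e₀
  · obtain ⟨F, i1, i2, i3, i4, i5, γ, h1, h2⟩ := h
    exact ⟨F, i1, i2, i3, i4, i5, γ, h1, h2⟩
  let _ : Algebra (ZMod p) K := ZMod.algebra K p
  exact (hf i (hfin i)).2 K M ε

/-- One step. -/
theorem step_solvable {K L E : Type} [Field K] [CharP K p] [Field L] [Algebra K L]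
    [FiniteDimensional K L] [IsGalois K L] [Group E] (π : E →* (L ≃ₐ[K] L))
    (h : StepP p (setA p) (setB p) (fun G _ => setC p G) π) : Solvable π := by
  obtain ⟨h1, h2⟩ := step_main p h inferInstance
  exact solvable_of_regSol (reg_all h2 K L (MulEquiv.refl _))

/-- Weakly solvable problems. -/
theorem weak_solvable {K L B : Type} [Field K] [CharP K p] [Field L] [Algebra K L]
    [FiniteDimensional K L] [IsGalois K L] [Group B] [Finite B] (α : B →* (L ≃ₐ[K] L))
    (hw : WeakSolutionOver α K) (χ : (L ≃ₐ[K] L) →* ℤˣ) (n : ℕ)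
    (hn : n ∈ setB p (L ≃ₐ[K] L) B α) : Solvable (twPr α χ n) := by
  have hF : FibP p α n := hn
  have hf : Finite (Wr B n) := finite_wr B n
  have hf2 : Finite (TwPow α χ n) := Finite.of_injective Subtype.val Subtype.val_injective
  have h3 := hF.weak χ K L (MulEquiv.refl _) (weak_of_over α hw)
  exact solvable_of_regSol (regSol_iso K L _ _ _ _ (twE α χ n).symm (fun z => rfl) h3)

end sets

end Pool.Agent.H43X
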