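import Mathlib
import Pool.Agent.H43X.Voc
import Pool.Agent.H43X.VocD

/-!
# Vocabulary: full sets of degrees
-/

set_option autoImplicit false

namespace Pool.Agent.H43X.VocT

open Pool.Agent.N70.EP.Voc
open Pool.Agent.H43X.VocD (Degrees Bound)

/-- `S` contains almost all multiples of `lcm(2, p)` (natural density), and for every even `b ≥ 4` and
odd `r ≥ Bound g b = ((3 g b! + 2)!) ^ 3` all large `n = b r p (2 k + 1)` (`n = b r (8 k + 1)` if
`p = 2`). -/
def FullSet (p g : ℕ) (S : Set ℕ) : Prop :=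
  AlmostAllMultiples (Nat.lcm 2 p) (fun n => n ∈ S) ∧
  ∀ b r : ℕ, Even b → 4 ≤ b → Odd r → Bound g b ≤ r →
    ∃ n₀ : ℕ, ∀ n ≥ n₀, n ∈ Degrees p (b * r) → n ∈ S

/-- For every surjection `α : B → W` of finite groups with perfect kernel `A₁ α` contains almost all
multiples of `4 p |W|` and `A₂ α` is a full set; `A₃ G` is a full set for every nontrivial finite
perfect group `G` with trivial centre. -/
def AllFull (p : ℕ) (A₁ A₂ : ∀ (W B : Type) [Group W] [Group B], (B →* W) → Set ℕ)
    (A₃ : ∀ (G : Type) [Group G], Set ℕ) : Prop :=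
  (∀ (W B : Type) [Group W] [Group B] (α : B →* W), Finite W → Finite B → Function.Surjective α →
    commutator α.ker = ⊤ →
    AlmostAllMultiples (4 * p * Nat.card W) (fun n => n ∈ A₁ W B α) ∧
      FullSet p (Nat.card α.ker) (A₂ W B α)) ∧
  ∀ (G : Type) [Group G], Centreless G → commutator G = ⊤ → FullSet p (Nat.card G) (A₃ G)

end Pool.Agent.H43X.VocT
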