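import Mathlib
import Pool.Agent.H43X.VocT
import Pool.Agent.H43X.FinD
import Pool.Agent.H43X.Main
import Pool.Agent.XE31.D2.FinK

/-!
Steps and towers in positive characteristic, almost all degrees.
-/

set_option autoImplicit false
set_option linter.unusedSectionVars false
set_option linter.unusedSimpArgs false

namespace Pool.Agent.H43X

open Nfff32c05
open Pool.Agent.H391R2 (Wr)
open Pool.Agent.H391R2.T4 (RegSol WeakSol HilbField finite_wr)
open Pool.Agent.Y793 (AWr AltTw twProj regSol_iso)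
open Pool.Agent.TH444.TW (RSK RegularOver)
open Pool.Agent.N600.ZQ (ReducesP RealizedP SameP reducesP_of)
open Pool.Agent.N70.EP.Voc
open Pool.Agent.N70.PP.Voc
open Pool.Agent.N70.PP
open Voc VocT
open Pool.Agent.H43X.VocD (Degrees Bound)

section sets

variable (p : ℕ) [Fact p.Prime]

theorem setA_full {W B : Type} [Group W] [Group B] [Finite W] [Finite B] (α : B →* W)
    (hα : Function.Surjective α) (hperf : commutator α.ker = ⊤) :
    AlmostAllMultiples (4 * p * Nat.card W) (fun n => n ∈ setA p W B α) := by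
  obtain ⟨k₀, h⟩ := mAuE p W B α hα hperf
  have hp0 : 0 < p := (Fact.out : p.Prime).pos
  have hc : 0 < 4 * p * Nat.card W := Nat.mul_pos (by omega) Nat.card_pos
  refine toEP hc (almostA den _ hc _ k₀ fun k hk => ?_)
  obtain ⟨n₀, hn₀⟩ := h k hk
  exact ⟨n₀, fun n hn hd => rsk_twPr p α 1 n (hn₀ n hn hd)⟩

theorem fullSet_of {g : ℕ} {S : Set ℕ} (h : ∀ b r : ℕ, Even b → 4 ≤ b → Odd r → Bound g b ≤ r →
    ∃ n₀ : ℕ, ∀ n ≥ n₀, DegE p (b * r) n → n ∈ S) : FullSet p g S := by
  have hp : p.Prime := Fact.out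
  refine ⟨toEP (Nat.lcm_pos two_pos hp.pos) (almost den p _ (Bound g) h),
    fun b r hb hb4 hr hr2 => ?_⟩
  obtain ⟨n₀, hn₀⟩ := h b r hb hb4 hr hr2
  exact ⟨n₀, fun n hn hd => hn₀ n hn (degE_of hd)⟩

theorem setB_full {W B : Type} [Group W] [Group B] [Finite W] [Finite B] (α : B →* W)
    (hperf : commutator α.ker = ⊤) : FullSet p (Nat.card α.ker) (setB p W B α) :=
  fullSet_of p fun b r hb hb4 hr hr2 => fibP_mainE t_GRB p B W α hperf b r hb hb4 hr hr2

theorem setC_full {G : Type} [Group G] (hG : Centreless G) (hP : commutator G = ⊤) :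
    FullSet p (Nat.card G) (setC p G) := by
  refine fullSet_of p fun b r hb hb4 hr hr2 => ?_
  obtain ⟨n₀, hn₀⟩ := Pool.Agent.XE31.D2.goodP_of (Pool.Agent.XE31.D2.mD_of t_GRB) p G b r hb hb4
    hr hr2
  exact ⟨n₀, fun n hn hd => hn₀ n hn (Pool.Agent.XE31.D2.mem_of_degE hd) hG hP⟩

theorem allFull : AllFull p (setA p) (setB p) (setC p) :=
  ⟨fun _ _ _ _ α _ _ hα hperf => ⟨setA_full p α hα hperf, setB_full p α hperf⟩,
    fun _ _ hG hP => setC_full p hG hP⟩

/-- The groups of steps occur. -/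
theorem step_occurs {W W' : Type} [Group W] [Group W'] [Finite W] (f : W' →* W)
    (h : StepP p (setA p) (setB p) (fun G _ => setC p G) f) :
    Finite W' ∧ OccursIf p W' W ∧ SolvableAll p f := by
  obtain ⟨h1, h2⟩ := step_main p h inferInstance
  refine ⟨h1, occursIf_of (reducesP_of f (fun K _ _ => rsk_field h2 K) (MonoidHom.id W')
    Function.surjective_id), solvableAll_of h2⟩

end sets

end Pool.Agent.H43X
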