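import Mathlib
import Pool.Agent.H43X.VocL
import Pool.Agent.H43X.LiftL

/-!
Steps over the affine line: the theorems.
-/

set_option autoImplicit false

namespace Pool.Agent.H43X.StL

open Polynomial Pool.Agent.H17Z Pool.Agent.Y140.AW Pool.Agent.Y793 Pool.Agent.H43X.VocL
open Pool.Agent.H43X.LiftL

/-- The sets of degrees. -/
def setL (κ : Type) [Field κ] (G : Type) [Group G] : Set ℕ := {n | Good κ G n}

theorem setL_large (p : ℕ) [Fact p.Prime] (hp : p ≠ 2) (κ : Type) [Field κ] [Finite κ] [CharP κ p]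
    (G : Type) [Group G] [Finite G] (hG : commutator G = ⊤) :
    ∃ M : ℕ, 0 < M ∧ ∃ n₀ : ℕ, ∀ n ≥ n₀, M ∣ n → n ∈ setL κ G :=
  Pool.Agent.H43X.AffO.outO6 p hp κ G hG

/-- Steps can be lifted. -/
theorem lifts_step (p : ℕ) [Fact p.Prime] (κ Ω : Type) [Field κ] [Finite κ] [CharP κ p] [Field Ω]
    [Algebra (RatFunc κ) Ω] [Algebra κ[X] Ω] [IsScalarTower κ[X] (RatFunc κ) Ω] [Algebra κ Ω]
    [IsScalarTower κ κ[X] Ω] [IsSepClosure (RatFunc κ) Ω] {W E : Type} [Group W] [Group E]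
    (f : E →* W) (hf : StepL p (fun G _ => setL κ G) f) : Lifts κ Ω f := by
  induction hf with
  | @wreath W _ I _ _ G _ _ hG n hn => exact Lifts_wreath G n hn W I
  | @series W E _ _ _ f hf hc hH => exact lifts_hyp p E W f hf (cyc_of hc) hH
  | iso e => exact Lifts_iso e
  | comp f g hf hg ih1 ih2 => exact Lifts_comp ih1 ih2
  | quot f g hg hfg ih => exact Lifts_quot hg ih

section fields

variable (κ : Type) [Field κ] [Finite κ]

theorem lineGalois_iff (L : Type) [Field L] [Algebra (RatFunc κ) L] [i : Algebra κ[X] L]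
    [IsScalarTower κ[X] (RatFunc κ) L] [FiniteDimensional (RatFunc κ) L]
    [IsGalois (RatFunc κ) L] :
    LineGalois κ L ↔ ∀ τ : L ≃ₐ[RatFunc κ] L, τ ≠ 1 → ∃ (m : ℕ) (b c : Fin m → L),
      (∀ i, IsIntegral κ[X] (b i)) ∧ (∀ i, IsIntegral κ[X] (c i)) ∧
        ∑ i, c i * (τ (b i) - b i) = 1 := by
  have h3 : i = polyAlgebra κ L :=
    Algebra.algebra_ext _ _ fun x => IsScalarTower.algebraMap_apply κ[X] (RatFunc κ) L x
  rw [t_unr3 κ L]
  subst h3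
  exact ⟨fun h => h.2.2, fun h => ⟨inferInstance, inferInstance, h⟩⟩

/-- Solutions as fields. -/
theorem solvable_of_EPs {L E : Type} [Field L] [Algebra (RatFunc κ) L] [Group E]
    (f : E →* (L ≃ₐ[RatFunc κ] L)) (h : EPs κ L E f) : SolvableOverLine κ L E f := by
  obtain ⟨M, i1, i2, i3, i4, i5, i6, i7, i8, γ, h1, h2⟩ := h
  exact ⟨M, i1, i2, i5, i6, (lineGalois_iff κ M).2 h2, γ, h1⟩

/-- Homomorphisms of the absolute Galois group. -/
theorem lineHom_iff {Ω W : Type} [Field Ω] [Algebra (RatFunc κ) Ω] [IsSepClosure (RatFunc κ) Ω]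
    [Group W] [Algebra κ[X] Ω] [IsScalarTower κ[X] (RatFunc κ) Ω]
    (φ : (Ω ≃ₐ[RatFunc κ] Ω) →* W) :
    LineHom κ Ω W φ ↔ Function.Surjective φ ∧ ContT φ ∧ UnrT φ := by
  classical
  constructor
  · rintro ⟨hs, M, hM, hk⟩
    have hM' : LineGalois κ M := hM
    have i1 := hM'.1
    have i2 := hM'.2.1
    obtain ⟨φ', hs', ⟨S, hS⟩, hu', hj⟩ := hom_of_field (Ω := Ω) M M.val
      ((lineGalois_iff κ M).1 hM')
    have h1 : ∀ σ, φ' σ = 1 → φ σ = 1 := by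
      intro σ hσ
      refine (hk σ).2 fun x hx => ?_
      have h2 := hj σ ⟨x, hx⟩
      rw [hσ] at h2
      exact h2
    exact ⟨hs, ⟨S, fun σ hσ => h1 σ (hS σ hσ)⟩, fun Q hQ σ hσ => h1 σ (hu' Q hQ σ hσ)⟩
  · rintro ⟨hs, hc, hu⟩
    obtain ⟨M, hfd, hgal, hM⟩ := lft_gal φ hc
    have h1 : LineGalois κ M :=
      (lineGalois_iff κ M).2 (lft_unr t_SURJ φ hu M fun σ h => (hM σ).1 h)
    exact ⟨hs, M, h1, fun σ => (hM σ).trans ⟨fun h x hx => h ⟨x, hx⟩, fun h x => h x x.2⟩⟩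

variable (p : ℕ) [Fact p.Prime] [CharP κ p]

/-- Embedding problems. -/
theorem solvable_step (L : Type) [Field L] [Algebra (RatFunc κ) L] (hL : LineGalois κ L)
    (E : Type) [Group E] (f : E →* (L ≃ₐ[RatFunc κ] L))
    (hf : StepL p (fun G _ => setL κ G) f) : SolvableOverLine κ L E f := by
  have i1 := hL.1
  have i2 := hL.2.1
  let _ : Algebra κ[X] L := polyAlgebra κ L
  have i3 : IsScalarTower κ[X] (RatFunc κ) L := IsScalarTower.of_algebraMap_eq fun _ => rfl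
  let Ω : Type := SeparableClosure (RatFunc κ)
  let _ : Algebra κ[X] Ω := ((algebraMap (RatFunc κ) Ω).comp (algebraMap κ[X] (RatFunc κ))).toAlgebra
  have i4 : IsScalarTower κ[X] (RatFunc κ) Ω := IsScalarTower.of_algebraMap_eq fun _ => rfl
  let _ : Algebra κ Ω := ((algebraMap κ[X] Ω).comp Polynomial.C).toAlgebra
  have i5 : IsScalarTower κ κ[X] Ω := IsScalarTower.of_algebraMap_eq fun _ => rfl
  have i6 : IsSepClosure (RatFunc κ) Ω := inferInstance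
  have i7 : IsSepClosed Ω := IsSepClosure.sep_closed (RatFunc κ)
  let j : L →ₐ[RatFunc κ] Ω := IsSepClosed.lift
  obtain ⟨φ, hs, hc, hu, hj⟩ := hom_of_field (Ω := Ω) L j ((lineGalois_iff κ L).1 hL)
  obtain ⟨Ψ, hΨs, hΨ, hΨc, hΨu⟩ := lifts_step p κ Ω f hf φ hs hc hu
  refine solvable_of_EPs κ f (field_of_hom t_SURJ L j E f Ψ hΨs hΨc hΨu fun σ x => ?_)
  rw [hj, ← hΨ]
  rfl

theorem steps_solvable : StepsSolvable p κ (fun G _ => setL κ G) := by
  intro L _ _ hL E _ f hf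
  exact solvable_step κ p L hL E f hf

/-- Groups. -/
theorem steps_occur : StepsOccur p κ (fun G _ => setL κ G) := by
  intro C E _ _ _ hC f hf
  obtain ⟨L, i1, i2, i3, i4, i5, i6, ⟨γ⟩, hU⟩ := unrAff_cyclic p κ C hC
  have hL : LineGalois κ L := (lineGalois_iff κ L).2 ((t_unr3 κ L).2 hU)
  obtain ⟨M, j1, j2, j3, j4, hM, γ', -⟩ := solvable_step κ p L hL E
    (γ.symm.toMonoidHom.comp f) (StepL.comp _ _ (StepL.iso γ.symm) hf)
  exact ⟨M, j1, j2, hM, ⟨γ'⟩⟩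

/-- Towers. -/
theorem steps_tower : StepsTower p κ (fun G _ => setL κ G) := by
  intro Ω _ _ _ W _ f φ₀ hf h0
  let _ : Algebra κ[X] Ω := ((algebraMap (RatFunc κ) Ω).comp (algebraMap κ[X] (RatFunc κ))).toAlgebra
  have i4 : IsScalarTower κ[X] (RatFunc κ) Ω := IsScalarTower.of_algebraMap_eq fun _ => rfl
  let _ : Algebra κ Ω := ((algebraMap κ[X] Ω).comp Polynomial.C).toAlgebra
  have i5 : IsScalarTower κ κ[X] Ω := IsScalarTower.of_algebraMap_eq fun _ => rfl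
  have key : ∀ i (φ : GalX κ Ω →* W i), LineHom κ Ω (W i) φ →
      ∃ Ψ : GalX κ Ω →* W (i + 1), LineHom κ Ω (W (i + 1)) Ψ ∧ (f i).comp Ψ = φ := by
    intro i φ hφ
    obtain ⟨hs, hc, hu⟩ := (lineHom_iff κ φ).1 hφ
    obtain ⟨Ψ, h1, h2, h3, h4⟩ := lifts_step p κ Ω (f i) (hf i) φ hs hc hu
    exact ⟨Ψ, (lineHom_iff κ Ψ).2 ⟨h1, h3, h4⟩, h2⟩
  choose F hF1 hF2 using key
  let Ψ : ∀ i, {φ : GalX κ Ω →* W i // LineHom κ Ω (W i) φ} := fun i =>
    Nat.rec ⟨φ₀, h0⟩ (fun i φ => ⟨F i φ.1 φ.2, hF1 i φ.1 φ.2⟩) i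
  exact ⟨fun i => (Ψ i).1, rfl, fun i => ⟨(Ψ i).2, hF2 i _ _⟩⟩

theorem large_sets (hp : p ≠ 2) : LargeSets (fun G _ => setL κ G) := by
  intro G _ _ hG
  exact setL_large p hp κ G hG

end fields

end Pool.Agent.H43X.StL
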